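import Pool.Agent.T2h56.TG.Stm

/-! A1: the left vertex can move to the left (helper11). -/

set_option autoImplicit false
set_option linter.all false

namespace Pool.Agent.T2h56.TG

open Set

namespace A1aux

theorem d1 (z y : Pt) : |z.1 - y.1| ≤ dist z y := by
  rw [← Real.dist_eq]
  exact (le_max_left _ _)

theorem d2 (z y : Pt) : |z.2.1 - y.2.1| ≤ dist z y := by
  rw [← Real.dist_eq]
  exact (le_max_left _ _).trans (le_max_right _ _)

theorem d3 (z y : Pt) : |z.2.2.1 - y.2.2.1| ≤ dist z y := by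
  rw [← Real.dist_eq]
  exact ((le_max_left _ _).trans (le_max_right _ _)).trans (le_max_right _ _)

theorem d4 (z y : Pt) : |z.2.2.2.1 - y.2.2.2.1| ≤ dist z y := by
  rw [← Real.dist_eq]
  exact (((le_max_left _ _).trans (le_max_right _ _)).trans (le_max_right _ _)).trans
    (le_max_right _ _)

theorem sg_mono {ξ α β : ℝ} (h : α ≤ β) : sg ξ α ≤ sg ξ β := by
  unfold sg
  have h1 : |ξ - β| ≤ |ξ - α| + (β - α) := by
    have h2 : ξ - β = (ξ - α) + (α - β) := by ring
    rw [h2]
    refine (abs_add_le _ _).trans ?_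
    rw [abs_of_nonpos (by linarith : α - β ≤ 0)]
    linarith
  linarith

theorem sg_lip {ξ α e : ℝ} (h : 0 ≤ e) : sg (ξ + e) α ≤ sg ξ α + e := by
  unfold sg
  have h1 : |ξ - α| ≤ |ξ + e - α| + e := by
    have h2 : ξ - α = (ξ + e - α) + (-e) := by ring
    rw [h2]
    refine (abs_add_le _ _).trans ?_
    rw [abs_neg, abs_of_nonneg h]
  linarith

theorem sg_ge {ξ α : ℝ} (h : 0 ≤ α) (hξ : 0 ≤ ξ) : -ξ ≤ sg ξ α := by
  unfold sg
  have h1 : |ξ - α| ≤ ξ + α := by
    rw [abs_le]
    exact ⟨by linarith, by linarith⟩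
  linarith

end A1aux

open A1aux in
theorem t_A1 (hSD : S_SD) (hAL : S_AL) : S_A1 := by
  intro D y hy hD
  obtain ⟨-, -, -, -, -, -, -, hala, -, hmono, -, hnn, -⟩ := hAL D
  set k : ℝ := D.DL y.1 y.2.1 y.2.2.1 / 2 with hk
  have hk0 : 0 < k := by positivity
  obtain ⟨δ, hδ, hsd⟩ := hSD D y.1 y.2.1 y.2.2.1 k hk0
  refine ⟨δ / 2, by positivity, fun τ z => (z.1 - min τ (max (z.1 - D.a) 0), z.2.1, z.2.2.1,
    z.2.2.2.1 + k / 4 * τ, z.2.2.2.2), ?_, ?_, ?_⟩
  · fun_prop
  · intro z
    have h1 : min 0 (max (z.1 - D.a) 0) = 0 := min_eq_left (le_max_right _ _)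
    simp only [h1, sub_zero, mul_zero, add_zero]
  · rintro ⟨L, R, v, ξ, ζ⟩ ⟨hzL, hzLR, hzR, hzv, hzξ, hzζ⟩ hdist τ ⟨hτ0, hτ⟩
    simp only at hzL hzLR hzR hzv hzξ hzζ
    have e1 := d1 (L, R, v, ξ, ζ) y
    have e2 := d2 (L, R, v, ξ, ζ) y
    have e3 := d3 (L, R, v, ξ, ζ) y
    simp only at e1 e2 e3
    have hmax : max (L - D.a) 0 = L - D.a := max_eq_left (by linarith)
    simp only
    rw [hmax]
    set ρ : ℝ := min τ (L - D.a) with hρ
    have hρ0 : 0 ≤ ρ := le_min hτ0.le (by linarith)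
    have hρτ : ρ ≤ τ := min_le_left _ _
    have hρL : ρ ≤ L - D.a := min_le_right _ _
    refine ⟨⟨?_, ?_, hzR, ?_, ?_, hzζ⟩, ?_⟩
    · simp only
      linarith
    · simp only
      linarith
    · simp only
      linarith
    · simp only
      positivity
    · unfold Dat.H
      simp only
      have h1 : |L - ρ - y.1| < δ := by
        have h2 : L - ρ - y.1 = (L - y.1) + (-ρ) := by ring
        rw [h2]
        refine lt_of_le_of_lt (abs_add_le _ _) ?_
        rw [abs_neg, abs_of_nonneg hρ0]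
        linarith
      have h2 := hsd L R v (L - ρ) R v (by linarith) (by linarith) (by linarith) h1 (by linarith)
        (by linarith)
      have h3 : L - ρ - L = -ρ := by ring
      rw [h3, sub_self, sub_self, sub_self, sub_self, mul_zero, mul_zero, mul_zero, abs_zero,
        add_zero, add_zero, add_zero, add_zero, add_zero, abs_neg, abs_of_nonneg hρ0] at h2
      have h4 := (abs_le.1 h2).2
      have h5 : D.Psi (L - ρ) R v - D.Psi L R v ≤ -(k * ρ) := by
        have h6 : D.DL y.1 y.2.1 y.2.2.1 = 2 * k := by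
          rw [hk]
          ring
        rw [h6] at h4
        linarith
      rcases min_choice τ (L - D.a) with hc | hc
      · have hρe : ρ = τ := hc
        have h6 : D.al (L - ρ) ≤ D.al L :=
          hmono ⟨by linarith, by linarith⟩ ⟨hzL, by linarith⟩ (by linarith)
        have h7 := sg_mono (ξ := ξ + k / 4 * τ) h6
        have h8 := sg_lip (ξ := ξ) (α := D.al L) (e := k / 4 * τ) (by positivity)
        rw [hρe] at h5 h7 ⊢
        have h9 : 0 < k * τ := mul_pos hk0 hτ0
        nlinarith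
      · have hρe : ρ = L - D.a := hc
        have h6 : L - ρ = D.a := by rw [hρe]; ring
        rw [h6] at h5 ⊢
        rw [hala]
        have h7 : sg (ξ + k / 4 * τ) 0 = -ξ - k / 4 * τ := by
          unfold sg
          have : 0 ≤ ξ + k / 4 * τ - 0 := by
            have := mul_pos hk0 hτ0
            linarith
          rw [abs_of_nonneg this]
          ring
        have h8 := sg_ge (ξ := ξ) (α := D.al L) (hnn L ⟨hzL, by linarith⟩).1 hzξ
        rw [h7]
        have h9 : 0 < k * τ := mul_pos hk0 hτ0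
        have h10 : 0 ≤ k * ρ := mul_nonneg hk0.le hρ0
        linarith

end Pool.Agent.T2h56.TG
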