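import Pool.Agent.T2h56.TG.Stm

/-! AL: simple facts on the area. -/

set_option autoImplicit false

namespace Pool.Agent.T2h56.TG

namespace AL

open Set MeasureTheory

variable (D : Dat)

lemma cont_w : Continuous D.w := D.cg.sub D.cf

lemma ii_f (u v : ℝ) : IntervalIntegrable D.f volume u v := D.cf.intervalIntegrable u v

lemma ii_g (u v : ℝ) : IntervalIntegrable D.g volume u v := D.cg.intervalIntegrable u v

lemma ii_w (u v : ℝ) : IntervalIntegrable D.w volume u v := (cont_w D).intervalIntegrable u v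

lemma al_eq (x : ℝ) : D.al x = ∫ t in D.a..x, D.w t := by
  unfold Dat.al Dat.F Dat.G
  rw [← intervalIntegral.integral_sub (ii_g D _ _) (ii_f D _ _)]
  rfl

lemma al_sub (x y : ℝ) : D.al y - D.al x = ∫ t in x..y, D.w t := by
  rw [al_eq, al_eq, intervalIntegral.integral_interval_sub_left (ii_w D _ _) (ii_w D _ _)]

lemma be_eq (x : ℝ) : D.be x = ∫ t in x..D.b, D.w t := by
  rw [← al_sub]
  rfl

lemma cont_F : Continuous D.F :=
  intervalIntegral.continuous_primitive (fun u v => ii_f D u v) D.a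

lemma cont_G : Continuous D.G :=
  intervalIntegral.continuous_primitive (fun u v => ii_g D u v) D.a

lemma cont_al : Continuous D.al := (cont_G D).sub (cont_F D)

lemma cont_be : Continuous D.be := continuous_const.sub (cont_al D)

lemma cont_pp : Continuous pp := continuous_id.max continuous_const

lemma cont_mm : Continuous mm := continuous_neg.max continuous_const

lemma cont_Psi : Continuous (fun z : ℝ × ℝ × ℝ => D.Psi z.1 z.2.1 z.2.2) := by
  have h1 : Continuous fun z : ℝ × ℝ × ℝ => z.1 := continuous_fst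
  have h2 : Continuous fun z : ℝ × ℝ × ℝ => z.2.1 := continuous_fst.comp continuous_snd
  have h3 : Continuous fun z : ℝ × ℝ × ℝ => z.2.2 := continuous_snd.comp continuous_snd
  have h4 := cont_pp.comp h3
  have h5 := cont_mm.comp h3
  unfold Dat.Psi
  exact (((((cont_F D).comp (h1.add h5)).sub ((cont_F D).comp (h2.sub h4))).add
    ((cont_G D).comp (h2.sub h5))).sub ((cont_G D).comp (h1.add h4))).sub
    ((((((h2.sub h1).sub h3.abs).pow 2).div_const _).sub ((h3.pow 2).const_mul _)).div_const _)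

lemma cont_sg : Continuous fun z : ℝ × ℝ => sg z.1 z.2 := by
  unfold sg
  fun_prop

lemma cont_H : Continuous D.H := by
  have h1 : Continuous fun y : Pt => y.1 := continuous_fst
  have h2 : Continuous fun y : Pt => y.2.1 := continuous_fst.comp continuous_snd
  have h3 : Continuous fun y : Pt => y.2.2.1 := by fun_prop
  have h4 : Continuous fun y : Pt => y.2.2.2.1 := by fun_prop
  have h5 : Continuous fun y : Pt => y.2.2.2.2 := by fun_prop
  have h6 : Continuous fun y : Pt => D.Psi y.1 y.2.1 y.2.2.1 :=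
    (cont_Psi D).comp (h1.prodMk (h2.prodMk h3))
  have h7 : Continuous fun y : Pt => sg y.2.2.2.1 (D.al y.1) :=
    cont_sg.comp (h4.prodMk ((cont_al D).comp h1))
  have h8 : Continuous fun y : Pt => sg y.2.2.2.2 (D.be y.2.1) :=
    cont_sg.comp (h5.prodMk ((cont_be D).comp h2))
  exact (h6.add h7).add h8

lemma w_nonneg {x : ℝ} (hx : x ∈ Icc D.a D.b) : 0 ≤ D.w x := sub_nonneg.2 (D.fg x hx)

lemma strict (x0 : ℝ) {ε : ℝ} (hε : 0 < ε) : ∃ δ > 0, ∀ x x', |x - x0| < δ → |x' - x0| < δ →
    |D.al x' - D.al x - D.w x0 * (x' - x)| ≤ ε * |x' - x| := by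
  obtain ⟨δ, hδ, h⟩ := Metric.continuousAt_iff.1 (cont_w D).continuousAt ε hε
  refine ⟨δ, hδ, fun x x' hx hx' => ?_⟩
  have h1 : D.al x' - D.al x - D.w x0 * (x' - x) = ∫ t in x..x', (D.w t - D.w x0) := by
    rw [intervalIntegral.integral_sub (ii_w D _ _) intervalIntegrable_const,
      intervalIntegral.integral_const, al_sub, smul_eq_mul]
    ring
  rw [h1, ← Real.norm_eq_abs]
  refine intervalIntegral.norm_integral_le_of_norm_le_const fun t ht => ?_
  have h2 : |t - x0| < δ := by
    rw [abs_lt] at hx hx' ⊢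
    rcases le_total x x' with h3 | h3
    · rw [uIoc_of_le h3] at ht
      constructor <;> linarith [ht.1, ht.2]
    · rw [uIoc_of_ge h3] at ht
      constructor <;> linarith [ht.1, ht.2]
  have h3 := h (x := t) (by rwa [Real.dist_eq])
  rw [Real.dist_eq] at h3
  rw [Real.norm_eq_abs]
  exact h3.le

lemma al_a : D.al D.a = 0 := by
  rw [al_eq, intervalIntegral.integral_same]

lemma be_b : D.be D.b = 0 := by
  rw [be_eq, intervalIntegral.integral_same]

lemma al_mono : MonotoneOn D.al (Icc D.a D.b) := by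
  intro x hx y hy hxy
  rw [← sub_nonneg, al_sub]
  exact intervalIntegral.integral_nonneg hxy fun t ht =>
    w_nonneg D ⟨hx.1.trans ht.1, ht.2.trans hy.2⟩

lemma be_anti : AntitoneOn D.be (Icc D.a D.b) := by
  intro x hx y hy hxy
  have := al_mono D hx hy hxy
  unfold Dat.be
  linarith

lemma al_pos {x : ℝ} (h1 : D.a < x) (h2 : x ≤ D.b) (h : 0 < D.w x) : 0 < D.al x := by
  rw [al_eq]
  exact intervalIntegral.integral_pos h1 (cont_w D).continuousOn
    (fun t ht => w_nonneg D ⟨ht.1.le, ht.2.trans h2⟩) ⟨x, right_mem_Icc.2 h1.le, h⟩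

lemma be_pos {x : ℝ} (h1 : D.a ≤ x) (h2 : x < D.b) (h : 0 < D.w x) : 0 < D.be x := by
  rw [be_eq]
  exact intervalIntegral.integral_pos h2 (cont_w D).continuousOn
    (fun t ht => w_nonneg D ⟨h1.trans ht.1.le, ht.2⟩) ⟨x, left_mem_Icc.2 h2.le, h⟩

lemma lower {x x' : ℝ} (hxx : x ≤ x') {c : ℝ} (hc : ∀ t ∈ Icc x x', c ≤ D.w t) :
    c * (x' - x) ≤ D.al x' - D.al x := by
  have h1 : D.al x' - D.al x - c * (x' - x) = ∫ t in x..x', (D.w t - c) := by
    rw [intervalIntegral.integral_sub (ii_w D _ _) intervalIntegrable_const,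
      intervalIntegral.integral_const, al_sub, smul_eq_mul]
    ring
  rw [← sub_nonneg, h1]
  exact intervalIntegral.integral_nonneg hxx fun t ht => sub_nonneg.2 (hc t ht)

end AL

open AL in
theorem t_AL : S_AL := by
  intro D
  refine ⟨fun x0 ε hε => strict D x0 hε, cont_al D, cont_be D, cont_F D, cont_G D, cont_Psi D,
    cont_H D, al_a D, be_b D, al_mono D, be_anti D, ?_, ?_, ?_, ?_, ?_⟩
  · intro x hx
    refine ⟨?_, ?_⟩
    · rw [← al_a D]
      exact al_mono D ⟨le_rfl, D.ab.le⟩ hx hx.1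
    · rw [← be_b D]
      exact be_anti D hx ⟨D.ab.le, le_rfl⟩ hx.2
  · intro x hx h
    by_contra hn
    have h1 : 0 < D.w x := lt_of_le_of_ne (w_nonneg D hx) (Ne.symm hn)
    rcases hx.1.lt_or_eq with h2 | h2
    · exact absurd h (al_pos D h2 hx.2 h1).ne'
    · apply hn
      rw [← h2]
      unfold Dat.w
      rw [D.ea, sub_self]
  · intro x hx h
    by_contra hn
    have h1 : 0 < D.w x := lt_of_le_of_ne (w_nonneg D hx) (Ne.symm hn)
    rcases hx.2.lt_or_eq with h2 | h2
    · exact absurd h (be_pos D hx.1 h2 h1).ne'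
    · apply hn
      rw [h2]
      unfold Dat.w
      rw [D.eb, sub_self]
  · intro x hx h
    exact ⟨al_pos D hx.1 hx.2.le h, be_pos D hx.1.le hx.2 h⟩
  · intro x _ x' _ hxx c hc
    exact lower D hxx hc

end Pool.Agent.T2h56.TG
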