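import Pool.Agent.T2h56.TG.Stm

/-! CMP: the band is compact. -/

set_option autoImplicit false

namespace Pool.Agent.T2h56.TG

open Set

private theorem sg_le_self (ξ α : ℝ) : sg ξ α ≤ α := by
  unfold sg
  linarith [abs_nonneg (ξ - α)]

private theorem sg_le_two (ξ α : ℝ) : sg ξ α ≤ 2 * α - ξ := by
  unfold sg
  linarith [le_abs_self (ξ - α)]

theorem t_CMP (hAL : S_AL) : S_CMP := by
  intro D l0 l1
  obtain ⟨-, hal, hbe, -, -, hPsi, hH, -⟩ := hAL D
  have hYc : IsClosed D.Y := by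
    have e : D.Y = {y : Pt | D.a ≤ y.1} ∩ ({y : Pt | y.1 ≤ y.2.1} ∩ ({y : Pt | y.2.1 ≤ D.b} ∩
        ({y : Pt | |y.2.2.1| ≤ y.2.1 - y.1} ∩ ({y : Pt | 0 ≤ y.2.2.2.1} ∩
          {y : Pt | 0 ≤ y.2.2.2.2})))) := by
      ext y
      simp only [Dat.Y, mem_setOf_eq, mem_inter_iff]
    rw [e]
    refine (isClosed_le (by fun_prop) (by fun_prop)).inter
      ((isClosed_le (by fun_prop) (by fun_prop)).inter
        ((isClosed_le (by fun_prop) (by fun_prop)).inter
          ((isClosed_le (by fun_prop) (by fun_prop)).inter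
            ((isClosed_le (by fun_prop) (by fun_prop)).inter
              (isClosed_le (by fun_prop) (by fun_prop))))))
  have hcl : IsClosed {y | y ∈ D.Y ∧ l0 ≤ D.H y ∧ D.H y ≤ l1} := by
    have e : {y | y ∈ D.Y ∧ l0 ≤ D.H y ∧ D.H y ≤ l1} =
        D.Y ∩ ({y | l0 ≤ D.H y} ∩ {y | D.H y ≤ l1}) := by
      ext y
      simp only [mem_setOf_eq, mem_inter_iff]
    rw [e]
    exact hYc.inter ((isClosed_le continuous_const hH).inter (isClosed_le hH continuous_const))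
  obtain ⟨M, hM⟩ := ((isCompact_Icc (a := D.a) (b := D.b)).prod
    ((isCompact_Icc (a := D.a) (b := D.b)).prod
      (isCompact_Icc (a := -(D.b - D.a)) (b := D.b - D.a)))).exists_bound_of_continuousOn
        hPsi.continuousOn
  obtain ⟨A, hA⟩ := (isCompact_Icc (a := D.a) (b := D.b)).exists_bound_of_continuousOn
        hal.continuousOn
  obtain ⟨B, hB⟩ := (isCompact_Icc (a := D.a) (b := D.b)).exists_bound_of_continuousOn
        hbe.continuousOn
  have hK : IsCompact (Icc D.a D.b ×ˢ Icc D.a D.b ×ˢ Icc (-(D.b - D.a)) (D.b - D.a) ×ˢ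
      Icc 0 (M + 2 * A + B - l0) ×ˢ Icc 0 (M + A + 2 * B - l0) : Set Pt) :=
    isCompact_Icc.prod (isCompact_Icc.prod (isCompact_Icc.prod
      (isCompact_Icc.prod isCompact_Icc)))
  refine hK.of_isClosed_subset hcl ?_
  rintro ⟨L, R, v, ξ, ζ⟩ ⟨⟨h1, h2, h3, h4, h5, h6⟩, h7, -⟩
  simp only at h1 h2 h3 h4 h5 h6
  have hv := abs_le.mp h4
  have hb := hM (L, R, v) ⟨⟨h1, by linarith⟩, ⟨by linarith, h3⟩, ⟨by linarith, by linarith⟩⟩
  have ha := hA L ⟨h1, by linarith⟩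
  have hc := hB R ⟨by linarith, h3⟩
  simp only [Real.norm_eq_abs] at hb ha hc
  have hb' := le_of_abs_le hb
  have ha' := le_of_abs_le ha
  have hc' := le_of_abs_le hc
  simp only [Dat.H] at h7
  have s1 := sg_le_self ξ (D.al L)
  have s2 := sg_le_two ξ (D.al L)
  have s3 := sg_le_self ζ (D.be R)
  have s4 := sg_le_two ζ (D.be R)
  refine ⟨⟨h1, by linarith⟩, ⟨by linarith, h3⟩, ⟨by linarith, by linarith⟩, ⟨h5, ?_⟩, ⟨h6, ?_⟩⟩
  · show ξ ≤ _
    linarith
  · show ζ ≤ _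
    linarith

end Pool.Agent.T2h56.TG
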