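import Pool.Agent.T2h56.TG.Stm
import Pool.Agent.Helper627.PM

/-! The min-max theorem. -/

set_option autoImplicit false

namespace Pool.Agent.T2h56.TG

open Set

theorem psi_face {D : Dat} {L R v : ℝ} (h : |v| = R - L) : D.Psi L R v = D.r * (R - L) ^ 2 / 2 := by
  unfold Dat.Psi
  have e1 : v ^ 2 = (R - L) ^ 2 := by rw [← h, sq_abs]
  rcases le_total 0 v with hv | hv
  · have h1 : pp v = v := max_eq_left hv
    have h2 : mm v = 0 := max_eq_right (by linarith)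
    rw [abs_of_nonneg hv] at h
    rw [h1, h2, abs_of_nonneg hv, e1, show L + v = R by linarith, show R - v = L by linarith, h]
    simp
    ring
  · have h1 : pp v = 0 := max_eq_right hv
    have h2 : mm v = -v := max_eq_left (by linarith)
    rw [abs_of_nonpos hv] at h
    rw [h1, h2, abs_of_nonpos hv, e1, show L + -v = R by linarith, show R - -v = L by linarith, h]
    simp
    ring

theorem sg_zero {α : ℝ} (h : 0 ≤ α) : sg 0 α = 0 := by
  unfold sg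
  rw [zero_sub, abs_neg, abs_of_nonneg h, sub_self]

theorem sg_self (α : ℝ) : sg α α = α := by
  unfold sg
  rw [sub_self, abs_zero, sub_zero]

/-- linking -/
theorem link (hAL : S_AL) (hKP : S_KP) {D : Dat} {x0 y0 δ h Ls Rs M : ℝ} (hδ : 0 < δ) (hh : 0 < h)
    (hxa : D.a ≤ x0 - δ) (hxb : x0 + δ ≤ D.b)
    (hbox : ∀ x ∈ Icc (x0 - δ) (x0 + δ), D.f x ≤ y0 - h ∧ y0 + h ≤ D.g x) (hδr : δ ≤ h * D.r)
    (hM : 0 < M) (hLs : D.a < Ls) (hRs : Rs < D.b) (hLR : Ls < Rs) {P : ℝ × ℝ → Pt}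
    (hP : Continuous P)
    (hPY : ∀ p ∈ Icc (Ls - M) D.b, ∀ t ∈ Icc D.a (Rs + M), P (p, t) ∈ D.Y)
    (b1 : ∀ t ∈ Icc D.a (Rs + M), D.H (P (Ls - M, t)) ≤ 0 ∧
      min ((P (Ls - M, t)).1 - (x0 - δ)) (D.al (P (Ls - M, t)).1 - (P (Ls - M, t)).2.2.2.1) < 0)
    (b2 : ∀ t ∈ Icc D.a (Rs + M), D.H (P (D.b, t)) ≤ 0 ∧
      0 < min ((P (D.b, t)).1 - (x0 - δ)) (D.al (P (D.b, t)).1 - (P (D.b, t)).2.2.2.1))
    (b3 : ∀ p ∈ Icc (Ls - M) D.b, D.H (P (p, D.a)) ≤ 0 ∧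
      0 < min ((x0 + δ) - (P (p, D.a)).2.1) (D.be (P (p, D.a)).2.1 - (P (p, D.a)).2.2.2.2))
    (b4 : ∀ p ∈ Icc (Ls - M) D.b, D.H (P (p, Rs + M)) ≤ 0 ∧
      min ((x0 + δ) - (P (p, Rs + M)).2.1)
        (D.be (P (p, Rs + M)).2.1 - (P (p, Rs + M)).2.2.2.2) < 0)
    {Φ : Pt → Pt} (hΦ : Continuous Φ) (hΦY : MapsTo Φ D.Y D.Y)
    (hΦ0 : ∀ z ∈ D.Y, D.H z ≤ 0 → Φ z = z) :
    ∃ p ∈ Icc (Ls - M) D.b, ∃ t ∈ Icc D.a (Rs + M),
      min (h * δ) (D.r * δ ^ 2 / 2) ≤ D.H (Φ (P (p, t))) := by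
  obtain ⟨-, cal, cbe, -, -, -, -, -⟩ := hAL D
  have hab1 : Ls - M ≤ D.b := by linarith
  have hab2 : D.a ≤ Rs + M := by linarith
  have cΦ : Continuous (fun x : ℝ × ℝ => Φ (P x)) := hΦ.comp hP
  have c1 : Continuous (fun x : ℝ × ℝ =>
      min ((Φ (P x)).1 - (x0 - δ)) (D.al (Φ (P x)).1 - (Φ (P x)).2.2.2.1)) := by
    have e : Continuous fun x : ℝ × ℝ => D.al (Φ (P x)).1 := cal.comp cΦ.fst
    exact (by fun_prop : Continuous fun x : ℝ × ℝ => (Φ (P x)).1 - (x0 - δ)).min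
      (e.sub cΦ.snd.snd.snd.fst)
  have c2 : Continuous (fun x : ℝ × ℝ =>
      -min ((x0 + δ) - (Φ (P x)).2.1) (D.be (Φ (P x)).2.1 - (Φ (P x)).2.2.2.2)) := by
    have e : Continuous fun x : ℝ × ℝ => D.be (Φ (P x)).2.1 := cbe.comp cΦ.snd.fst
    exact ((by fun_prop : Continuous fun x : ℝ × ℝ => (x0 + δ) - (Φ (P x)).2.1).min
      (e.sub cΦ.snd.snd.snd.snd)).neg
  obtain ⟨p, hp, t, ht, e1, e2⟩ := Pool.Agent.Helper627.PM.poincare_miranda (Ls - M) D.b D.a (Rs + M)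
    hab1 hab2
    (fun x => -min ((x0 + δ) - (Φ (P x)).2.1) (D.be (Φ (P x)).2.1 - (Φ (P x)).2.2.2.2))
    (fun x => min ((Φ (P x)).1 - (x0 - δ)) (D.al (Φ (P x)).1 - (Φ (P x)).2.2.2.1))
    c2.continuousOn c1.continuousOn
    (fun t ht => by
      have := b1 t ht
      rw [hΦ0 _ (hPY _ ⟨le_rfl, hab1⟩ _ ht) this.1]
      exact this.2)
    (fun t ht => by
      have := b2 t ht
      rw [hΦ0 _ (hPY _ ⟨hab1, le_rfl⟩ _ ht) this.1]
      exact this.2)
    (fun p hp => by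
      have := b3 p hp
      rw [hΦ0 _ (hPY _ hp _ ⟨le_rfl, hab2⟩) this.1]
      linarith [this.2])
    (fun p hp => by
      have := b4 p hp
      rw [hΦ0 _ (hPY _ hp _ ⟨hab2, le_rfl⟩) this.1]
      linarith [this.2])
  refine ⟨p, hp, t, ht, ?_⟩
  exact hKP D x0 y0 δ h hδ hh hxa hxb hbox hδr _ (hΦY (hPY p hp t ht)) e2 (by
    linarith)

theorem t_CORE (hPUSH : S_PUSH) (hDEF : S_DEF) (hAL : S_AL) (hRG : S_RG) (hREF : S_REF)
    (hCRIT : S_CRIT) (hKP : S_KP) (hQM : S_QM) (hDISC : S_DISC) (hCMP : S_CMP) : S_CORE := by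
  intro D x0 y0 δ h k hδ hh hxa hxb hbox hδr hrδ hk0 hkb hH0
  by_contra hno
  push Not at hno
  obtain ⟨Ls, Rs, hLs, hLR, hRs, hmin, hwL, hwR, hq⟩ := hQM D x0 y0 δ h hδ hh hxa hxb hbox hrδ
  obtain ⟨-, cal, cbe, -, -, -, cH, ha, hb, hmo, han, hnn, hz0, hz1, hpos, hlow⟩ := hAL D
  have hr0 := D.r0
  have hℓ : 0 < Rs - Ls := by linarith
  have halL : 0 < D.al Ls := (hpos Ls ⟨hLs, by linarith⟩ (by rw [hwL]; positivity)).1
  have hbeR : 0 < D.be Rs := (hpos Rs ⟨by linarith, hRs⟩ (by rw [hwR]; positivity)).2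
  have hwbox : ∀ t ∈ Icc (x0 - δ) (x0 + δ), 2 * h ≤ D.w t := fun t ht => by
    have := hbox t ht
    unfold Dat.w
    linarith [this.1, this.2]
  have hLpos : ∀ x, x0 - δ < x → x ≤ D.b → 0 < D.al x := fun x h1 h2 => by
    have h3 := hlow (x0 - δ) ⟨hxa, by linarith⟩ (min x (x0 + δ))
      ⟨le_min (by linarith) (by linarith), (min_le_left _ _).trans h2⟩
      (le_min h1.le (by linarith)) (2 * h) (fun t ht => hwbox t ⟨ht.1, ht.2.trans (min_le_right _ _)⟩)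
    have h4 : x0 - δ < min x (x0 + δ) := lt_min h1 (by linarith)
    have h5 : D.al (min x (x0 + δ)) ≤ D.al x := hmo
      ⟨le_min (by linarith) (by linarith), (min_le_left _ _).trans h2⟩ ⟨by linarith, h2⟩
      (min_le_left _ _)
    have h6 := (hnn (x0 - δ) ⟨hxa, by linarith⟩).1
    nlinarith [mul_pos hh (sub_pos.2 h4)]
  have hRpos : ∀ x, x < x0 + δ → D.a ≤ x → 0 < D.be x := fun x h1 h2 => by
    have h3 := hlow (max x (x0 - δ)) ⟨h2.trans (le_max_left _ _), max_le (by linarith) (by linarith)⟩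
      (x0 + δ) ⟨by linarith, hxb⟩
      (max_le h1.le (by linarith)) (2 * h) (fun t ht => hwbox t ⟨(le_max_right _ _).trans ht.1, ht.2⟩)
    have h4 : max x (x0 - δ) < x0 + δ := max_lt h1 (by linarith)
    have h5 : D.al x ≤ D.al (max x (x0 - δ)) := hmo ⟨h2, by linarith⟩
      ⟨h2.trans (le_max_left _ _), max_le (by linarith) (by linarith)⟩ (le_max_left _ _)
    have h6 : D.al (x0 + δ) ≤ D.al D.b := hmo ⟨by linarith, hxb⟩ ⟨D.ab.le, le_rfl⟩ hxb
    have h7 : D.be x = D.al D.b - D.al x := rfl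
    rw [h7]
    nlinarith [mul_pos hh (sub_pos.2 h4)]
  -- the face has level q
  have hface : ∀ y ∈ D.Y, |y.2.2.1| = y.2.1 - y.1 → y.2.2.2.1 = D.al y.1 →
      y.2.2.2.2 = D.be y.2.1 → D.H y = D.q y.1 y.2.1 := fun y _ h1 h2 h3 => by
    unfold Dat.H Dat.q
    rw [psi_face h1, h2, h3, sg_self, sg_self]
    ring
  have hq0 : 0 < D.q Ls Rs := by
    unfold Dat.q
    positivity
  have hqar : D.q Ls Rs ≤ D.ar - 2 * h * δ := by linarith
  -- the starting point on the face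
  have hstart : ∀ s : ℝ, (s = 1 ∨ s = -1) →
      (Ls, Rs, s * (Rs - Ls), D.al Ls, D.be Rs) ∈ D.Y ∧
      |s * (Rs - Ls)| = Rs - Ls := by
    intro s hs
    have : |s * (Rs - Ls)| = Rs - Ls := by
      rw [abs_mul, abs_of_pos hℓ]
      rcases hs with h | h <;> rw [h] <;> simp
    exact ⟨⟨hLs.le, hLR.le, hRs.le, this.le, halL.le, hbeR.le⟩, this⟩
  -- the linking argument, for every continuous map
  have hDISC' : ∀ s : ℝ, (s = 1 ∨ s = -1) → ∃ (M : ℝ) (P : ℝ × ℝ → Pt), 0 < M ∧ Continuous P ∧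
      (∀ p ∈ Icc (Ls - M) D.b, ∀ t ∈ Icc D.a (Rs + M), P (p, t) ∈ D.Y ∧
        D.H (P (p, t)) ≤ D.q Ls Rs ∧
        (D.H (P (p, t)) = D.q Ls Rs → P (p, t) = (Ls, Rs, s * (Rs - Ls), D.al Ls, D.be Rs))) ∧
      ∀ Φ : Pt → Pt, Continuous Φ → MapsTo Φ D.Y D.Y → (∀ z ∈ D.Y, D.H z ≤ 0 → Φ z = z) →
        ∃ p ∈ Icc (Ls - M) D.b, ∃ t ∈ Icc D.a (Rs + M),
          min (h * δ) (D.r * δ ^ 2 / 2) ≤ D.H (Φ (P (p, t))) := by
    intro s hs
    obtain ⟨M, P, hM, hP, h1, b1, b2, b3, b4⟩ := hDISC D Ls Rs (x0 - δ) (x0 + δ) s hLs hLR hRs hxa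
      (by linarith) hxb halL hbeR hLpos hRpos hs
    exact ⟨M, P, hM, hP, h1, fun Φ hΦ hΦY hΦ0 => link hAL hKP hδ hh hxa hxb hbox hδr hM hLs hRs hLR
      hP (fun p hp t ht => (h1 p hp t ht).1) b1 b2 b3 b4 hΦ hΦY hΦ0⟩
  have hkq : k ≤ D.q Ls Rs := by
    obtain ⟨M, P, hM, hP, h1, h2⟩ := hDISC' 1 (Or.inl rfl)
    obtain ⟨p, hp, t, ht, h3⟩ := h2 id continuous_id (mapsTo_id _) (fun _ _ _ => rfl)
    exact (hkb.le.trans h3).trans (h1 p hp t ht).2.1
  -- no local maximum at the starting point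
  obtain ⟨s, hs, hdesc⟩ : ∃ s : ℝ, (s = 1 ∨ s = -1) ∧
      D.Desc (Ls, Rs, s * (Rs - Ls), D.al Ls, D.be Rs) := by
    have hwL' : D.g Ls - D.f Ls = D.r * (Rs - Ls) := hwL
    have hwR' : D.g Rs - D.f Rs = D.r * (Rs - Ls) := hwR
    rcases lt_trichotomy (D.f Ls) (D.f Rs) with hf | hf | hf
    · refine ⟨-1, Or.inr rfl, ?_⟩
      obtain ⟨m1, -, m3, m4, m5⟩ := hREF D (Ls, Rs, -1 * (Rs - Ls), D.al Ls, D.be Rs)
      refine m3 ((hRG D.ref _ (m1.1 (hstart (-1) (Or.inr rfl)).1)).1 ?_ ?_)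
      · simp only [muR]; linarith
      · simp only [muR]
        rw [(m5 Ls Rs (-1 * (Rs - Ls))).2.2.1]
        unfold Dat.DM
        have e1 : mm (-1 * (Rs - Ls)) = Rs - Ls := by
          unfold mm
          rw [show -(-1 * (Rs - Ls)) = Rs - Ls by ring]
          exact max_eq_left hℓ.le
        have e2 : |-1 * (Rs - Ls)| = Rs - Ls := (hstart (-1) (Or.inr rfl)).2
        rw [e1, e2, sub_self, zero_div, show Ls + (Rs - Ls) = Rs by ring,
          show Rs - (Rs - Ls) = Ls by ring]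
        linarith
    · exfalso
      have hy : ((Ls, Rs, Rs - Ls, D.al Ls, D.be Rs) : Pt) ∈ D.Y := by
        have := (hstart 1 (Or.inl rfl)).1
        rwa [one_mul] at this
      have hab : |Rs - Ls| = Rs - Ls := abs_of_pos hℓ
      have hH := hface _ hy hab rfl rfl
      have := hno _ hy ⟨hLR, D.g Ls, D.f Rs, Or.inr rfl, Or.inl rfl, Or.inl
        ⟨hℓ.le, by
          show D.g (Ls + (Rs - Ls)) = D.g Ls + (Rs - Ls - (Rs - Ls)) / D.r
          rw [show Ls + (Rs - Ls) = Rs by ring, sub_self, zero_div]; linarith, by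
          show D.f (Rs - (Rs - Ls)) = D.g Ls - D.r * (Rs - Ls)
          rw [show Rs - (Rs - Ls) = Ls by ring]; linarith, by
          show D.f Rs = D.g Ls + (Rs - Ls - (Rs - Ls)) / D.r - D.r * (Rs - Ls)
          rw [sub_self, zero_div]; linarith⟩⟩ (Or.inr rfl) (Or.inr rfl) (by rw [hH]; exact hkq)
      rw [hH] at this
      exact absurd hqar (not_le.2 this)
    · refine ⟨1, Or.inl rfl, ?_⟩
      refine (hRG D _ (hstart 1 (Or.inl rfl)).1).1 ?_ ?_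
      · simp only; linarith
      · simp only
        unfold Dat.DP
        have e1 : pp (1 * (Rs - Ls)) = Rs - Ls := by
          unfold pp
          rw [one_mul]
          exact max_eq_left hℓ.le
        have e2 : |1 * (Rs - Ls)| = Rs - Ls := (hstart 1 (Or.inl rfl)).2
        rw [e1, e2, sub_self, zero_div, show Ls + (Rs - Ls) = Rs by ring,
          show Rs - (Rs - Ls) = Ls by ring]
        linarith
  obtain ⟨hst, hsabs⟩ := hstart s hs
  obtain ⟨M, P, hM, hP, h1, h2⟩ := hDISC' s hs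
  have hHst : D.H (Ls, Rs, s * (Rs - Ls), D.al Ls, D.be Rs) = D.q Ls Rs := hface _ hst hsabs rfl rfl
  obtain ⟨Φ1, cΦ1, mΦ1, dΦ1, fΦ1, sΦ1⟩ := hPUSH Pt D.Y D.H 0
    (Ls, Rs, s * (Rs - Ls), D.al Ls, D.be Rs) cH hst (by rw [hHst]; exact hq0) hdesc
  -- the new maximum
  have hK : IsCompact (Icc (Ls - M) D.b ×ˢ Icc D.a (Rs + M)) := isCompact_Icc.prod isCompact_Icc
  have hKne : (Icc (Ls - M) D.b ×ˢ Icc D.a (Rs + M)).Nonempty :=
    ⟨(D.b, D.a), ⟨by linarith, le_rfl⟩, ⟨le_rfl, by linarith⟩⟩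
  obtain ⟨z0, hz0m, hz0⟩ := hK.exists_isMaxOn hKne
    (f := fun x => D.H (Φ1 (P x))) ((cH.comp (cΦ1.comp hP)).continuousOn)
  have hl1 : D.H (Φ1 (P z0)) < D.q Ls Rs := by
    obtain ⟨g1, g2, g3⟩ := h1 z0.1 hz0m.1 z0.2 hz0m.2
    rcases g2.eq_or_lt with h4 | h4
    · have := g3 h4
      rw [show P z0 = P (z0.1, z0.2) from rfl, this]
      exact sΦ1.trans_le hHst.le
    · rcases dΦ1 _ g1 with h5 | h5
      · rw [show P z0 = P (z0.1, z0.2) from rfl, h5]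
        exact h4
      · exact h5.trans h4
  -- the deformation
  obtain ⟨Φ2, cΦ2, mΦ2, fΦ2, gΦ2⟩ := hDEF Pt D.Y D.H 0 k (D.H (Φ1 (P z0))) cH hk0 (hCMP D _ _) (by
    intro y hy hk1 hk2
    by_contra hn
    have hn' : ¬ D.Desc y := hn
    have hlq : D.H y < D.q Ls Rs := hk2.trans_lt hl1
    have hLm : y.1 ∈ Icc D.a D.b := ⟨hy.1, hy.2.1.trans hy.2.2.1⟩
    have hRm : y.2.1 ∈ Icc D.a D.b := ⟨hy.1.trans hy.2.1, hy.2.2.1⟩
    obtain ⟨hx, hz, hc⟩ := hCRIT D y hy hn'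
    rcases hc with hc | ⟨c1, c2, c3, c4⟩ | ⟨c1, c2⟩
    · have := hno y hy hc hx hz hk1
      linarith
    · rw [hface y hy c2 c3 c4] at hlq
      have := hmin y.1 y.2.1 hy.1 hy.2.1 hy.2.2.1
      linarith
    · have hv0 : |y.2.2.1| = y.2.1 - y.1 := by
        have := hy.2.2.2.1
        rw [c1, sub_self] at this ⊢
        exact le_antisymm this (abs_nonneg _)
      have hPsi : D.Psi y.1 y.2.1 y.2.2.1 = 0 := by
        rw [psi_face hv0, c1]; simp
      have hsum : D.al y.1 + D.be y.2.1 = D.ar := by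
        rw [c1]; unfold Dat.be; ring
      have hHy : D.H y = sg y.2.2.2.1 (D.al y.1) + sg y.2.2.2.2 (D.be y.2.1) := by
        unfold Dat.H
        rw [hPsi, zero_add]
      have ha0 := (hnn _ hLm).1
      have hb0 := (hnn _ hRm).2
      have h2hδ : k < 2 * h * δ := by
        have := hkb.trans_le (min_le_left _ _)
        nlinarith [mul_pos hh hδ]
      -- the possible values
      rcases hx with hx | hx <;> rcases hz with hz | hz <;>
        simp only [hx, hz, sg_self] at hHy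
      · rw [sg_zero ha0, sg_zero hb0] at hHy
        linarith
      · rw [sg_zero ha0, zero_add] at hHy
        rcases c2 with ⟨d1, d2⟩ | ⟨d1, d2⟩ | d1
        · rw [hz] at d2; linarith
        · rw [hx] at d1; linarith
        · rcases hH0 y.1 hLm (by
              have : D.g y.1 - D.f y.1 = 0 := d1
              linarith) with e | e
          · linarith
          · rw [c1] at e
            linarith
      · rw [sg_zero hb0, add_zero] at hHy
        rcases c2 with ⟨d1, d2⟩ | ⟨d1, d2⟩ | d1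
        · rw [hx] at d1; linarith
        · rw [hz] at d2; linarith
        · rcases hH0 y.1 hLm (by
              have : D.g y.1 - D.f y.1 = 0 := d1
              linarith) with e | e
          · linarith
          · rw [c1] at e
            linarith
      · linarith)
  obtain ⟨p, hp, t, ht, hfin⟩ := h2 (Φ2 ∘ Φ1) (cΦ2.comp cΦ1) (mΦ2.comp mΦ1) (fun z hz hz0 => by
    show Φ2 (Φ1 z) = z
    rw [fΦ1 z hz hz0, fΦ2 z hz hz0])
  have h6 : D.H (Φ2 (Φ1 (P (p, t)))) < k :=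
    gΦ2 _ (mΦ1 (h1 p hp t ht).1) (hz0 (show (p, t) ∈ _ from ⟨hp, ht⟩))
  have h7 : min (h * δ) (D.r * δ ^ 2 / 2) ≤ D.H (Φ2 (Φ1 (P (p, t)))) := hfin
  linarith

end Pool.Agent.T2h56.TG
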