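import Pool.Agent.T2h56.TG.Stm

/-! The points without local descent. -/

set_option autoImplicit false

namespace Pool.Agent.T2h56.TG

open Set

theorem pp_nonneg_eq {v : ℝ} (h : 0 ≤ v) : pp v = v := max_eq_left h
theorem mm_nonneg_eq {v : ℝ} (h : 0 ≤ v) : mm v = 0 := max_eq_right (by linarith)
theorem pp_nonpos_eq {v : ℝ} (h : v ≤ 0) : pp v = 0 := max_eq_right h
theorem mm_nonpos_eq {v : ℝ} (h : v ≤ 0) : mm v = -v := max_eq_left (by linarith)

section
variable (hAL : S_AL) (hA1 : S_A1) (hRA : S_RA) (hRG : S_RG) (hRI : S_RI) (hMIR : S_MIR)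
  (hREF : S_REF)
include hAL hA1 hRA

/-- the fibre coordinate on the left -/
theorem crit_xi {D : Dat} {y : Pt} (hy : y ∈ D.Y) (hn : ¬ D.Desc y) :
    y.2.2.2.1 = 0 ∨ y.2.2.2.1 = D.al y.1 := by
  obtain ⟨h1, h2, -⟩ := hRA D y hy
  have h3 : 0 ≤ y.2.2.2.1 := hy.2.2.2.2.1
  rcases h3.eq_or_lt with h | h
  · exact Or.inl h.symm
  · right
    rcases lt_trichotomy y.2.2.2.1 (D.al y.1) with h4 | h4 | h4
    · exact absurd (h1 h h4) hn
    · exact h4
    · exact absurd (h2 h4) hn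

theorem crit_left {D : Dat} {y : Pt} (hy : y ∈ D.Y) (hn : ¬ D.Desc y)
    (hv : |y.2.2.1| < y.2.1 - y.1) :
    D.DL y.1 y.2.1 y.2.2.1 = 0 ∨ D.DL y.1 y.2.1 y.2.2.1 + D.w y.1 = 0 := by
  obtain ⟨-, -, h3, h4, h5⟩ := hRA D y hy
  have a1 : D.DL y.1 y.2.1 y.2.2.1 ≤ 0 := not_lt.1 fun h => hn (hA1 D y hy h)
  have a2 : 0 ≤ D.DL y.1 y.2.1 y.2.2.1 + D.w y.1 := not_lt.1 fun h => hn (h3 hv h)
  obtain ⟨-, -, -, -, -, -, -, ha, hb, hmo, -, hnn, hz, -, -, -⟩ := hAL D
  have hL : y.1 ∈ Icc D.a D.b := ⟨hy.1, hy.2.1.trans hy.2.2.1⟩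
  rcases crit_xi hAL hA1 hRA hy hn with h | h
  · rcases (hnn _ hL).1.eq_or_lt with h0 | h0
    · -- al = 0
      have := hz _ hL h0.symm
      left
      linarith
    · left
      refine le_antisymm a1 (not_lt.1 fun h6 => hn (h4 hv h6 (by rw [h]; exact h0)))
  · rcases (hnn _ hL).1.eq_or_lt with h0 | h0
    · have := hz _ hL h0.symm
      left
      linarith
    · right
      refine le_antisymm (not_lt.1 fun h6 => hn (h5 h6 (by rw [h]; exact h0) ?_)) a2
      rcases hy.1.eq_or_lt with h7 | h7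
      · rw [← h7, ha] at h0
        exact absurd h0 (lt_irrefl _)
      · exact h7

include hMIR

theorem crit_zeta {D : Dat} {y : Pt} (hy : y ∈ D.Y) (hn : ¬ D.Desc y) :
    y.2.2.2.2 = 0 ∨ y.2.2.2.2 = D.be y.2.1 := by
  obtain ⟨m1, -, m3, m4, -⟩ := hMIR D y
  have := crit_xi hAL hA1 hRA (m1.1 hy) (fun h => hn (m3 h))
  simp only [muM] at this
  rwa [(m4 y.2.1).1] at this

theorem crit_right {D : Dat} {y : Pt} (hy : y ∈ D.Y) (hn : ¬ D.Desc y)
    (hv : |y.2.2.1| < y.2.1 - y.1) :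
    D.DR y.1 y.2.1 y.2.2.1 = 0 ∨ D.DR y.1 y.2.1 y.2.2.1 - D.w y.2.1 = 0 := by
  obtain ⟨m1, -, m3, m4, m5⟩ := hMIR D y
  have := crit_left hAL hA1 hRA (m1.1 hy) (fun h => hn (m3 h))
    (by simp only [muM]; rw [abs_neg]; linarith)
  simp only [muM] at this
  rw [(m5 y.1 y.2.1 y.2.2.1).1, (m4 y.2.1).2.2] at this
  rcases this with h | h
  · left; linarith
  · right; linarith

include hRG

theorem crit_pos {D : Dat} {y : Pt} (hy : y ∈ D.Y) (hn : ¬ D.Desc y) (h0 : 0 < y.2.2.1)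
    (hv : y.2.2.1 < y.2.1 - y.1) : D.Rect y := by
  have habs : |y.2.2.1| < y.2.1 - y.1 := by rwa [abs_of_pos h0]
  have hl := crit_left hAL hA1 hRA hy hn habs
  have hr := crit_right hAL hA1 hRA hMIR hy hn habs
  have hp : D.DP y.1 y.2.1 y.2.2.1 = 0 := by
    by_contra h
    exact hn ((hRG D y hy).2.1 h0 hv h)
  unfold Dat.DL at hl
  unfold Dat.DR at hr
  unfold Dat.DP at hp
  rw [pp_nonneg_eq h0.le, mm_nonneg_eq h0.le, abs_of_pos h0, add_zero] at hl
  rw [pp_nonneg_eq h0.le, mm_nonneg_eq h0.le, abs_of_pos h0, sub_zero] at hr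
  rw [pp_nonneg_eq h0.le, abs_of_pos h0] at hp
  have hw1 : D.w y.1 = D.g y.1 - D.f y.1 := rfl
  have hw2 : D.w y.2.1 = D.g y.2.1 - D.f y.2.1 := rfl
  rw [hw1] at hl
  rw [hw2] at hr
  refine ⟨by linarith, ?_⟩
  rcases hl with hl | hl
  · rcases hr with hr | hr
    · exact ⟨D.f y.1, D.g y.2.1, Or.inl rfl, Or.inr rfl, Or.inl ⟨h0.le, by linarith, by linarith,
        by linarith⟩⟩
    · exact ⟨D.f y.1, D.f y.2.1, Or.inl rfl, Or.inl rfl, Or.inl ⟨h0.le, by linarith, by linarith,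
        by linarith⟩⟩
  · rcases hr with hr | hr
    · exact ⟨D.g y.1, D.g y.2.1, Or.inr rfl, Or.inr rfl, Or.inl ⟨h0.le, by linarith, by linarith,
        by linarith⟩⟩
    · exact ⟨D.g y.1, D.f y.2.1, Or.inr rfl, Or.inl rfl, Or.inl ⟨h0.le, by linarith, by linarith,
        by linarith⟩⟩

theorem crit_zero {D : Dat} {y : Pt} (hy : y ∈ D.Y) (hn : ¬ D.Desc y) (h0 : y.2.2.1 = 0)
    (hv : y.1 < y.2.1) : D.Rect y := by
  have habs : |y.2.2.1| < y.2.1 - y.1 := by rw [h0, abs_zero]; linarith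
  have hl := crit_left hAL hA1 hRA hy hn habs
  have hr := crit_right hAL hA1 hRA hMIR hy hn habs
  have hpq := (hRG D y hy).2.2 h0 hv
  unfold Dat.DL at hl
  unfold Dat.DR at hr
  unfold Dat.DP Dat.DM at hpq
  have hw1 : D.w y.1 = D.g y.1 - D.f y.1 := rfl
  have hw2 : D.w y.2.1 = D.g y.2.1 - D.f y.2.1 := rfl
  have e1 : pp y.2.2.1 = 0 := by rw [h0]; exact pp_nonneg_eq le_rfl
  have e2 : mm y.2.2.1 = 0 := by rw [h0]; exact mm_nonneg_eq le_rfl
  have e3 : |y.2.2.1| = 0 := by rw [h0, abs_zero]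
  rw [e1, e2, e3, add_zero, sub_zero, hw1] at hl
  rw [e1, e2, e3, sub_zero, sub_zero, hw2] at hr
  simp only [e1, e2, e3, add_zero, sub_zero, mul_zero] at hpq
  have hpos : 0 < (y.2.1 - y.1) / D.r := div_pos (by linarith) D.r0
  have hl' : D.f y.1 - D.g y.1 + (y.2.1 - y.1) / D.r = 0 := by
    rcases hl with h | h
    · exact h
    · exfalso; linarith
  have hr' : D.g y.2.1 - D.f y.2.1 - (y.2.1 - y.1) / D.r = 0 := by
    rcases hr with h | h
    · exact h
    · exfalso; linarith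
  have hz : D.f y.2.1 - D.g y.1 + (y.2.1 - y.1) / D.r = 0 := by
    by_contra h
    exact hn (hpq (by linarith) h)
  refine ⟨hv, D.f y.1, D.g y.2.1, Or.inl rfl, Or.inr rfl, Or.inl ⟨h0.ge, ?_, ?_, ?_⟩⟩
  · rw [h0, add_zero, sub_zero]; linarith
  · rw [h0, sub_zero, mul_zero]; linarith
  · rw [h0, sub_zero, mul_zero]; linarith

include hREF

theorem crit_neg {D : Dat} {y : Pt} (hy : y ∈ D.Y) (hn : ¬ D.Desc y) (h0 : y.2.2.1 < 0)
    (hv : -y.2.2.1 < y.2.1 - y.1) : D.Rect y := by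
  obtain ⟨m1, -, m3, m4, m5⟩ := hREF D y
  obtain ⟨-, lam, mu, a1, a2, a3⟩ := crit_pos hAL hA1 hRA hRG hMIR (m1.1 hy) (fun h => hn (m3 h))
    (by simpa [muR] using h0) (by simpa [muR] using hv)
  simp only [muR] at a1 a2 a3
  have ef : ∀ x, D.ref.f x = -D.g x := fun _ => rfl
  have eg : ∀ x, D.ref.g x = -D.f x := fun _ => rfl
  have er : D.ref.r = D.r := rfl
  rw [ef, eg] at a1 a2
  rcases a3 with ⟨b0, b1, b2, b3⟩ | ⟨b0, -⟩
  · rw [eg, er] at b1
    rw [ef, er] at b2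
    rw [er] at b3
    refine ⟨by linarith, -lam, -mu, ?_, ?_, Or.inr ⟨h0.le, ?_, ?_, ?_⟩⟩
    · rcases a1 with h | h
      · right; linarith
      · left; linarith
    · rcases a2 with h | h
      · right; linarith
      · left; linarith
    · rw [← sub_eq_add_neg] at b1
      rw [sub_neg_eq_add] at b1
      linarith
    · rw [sub_neg_eq_add] at b2
      linarith
    · rw [sub_neg_eq_add] at b3
      linarith
  · exfalso; linarith

include hRI

theorem crit_faceL {D : Dat} {y : Pt} (hy : y ∈ D.Y) (hn : ¬ D.Desc y) (h0 : y.1 < y.2.1)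
    (hv : |y.2.2.1| = y.2.1 - y.1) : y.2.2.2.1 = D.al y.1 := by
  have h2 := (hRA D y hy).2.1
  refine le_antisymm (not_lt.1 fun h => hn (h2 h)) (not_lt.1 fun h => hn ?_)
  rcases le_total 0 y.2.2.1 with hp | hp
  · rw [abs_of_nonneg hp] at hv
    exact (hRI D y hy).1 (by linarith) hv (Or.inr h)
  · rw [abs_of_nonpos hp] at hv
    obtain ⟨m1, -, m3, m4, m5⟩ := hREF D y
    refine m3 ((hRI D.ref (muR y) (m1.1 hy)).1 ?_ ?_ (Or.inr ?_))
    · simp only [muR]; linarith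
    · simp only [muR]; linarith
    · simp only [muR]; rw [(m4 _).1]; exact h

theorem crit_faceR {D : Dat} {y : Pt} (hy : y ∈ D.Y) (hn : ¬ D.Desc y) (h0 : y.1 < y.2.1)
    (hv : |y.2.2.1| = y.2.1 - y.1) : y.2.2.2.2 = D.be y.2.1 := by
  obtain ⟨m1, -, m3, m4, -⟩ := hMIR D y
  have := crit_faceL hAL hA1 hRA hRG hRI hMIR hREF (m1.1 hy) (fun h => hn (m3 h))
    (by simp only [muM]; linarith) (by simp only [muM]; rw [abs_neg]; linarith)
  simp only [muM] at this
  rwa [(m4 y.2.1).1] at this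

theorem t_CRIT : S_CRIT := by
  intro D y hy hn
  have hx := crit_xi hAL hA1 hRA hy hn
  have hz := crit_zeta hAL hA1 hRA hMIR hy hn
  refine ⟨hx, hz, ?_⟩
  rcases (show y.1 ≤ y.2.1 from hy.2.1).eq_or_lt with hLR | hLR
  · right; right
    refine ⟨hLR, ?_⟩
    obtain ⟨-, -, -, -, -, -, -, ha, hb, hmo, -, hnn, hz0, -, -, -⟩ := hAL D
    have hL : y.1 ∈ Icc D.a D.b := ⟨hy.1, hy.2.1.trans hy.2.2.1⟩
    have hR : y.2.1 ∈ Icc D.a D.b := ⟨hy.1.trans hy.2.1, hy.2.2.1⟩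
    have hw0 : 0 ≤ D.w y.1 := sub_nonneg.2 (D.fg _ hL)
    rcases hw0.eq_or_lt with hw | hw
    · exact Or.inr (Or.inr hw.symm)
    -- w > 0
    have ha0 : 0 ≤ D.al y.1 := (hnn _ hL).1
    have hb0 : 0 ≤ D.be y.2.1 := (hnn _ hR).2
    by_cases hxi : y.2.2.2.1 = 0
    · by_cases hze : y.2.2.2.2 = 0
      · exact Or.inl ⟨hxi, hze⟩
      · have hze' : y.2.2.2.2 = D.be y.2.1 := hz.resolve_left hze
        rcases ha0.eq_or_lt with h | h
        · exact Or.inr (Or.inl ⟨by rw [hxi, h], hze'⟩)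
        · exfalso
          obtain ⟨m1, -, m3, m4, -⟩ := hMIR D y
          have hbp : 0 < D.be y.2.1 := lt_of_le_of_ne hb0 (fun h => hze (by rw [hze', ← h]))
          refine hn (m3 ((hRI D.mir (muM y) (m1.1 hy)).2 ?_ ?_ ?_ ?_ ?_))
          · simp only [muM]; rw [hLR]
          · simp only [muM]
            show -D.b < -y.2.1
            rcases (show y.2.1 ≤ D.b from hy.2.2.1).eq_or_lt with h8 | h8
            · rw [h8, hb] at hbp
              exact absurd hbp (lt_irrefl _)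
            · linarith
          · simp only [muM]; rw [(m4 _).2.2, ← hLR]; exact hw
          · simp only [muM]; rw [hze']; exact hbp
          · simp only [muM]; rw [(m4 _).2.1, hxi]; exact h
    · have hxi' : y.2.2.2.1 = D.al y.1 := hx.resolve_left hxi
      have hap : 0 < D.al y.1 := lt_of_le_of_ne ha0 (fun h => hxi (by rw [hxi', ← h]))
      by_cases hze : y.2.2.2.2 = D.be y.2.1
      · exact Or.inr (Or.inl ⟨hxi', hze⟩)
      · have hze' : y.2.2.2.2 = 0 := hz.resolve_right hze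
        exfalso
        refine hn ((hRI D y hy).2 hLR ?_ hw ?_ ?_)
        · rcases hy.1.eq_or_lt with h7 | h7
          · rw [← h7, ha] at hap
            exact absurd hap (lt_irrefl _)
          · exact h7
        · rw [hxi']; exact hap
        · rw [hze']
          exact lt_of_le_of_ne hb0 (fun h => hze (by rw [hze', ← h]))
  · have hv : |y.2.2.1| ≤ y.2.1 - y.1 := hy.2.2.2.1
    rcases hv.eq_or_lt with hv | hv
    · right; left
      exact ⟨hLR, hv, crit_faceL hAL hA1 hRA hRG hRI hMIR hREF hy hn hLR hv,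
        crit_faceR hAL hA1 hRA hRG hRI hMIR hREF hy hn hLR hv⟩
    · left
      rcases lt_trichotomy y.2.2.1 0 with h | h | h
      · rw [abs_of_neg h] at hv
        exact crit_neg hAL hA1 hRA hRG hMIR hREF hy hn h hv
      · exact crit_zero hAL hA1 hRA hRG hMIR hy hn h hLR
      · rw [abs_of_pos h] at hv
        exact crit_pos hAL hA1 hRA hRG hMIR hy hn h hv

end

end Pool.Agent.T2h56.TG
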