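import Pool.Agent.T2h56.TG.Stm

/-! DEF (helper1). -/

set_option autoImplicit false

namespace Pool.Agent.T2h56.TG

open Set

theorem t_DEF (hP : S_PUSH) : S_DEF := by
  intro E _ Y h c l0 l1 hh hc hB hdesc
  -- a map that decreases on the whole band
  obtain ⟨Ψ, hΨc, hΨY, hΨd, hΨf, hΨs⟩ : ∃ Φ : E → E, Continuous Φ ∧ MapsTo Φ Y Y ∧
      (∀ z ∈ Y, Φ z = z ∨ h (Φ z) < h z) ∧ (∀ z ∈ Y, h z ≤ c → Φ z = z) ∧
      ∀ z ∈ {y | y ∈ Y ∧ l0 ≤ h y ∧ h y ≤ l1}, z ∈ Y → h (Φ z) < h z := by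
    refine hB.induction_on (p := fun s => ∃ Φ : E → E, Continuous Φ ∧ MapsTo Φ Y Y ∧
      (∀ z ∈ Y, Φ z = z ∨ h (Φ z) < h z) ∧ (∀ z ∈ Y, h z ≤ c → Φ z = z) ∧
      ∀ z ∈ s, z ∈ Y → h (Φ z) < h z) ?_ ?_ ?_ ?_
    · exact ⟨id, continuous_id, fun z hz => hz, fun z _ => Or.inl rfl, fun z _ _ => rfl,
        fun z hz => absurd hz (notMem_empty z)⟩
    · rintro s t hst ⟨Φ, h1, h2, h3, h4, h5⟩
      exact ⟨Φ, h1, h2, h3, h4, fun z hz => h5 z (hst hz)⟩
    · rintro s t ⟨Φ, h1, h2, h3, h4, h5⟩ ⟨Φ', h1', h2', h3', h4', h5'⟩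
      have hle : ∀ z ∈ Y, h (Φ z) ≤ h z := by
        intro z hz
        rcases h3 z hz with h6 | h6
        · rw [h6]
        · exact h6.le
      refine ⟨fun z => Φ (Φ' z), h1.comp h1', fun z hz => h2 (h2' hz), ?_, ?_, ?_⟩
      · intro z hz
        rcases h3' z hz with h6 | h6
        · rcases h3 z hz with h7 | h7
          · left
            show Φ (Φ' z) = z
            rw [h6, h7]
          · right
            show h (Φ (Φ' z)) < h z
            rw [h6]
            exact h7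
        · right
          exact lt_of_le_of_lt (hle _ (h2' hz)) h6
      · intro z hz hzc
        show Φ (Φ' z) = z
        rw [h4' z hz hzc, h4 z hz hzc]
      · intro z hz hzY
        show h (Φ (Φ' z)) < h z
        rcases h3' z hzY with h6 | h6
        · rcases hz with h7 | h7
          · rw [h6]
            exact h5 z h7 hzY
          · exact absurd (h5' z h7 hzY) (by rw [h6]; exact lt_irrefl _)
        · exact lt_of_le_of_lt (hle _ (h2' hzY)) h6
    · intro y hy
      obtain ⟨hyY, hy0, hy1⟩ := hy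
      obtain ⟨Φ, h1, h2, h3, h4, h5⟩ := hP E Y h c y hh hyY (lt_of_lt_of_le hc hy0)
        (hdesc y hyY hy0 hy1)
      refine ⟨{z | h (Φ z) < h z}, ?_, Φ, h1, h2, h3, h4, fun z hz _ => hz⟩
      exact mem_nhdsWithin_of_mem_nhds ((isOpen_lt (hh.comp h1) hh).mem_nhds h5)
  -- the lower bound of the decrease
  obtain ⟨d, hd0, hd⟩ := hB.exists_forall_le' (f := fun z => h z - h (Ψ z)) (a := 0)
    (hh.sub (hh.comp hΨc)).continuousOn (fun z hz => by
      have h1 := hΨs z hz hz.1
      linarith)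
  have hle : ∀ z ∈ Y, h (Ψ z) ≤ h z := by
    intro z hz
    rcases hΨd z hz with h6 | h6
    · rw [h6]
    · exact h6.le
  obtain ⟨N, hN⟩ := exists_nat_gt ((l1 - l0) / d)
  have hN' : l1 - l0 < N * d := (div_lt_iff₀ hd0).1 hN
  have hYn : ∀ n : ℕ, ∀ z ∈ Y, Ψ^[n] z ∈ Y := fun n z hz => hΨY.iterate n hz
  refine ⟨Ψ^[N], hΨc.iterate N, hYn N, ?_, ?_⟩
  · intro z hz hzc
    exact Function.iterate_fixed (hΨf z hz hzc) N
  · intro z hz hz1
    have key : ∀ n : ℕ, h (Ψ^[n] z) < l0 ∨ h (Ψ^[n] z) ≤ l1 - n * d := by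
      intro n
      induction n with
      | zero =>
        right
        simpa using hz1
      | succ n ih =>
        rw [Function.iterate_succ_apply']
        have h1 := hle _ (hYn n z hz)
        by_cases h2 : h (Ψ^[n] z) < l0
        · left
          linarith
        · rcases ih with h3 | h3
          · exact absurd h3 h2
          · right
            have h4 : (0 : ℝ) ≤ n * d := mul_nonneg (Nat.cast_nonneg n) hd0.le
            have h5 := hd (Ψ^[n] z) ⟨hYn n z hz, not_lt.1 h2, by linarith⟩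
            push_cast
            have h6 : d ≤ h (Ψ^[n] z) - h (Ψ (Ψ^[n] z)) := h5
            linarith
    rcases key N with h1 | h1
    · exact h1
    · linarith

end Pool.Agent.T2h56.TG
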