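import Pool.Agent.T2h56.TG.Stm

/-! The two-dimensional chain. -/

set_option autoImplicit false

namespace Pool.Agent.T2h56.TG

open Set

namespace DISCx

theorem Psi_face (D : Dat) (L R s : ℝ) (hLR : L ≤ R) (hs : s = 1 ∨ s = -1) :
    D.Psi L R (s * (R - L)) = D.r * (R - L) ^ 2 / 2 := by
  unfold Dat.Psi pp mm
  rcases hs with rfl | rfl
  · have e1 : max (1 * (R - L)) 0 = R - L := by rw [one_mul]; exact max_eq_left (by linarith)
    have e2 : max (-(1 * (R - L))) 0 = 0 := max_eq_right (by linarith)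
    have e3 : |1 * (R - L)| = R - L := by rw [one_mul]; exact abs_of_nonneg (by linarith)
    rw [e1, e2, e3]
    have : L + (R - L) = R := by ring
    rw [this]
    have : R - (R - L) = L := by ring
    rw [this]
    simp
    ring
  · have e1 : max (-1 * (R - L)) 0 = 0 := max_eq_right (by linarith)
    have e2 : max (-(-1 * (R - L))) 0 = R - L := by
      rw [max_eq_left (by linarith)]; ring
    have e3 : |-1 * (R - L)| = R - L := by
      rw [neg_one_mul, abs_neg]; exact abs_of_nonneg (by linarith)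
    rw [e1, e2, e3]
    have : L + (R - L) = R := by ring
    rw [this]
    have : R - (R - L) = L := by ring
    rw [this]
    simp
    ring

theorem sg_le (x α : ℝ) : sg x α ≤ α := by
  unfold sg; linarith [abs_nonneg (x - α)]

theorem sg_zero (α : ℝ) (h : 0 ≤ α) : sg 0 α = 0 := by
  unfold sg; rw [zero_sub, abs_neg, abs_of_nonneg h]; ring

theorem sg_big (x α : ℝ) (h : α ≤ x) : sg x α = 2 * α - x := by
  unfold sg; rw [abs_of_nonneg (by linarith)]; ring

theorem sg_eq (x α : ℝ) (h : sg x α = α) : x = α := by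
  unfold sg at h
  have : |x - α| = 0 := by linarith
  linarith [abs_eq_zero.1 this]

/-- the middle value -/
noncomputable def mf (K c0 Ls Rs p t : ℝ) : ℝ :=
  min (max c0 (max p Ls - K * (Rs - min t Rs))) (min t Rs + K * (max p Ls - Ls))

noncomputable def Lf (K c0 Ls Rs p t : ℝ) : ℝ :=
  min (max p Ls) (max (min t Rs) (mf K c0 Ls Rs p t))

noncomputable def Rf (K c0 Ls Rs p t : ℝ) : ℝ :=
  max (min t Rs) (min (max p Ls) (mf K c0 Ls Rs p t))

noncomputable def Pf (K c0 Ls Rs s : ℝ) (z : ℝ × ℝ) : Pt :=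
  (Lf K c0 Ls Rs z.1 z.2, Rf K c0 Ls Rs z.1 z.2,
    s * (Rf K c0 Ls Rs z.1 z.2 - Lf K c0 Ls Rs z.1 z.2), max z.1 Ls - z.1, z.2 - min z.2 Rs)

theorem Pf_cont (K c0 Ls Rs s : ℝ) : Continuous (Pf K c0 Ls Rs s) := by
  unfold Pf Lf Rf mf
  fun_prop

theorem LR_le (K c0 Ls Rs p t : ℝ) (h : max p Ls ≤ min t Rs) :
    Lf K c0 Ls Rs p t = max p Ls ∧ Rf K c0 Ls Rs p t = min t Rs := by
  constructor
  · unfold Lf; exact min_eq_left (le_trans h (le_max_left _ _))
  · unfold Rf; exact max_eq_left (le_trans (min_le_left _ _) h)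

theorem LR_gt (K c0 Ls Rs p t : ℝ) (h : min t Rs ≤ max p Ls) :
    Lf K c0 Ls Rs p t = Rf K c0 Ls Rs p t := by
  unfold Lf Rf
  rcases le_total (mf K c0 Ls Rs p t) (min t Rs) with h1 | h1
  · rw [max_eq_left h1, min_eq_right h, max_eq_left (le_trans (min_le_right _ _) h1)]
  · rw [max_eq_right h1]
    rw [max_eq_right (le_min h h1)]

end DISCx

open DISCx

theorem t_DISC (hAL : S_AL) : S_DISC := by
  intro D Ls Rs L0 R0 s h1 h2 h3 h4 h5 h5b h6 h7 h8 h9 hs
  obtain ⟨-, -, -, -, -, -, -, ha0, hb0, hm, han, hnn, -, -, -, -⟩ := hAL D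
  have hab := D.ab
  have hr := D.r0
  set c0 : ℝ := (L0 + R0) / 2 with hc0
  set K : ℝ := max 1 (max ((D.b - D.a) / (D.b - Ls)) ((D.b - D.a) / (Rs - D.a))) with hK
  have hK1 : 1 ≤ K := le_max_left _ _
  have hKb : D.b - D.a ≤ K * (D.b - Ls) := by
    have : (D.b - D.a) / (D.b - Ls) ≤ K := le_trans (le_max_left _ _) (le_max_right _ _)
    rwa [div_le_iff₀ (by linarith)] at this
  have hKa : D.b - D.a ≤ K * (Rs - D.a) := by
    have : (D.b - D.a) / (Rs - D.a) ≤ K := le_trans (le_max_right _ _) (le_max_right _ _)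
    rwa [div_le_iff₀ (by linarith)] at this
  have haI : D.a ∈ Icc D.a D.b := ⟨le_refl _, hab.le⟩
  have hbI : D.b ∈ Icc D.a D.b := ⟨hab.le, le_refl _⟩
  have hLsI : Ls ∈ Icc D.a D.b := ⟨h1.le, by linarith⟩
  have hRsI : Rs ∈ Icc D.a D.b := ⟨by linarith, h3.le⟩
  have hbe : ∀ x, D.be x = D.ar - D.al x := fun x => rfl
  have har : 0 ≤ D.ar := (hnn D.b hbI).1
  have hal_le : ∀ x ∈ Icc D.a D.b, D.al x ≤ D.ar := fun x hx => by
    have := (hnn x hx).2; rw [hbe] at this; linarith
  have hbe_le : ∀ x ∈ Icc D.a D.b, D.be x ≤ D.ar := fun x hx => by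
    have := (hnn x hx).1; rw [hbe]; linarith
  set M : ℝ := 1 + D.r * (D.b - D.a) ^ 2 + 3 * D.ar with hM
  have hsq : 0 ≤ D.r * (D.b - D.a) ^ 2 := by positivity
  have hM0 : 0 < M := by rw [hM]; linarith
  -- formula for H
  have hPL : ∀ z, (Pf K c0 Ls Rs s z).1 = Lf K c0 Ls Rs z.1 z.2 := fun z => rfl
  have hPR : ∀ z, (Pf K c0 Ls Rs s z).2.1 = Rf K c0 Ls Rs z.1 z.2 := fun z => rfl
  have hLR : ∀ p t, Lf K c0 Ls Rs p t ≤ Rf K c0 Ls Rs p t := by
    intro p t
    rcases le_total (max p Ls) (min t Rs) with h | h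
    · obtain ⟨e1, e2⟩ := LR_le K c0 Ls Rs p t h
      rw [e1, e2]; exact h
    · exact (LR_gt K c0 Ls Rs p t h).le
  have hH : ∀ p t, D.H (Pf K c0 Ls Rs s (p, t)) =
      D.r * (Rf K c0 Ls Rs p t - Lf K c0 Ls Rs p t) ^ 2 / 2 +
      sg (max p Ls - p) (D.al (Lf K c0 Ls Rs p t)) +
      sg (t - min t Rs) (D.be (Rf K c0 Ls Rs p t)) := by
    intro p t
    show D.Psi (Lf K c0 Ls Rs p t) (Rf K c0 Ls Rs p t)
      (s * (Rf K c0 Ls Rs p t - Lf K c0 Ls Rs p t)) + _ + _ = _
    rw [Psi_face D _ _ s (hLR p t) hs]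
    rfl
  have hLI : ∀ p ∈ Icc (Ls - M) D.b, ∀ t ∈ Icc D.a (Rs + M),
      D.a ≤ Lf K c0 Ls Rs p t ∧ Rf K c0 Ls Rs p t ≤ D.b := by
    intro p hp t ht
    constructor
    · unfold Lf
      refine le_min (le_trans h1.le (le_max_right _ _)) (le_trans ?_ (le_max_left _ _))
      exact le_min ht.1 (by linarith)
    · unfold Rf
      refine max_le (le_trans (min_le_right _ _) h3.le) (le_trans (min_le_left _ _) ?_)
      exact max_le hp.2 (by linarith)
  have hLI' : ∀ p ∈ Icc (Ls - M) D.b, ∀ t ∈ Icc D.a (Rs + M),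
      Lf K c0 Ls Rs p t ∈ Icc D.a D.b ∧ Rf K c0 Ls Rs p t ∈ Icc D.a D.b := by
    intro p hp t ht
    obtain ⟨e1, e2⟩ := hLI p hp t ht
    have e3 := hLR p t
    exact ⟨⟨e1, by linarith⟩, ⟨by linarith, e2⟩⟩
  -- the case when the two ends are crossed
  have hcA : ∀ p t, D.a ≤ t → p < Ls → min t Rs < max p Ls →
      Lf K c0 Ls Rs p t = t ∧ Rf K c0 Ls Rs p t = t ∧ t < Ls ∧ min t Rs = t := by
    intro p t hta hp h
    have e1 : max p Ls = Ls := max_eq_right hp.le
    have e2 : min t Rs = t := by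
      rcases le_total t Rs with h' | h'
      · exact min_eq_left h'
      · rw [min_eq_right h', e1] at h; linarith
    rw [e1, e2] at h
    have em : mf K c0 Ls Rs p t ≤ t := by
      unfold mf
      refine le_trans (min_le_right _ _) ?_
      rw [e1, e2]; simp
    refine ⟨?_, ?_, h, e2⟩
    · unfold Lf; rw [e1, e2, max_eq_left em, min_eq_right h.le]
    · unfold Rf; rw [e1, e2, max_eq_left (le_trans (min_le_right _ _) em)]
  have hcB : ∀ p t, Rs < t → min t Rs < max p Ls →
      Lf K c0 Ls Rs p t = p ∧ Rf K c0 Ls Rs p t = p ∧ Rs < p ∧ max p Ls = p := by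
    intro p t ht h
    have e1 : min t Rs = Rs := min_eq_right ht.le
    have e2 : max p Ls = p := by
      rcases le_total Ls p with h' | h'
      · exact max_eq_left h'
      · rw [max_eq_right h', e1] at h; linarith
    rw [e1, e2] at h
    have em : p ≤ mf K c0 Ls Rs p t := by
      unfold mf
      rw [e1, e2]
      refine le_min ?_ ?_
      · simp
      · nlinarith
    refine ⟨?_, ?_, h, e2⟩
    · unfold Lf; rw [e1, e2, max_eq_right (by linarith), min_eq_left em]
    · unfold Rf; rw [e1, e2, min_eq_left em, max_eq_right h.le]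
  refine ⟨M, Pf K c0 Ls Rs s, hM0, Pf_cont _ _ _ _ _, ?_, ?_, ?_, ?_, ?_⟩
  · -- in Y, upper bound, equality
    intro p hp t ht
    obtain ⟨hL, hR⟩ := hLI' p hp t ht
    have hlr := hLR p t
    have hξ : 0 ≤ max p Ls - p := by linarith [le_max_left p Ls]
    have hζ : 0 ≤ t - min t Rs := by linarith [min_le_left t Rs]
    refine ⟨?_, ?_⟩
    · refine ⟨hL.1, hlr, hR.2, ?_, hξ, hζ⟩
      show |s * (Rf K c0 Ls Rs p t - Lf K c0 Ls Rs p t)| ≤ _
      rw [abs_mul]
      have : |s| = 1 := by rcases hs with rfl | rfl <;> simp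
      rw [this, one_mul, abs_of_nonneg (by linarith)]
      exact le_refl _
    · rw [hH]
      unfold Dat.q
      rcases le_or_gt (max p Ls) (min t Rs) with h | h
      · obtain ⟨e1, e2⟩ := LR_le K c0 Ls Rs p t h
        have hLs : Ls ≤ max p Ls := le_max_right _ _
        have hRs : min t Rs ≤ Rs := min_le_right _ _
        have b1 : sg (max p Ls - p) (D.al (Lf K c0 Ls Rs p t)) ≤ D.al Ls := by
          rw [e1]
          rcases le_total p Ls with h' | h'
          · rw [max_eq_right h']; exact sg_le _ _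
          · rw [max_eq_left h', sub_self, sg_zero _ ?_]
            · exact h6.le
            · rw [e1, max_eq_left h'] at hL
              exact (hnn p hL).1
        have b2 : sg (t - min t Rs) (D.be (Rf K c0 Ls Rs p t)) ≤ D.be Rs := by
          rw [e2]
          rcases le_total Rs t with h' | h'
          · rw [min_eq_right h']; exact sg_le _ _
          · rw [min_eq_left h', sub_self, sg_zero _ ?_]
            · exact h7.le
            · rw [e2, min_eq_left h'] at hR
              exact (hnn t hR).2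
        have b3 : D.r * (Rf K c0 Ls Rs p t - Lf K c0 Ls Rs p t) ^ 2 / 2 ≤
            D.r * (Rs - Ls) ^ 2 / 2 := by
          have : (Rf K c0 Ls Rs p t - Lf K c0 Ls Rs p t) ^ 2 ≤ (Rs - Ls) ^ 2 := by
            apply pow_le_pow_left₀ (by linarith)
            rw [e1, e2]; linarith
          have := mul_le_mul_of_nonneg_left this hr.le
          linarith
        refine ⟨by linarith, ?_⟩
        intro heq
        have c3 : D.r * (Rf K c0 Ls Rs p t - Lf K c0 Ls Rs p t) ^ 2 / 2 =
            D.r * (Rs - Ls) ^ 2 / 2 := by linarith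
        have c1 : sg (max p Ls - p) (D.al (Lf K c0 Ls Rs p t)) = D.al Ls := by linarith
        have c2 : sg (t - min t Rs) (D.be (Rf K c0 Ls Rs p t)) = D.be Rs := by linarith
        have c4 : (Rf K c0 Ls Rs p t - Lf K c0 Ls Rs p t) ^ 2 = (Rs - Ls) ^ 2 := by
          have : D.r * (Rf K c0 Ls Rs p t - Lf K c0 Ls Rs p t) ^ 2 = D.r * (Rs - Ls) ^ 2 := by
            linarith
          exact mul_left_cancel₀ hr.ne' this
        have c5 : Rf K c0 Ls Rs p t - Lf K c0 Ls Rs p t = Rs - Ls := by
          rwa [pow_left_inj₀ (by linarith) (by linarith) two_ne_zero] at c4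
        have dL : Lf K c0 Ls Rs p t = Ls := by
          rw [e1, e2] at c5; rw [e1]; linarith
        have dR : Rf K c0 Ls Rs p t = Rs := by
          rw [e1, e2] at c5; rw [e2]; linarith
        rw [dL] at c1
        rw [dR] at c2
        have d1 := sg_eq _ _ c1
        have d2 := sg_eq _ _ c2
        show (Lf K c0 Ls Rs p t, Rf K c0 Ls Rs p t,
          s * (Rf K c0 Ls Rs p t - Lf K c0 Ls Rs p t), max p Ls - p, t - min t Rs) = _
        rw [dL, dR, d1, d2]
      · have hxx := LR_gt K c0 Ls Rs p t h.le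
        have hpos : 0 < D.r * (Rs - Ls) ^ 2 / 2 := by
          have : 0 < Rs - Ls := by linarith
          positivity
        have hlt : D.r * (Rf K c0 Ls Rs p t - Lf K c0 Ls Rs p t) ^ 2 / 2 +
            sg (max p Ls - p) (D.al (Lf K c0 Ls Rs p t)) +
            sg (t - min t Rs) (D.be (Rf K c0 Ls Rs p t)) <
            D.al Ls + D.be Rs + D.r * (Rs - Ls) ^ 2 / 2 := by
          rw [hxx, sub_self]
          rcases lt_or_ge p Ls with hp' | hp'
          · obtain ⟨f1, f2, f3, f4⟩ := hcA p t ht.1 hp' h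
            rw [f2, f4, sub_self]
            have htI : t ∈ Icc D.a D.b := ⟨ht.1, by linarith⟩
            rw [sg_zero _ (hnn t htI).2]
            have g1 := sg_le (max p Ls - p) (D.al t)
            have g2 := hm htI hLsI f3.le
            linarith [h7]
          · rw [max_eq_left hp'] at *
            rcases lt_or_ge Rs t with ht' | ht'
            · obtain ⟨f1, f2, f3, f4⟩ := hcB p t ht' (by rw [max_eq_left hp']; exact h)
              rw [f2, sub_self]
              have hpI : p ∈ Icc D.a D.b := ⟨by linarith, hp.2⟩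
              rw [sg_zero _ (hnn p hpI).1]
              have g1 := sg_le (t - min t Rs) (D.be p)
              have g2 := han hRsI hpI f3.le
              linarith [h6]
            · rw [min_eq_left ht', sub_self, sub_self]
              rw [sg_zero _ (hnn _ hR).1, sg_zero _ (hnn _ hR).2]
              linarith
        exact ⟨hlt.le, fun he => absurd he hlt.ne⟩
  · -- p = Ls - M
    intro t ht
    have hp : Ls - M ∈ Icc (Ls - M) D.b := ⟨le_refl _, by linarith⟩
    obtain ⟨hL, hR⟩ := hLI' _ hp t ht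
    have hlr := hLR (Ls - M) t
    have e1 : max (Ls - M) Ls = Ls := max_eq_right (by linarith)
    have hsq2 : (Rf K c0 Ls Rs (Ls - M) t - Lf K c0 Ls Rs (Ls - M) t) ^ 2 ≤ (D.b - D.a) ^ 2 :=
      pow_le_pow_left₀ (by linarith) (by linarith [hL.1, hR.2]) 2
    have hsq3 := mul_le_mul_of_nonneg_left hsq2 hr.le
    have g0 := hal_le _ hL
    refine ⟨?_, ?_⟩
    · rw [hH, e1]
      have e2 : Ls - (Ls - M) = M := by ring
      rw [e2, sg_big M _ (by rw [hM]; linarith)]
      have g1 := sg_le (t - min t Rs) (D.be (Rf K c0 Ls Rs (Ls - M) t))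
      have g2 := hbe_le _ hR
      rw [hM]
      linarith
    · refine lt_of_le_of_lt (min_le_right _ _) ?_
      show D.al (Lf K c0 Ls Rs (Ls - M) t) - (max (Ls - M) Ls - (Ls - M)) < 0
      rw [e1, hM]
      linarith
  · -- p = b
    intro t ht
    have hp : D.b ∈ Icc (Ls - M) D.b := ⟨by linarith, le_refl _⟩
    obtain ⟨hL, hR⟩ := hLI' _ hp t ht
    have e1 : max D.b Ls = D.b := max_eq_left (by linarith)
    have hcr : min t Rs < max D.b Ls := by
      rw [e1]; exact lt_of_le_of_lt (min_le_right _ _) h3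
    have hxx := LR_gt K c0 Ls Rs D.b t hcr.le
    refine ⟨?_, ?_⟩
    · rw [hH, hxx, sub_self, e1, sub_self, sg_zero _ (hnn _ hR).1]
      rcases lt_or_ge Rs t with ht' | ht'
      · obtain ⟨f1, f2, f3, f4⟩ := hcB D.b t ht' hcr
        rw [f2, hb0]
        have : 0 ≤ t - min t Rs := by linarith [min_le_left t Rs]
        rw [sg_big _ _ this]
        linarith
      · rw [min_eq_left ht', sub_self, sg_zero _ (hnn _ hR).2]
        simp
    · have hc : c0 ≤ Lf K c0 Ls Rs D.b t := by
        unfold Lf mf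
        rw [e1]
        have hcb : c0 ≤ D.b := by rw [hc0]; linarith
        refine le_min hcb (le_trans ?_ (le_max_right _ _))
        refine le_min (le_max_left _ _) ?_
        have : D.a ≤ min t Rs := le_min ht.1 (by linarith)
        linarith
      have hL0 : L0 < Lf K c0 Ls Rs D.b t := by
        refine lt_of_lt_of_le ?_ hc
        rw [hc0]; linarith
      refine lt_min ?_ ?_
      · show 0 < Lf K c0 Ls Rs D.b t - L0
        linarith
      · show 0 < D.al (Lf K c0 Ls Rs D.b t) - (max D.b Ls - D.b)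
        rw [e1, sub_self, sub_zero]
        exact h8 _ hL0 hL.2
  · -- t = a
    intro p hp
    have ht : D.a ∈ Icc D.a (Rs + M) := ⟨le_refl _, by linarith⟩
    obtain ⟨hL, hR⟩ := hLI' p hp _ ht
    have e1 : min D.a Rs = D.a := min_eq_left (by linarith)
    have hcr : min D.a Rs < max p Ls := by
      rw [e1]; exact lt_of_lt_of_le h1 (le_max_right _ _)
    have hxx := LR_gt K c0 Ls Rs p D.a hcr.le
    refine ⟨?_, ?_⟩
    · rw [hH, hxx, sub_self, e1, sub_self, sg_zero _ (hnn _ hR).2]
      rcases lt_or_ge p Ls with hp' | hp'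
      · obtain ⟨f1, f2, f3, f4⟩ := hcA p D.a (le_refl _) hp' hcr
        rw [f2, ha0]
        have : 0 ≤ max p Ls - p := by linarith [le_max_left p Ls]
        rw [sg_big _ _ this]
        linarith
      · rw [max_eq_left hp', sub_self, sg_zero _ (hnn _ hR).1]
        simp
    · have hc : Rf K c0 Ls Rs p D.a ≤ c0 := by
        unfold Rf mf
        rw [e1]
        have hca : D.a ≤ c0 := by rw [hc0]; linarith
        refine max_le hca (le_trans (min_le_right _ _) ?_)
        refine le_trans (min_le_left _ _) (max_le (le_refl _) ?_)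
        have : max p Ls ≤ D.b := max_le hp.2 (by linarith)
        linarith
      have hR0 : Rf K c0 Ls Rs p D.a < R0 := by
        refine lt_of_le_of_lt hc ?_
        rw [hc0]; linarith
      refine lt_min ?_ ?_
      · show 0 < R0 - Rf K c0 Ls Rs p D.a
        linarith
      · show 0 < D.be (Rf K c0 Ls Rs p D.a) - (D.a - min D.a Rs)
        rw [e1, sub_self, sub_zero]
        exact h9 _ hR0 hR.1
  · -- t = Rs + M
    intro p hp
    have ht : Rs + M ∈ Icc D.a (Rs + M) := ⟨by linarith, le_refl _⟩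
    obtain ⟨hL, hR⟩ := hLI' p hp _ ht
    have hlr := hLR p (Rs + M)
    have e1 : min (Rs + M) Rs = Rs := min_eq_right (by linarith)
    have hsq2 : (Rf K c0 Ls Rs p (Rs + M) - Lf K c0 Ls Rs p (Rs + M)) ^ 2 ≤ (D.b - D.a) ^ 2 :=
      pow_le_pow_left₀ (by linarith) (by linarith [hL.1, hR.2]) 2
    have hsq3 := mul_le_mul_of_nonneg_left hsq2 hr.le
    have g0 := hbe_le _ hR
    refine ⟨?_, ?_⟩
    · rw [hH, e1]
      have e2 : Rs + M - Rs = M := by ring
      rw [e2, sg_big M _ (by rw [hM]; linarith)]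
      have g1 := sg_le (max p Ls - p) (D.al (Lf K c0 Ls Rs p (Rs + M)))
      have g2 := hal_le _ hL
      rw [hM]
      linarith
    · refine lt_of_le_of_lt (min_le_right _ _) ?_
      show D.be (Rf K c0 Ls Rs p (Rs + M)) - (Rs + M - min (Rs + M) Rs) < 0
      rw [e1, hM]
      linarith

end Pool.Agent.T2h56.TG
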