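import Pool.Agent.T2h56.TG.Stm

/-! The general move. -/

set_option autoImplicit false

namespace Pool.Agent.T2h56.TG

open Set Filter Topology

theorem desc_of_eventually {D : Dat} {y : Pt} (Γ : ℝ → Pt → Pt)
    (hc : Continuous (fun x : ℝ × Pt => Γ x.1 x.2)) (h0 : ∀ z, Γ 0 z = z)
    (h : ∀ᶠ x : ℝ × Pt in 𝓝 ((0:ℝ), y), x.2 ∈ D.Y → 0 < x.1 →
      Γ x.1 x.2 ∈ D.Y ∧ D.H (Γ x.1 x.2) < D.H x.2) : D.Desc y := by
  obtain ⟨ε, hε, he⟩ := Metric.eventually_nhds_iff.1 h
  refine ⟨ε, hε, Γ, hc, h0, fun z hz hd τ hτ => ?_⟩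
  have := @he (τ, z) (by
    rw [Prod.dist_eq]
    refine max_lt ?_ hd
    show dist τ 0 < ε
    rw [Real.dist_eq, sub_zero, abs_of_pos hτ.1]
    exact hτ.2)
  exact this hz hτ.1

theorem sg_shift (ξ α d : ℝ) : sg (ξ + d) (α + d) = sg ξ α + d := by
  unfold sg
  rw [show ξ + d - (α + d) = ξ - α by ring]
  ring

theorem sg_of_le {ξ α : ℝ} (h : ξ ≤ α) : sg ξ α = ξ := by
  unfold sg
  rw [abs_of_nonpos (by linarith)]
  ring

theorem sg_of_ge {ξ α : ℝ} (h : α ≤ ξ) : sg ξ α = 2 * α - ξ := by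
  unfold sg
  rw [abs_of_nonneg (by linarith)]
  ring

theorem t_GM (hSD : S_SD) (hAL : S_AL) : S_GM := by
  intro D y lam mu nu e1 e2 hy hξ hζ hν rate hmem
  obtain ⟨hal, cal, cbe, -, -, -, -, -⟩ := hAL D
  obtain ⟨ε0, hε0, hmem⟩ := hmem
  obtain ⟨k, hk⟩ : ∃ k, k = -(D.DL y.1 y.2.1 y.2.2.1 * lam + D.DR y.1 y.2.1 y.2.2.1 * mu +
    (if 0 < y.2.2.1 then D.DP y.1 y.2.1 y.2.2.1 else -D.DM y.1 y.2.1 y.2.2.1) * nu +
    (if e1 then D.w y.1 * lam else 0) - (if e2 then D.w y.2.1 * mu else 0)) := ⟨_, rfl⟩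
  have hk0 : 0 < k := by rw [hk]; linarith
  obtain ⟨C, hC⟩ : ∃ C, C = 2 * |lam| + 2 * |mu| + |nu| + 1 := ⟨_, rfl⟩
  have hC0 : 0 < C := by rw [hC]; positivity
  obtain ⟨ε, hε⟩ : ∃ ε, ε = k / (2 * C) := ⟨_, rfl⟩
  have hε1 : 0 < ε := by rw [hε]; positivity
  have hεC : ε * C = k / 2 := by rw [hε]; field_simp
  obtain ⟨δ1, hδ1, hsd⟩ := hSD D y.1 y.2.1 y.2.2.1 ε hε1
  obtain ⟨δ2, hδ2, ha1⟩ := hal y.1 ε hε1
  obtain ⟨δ3, hδ3, ha2⟩ := hal y.2.1 ε hε1
  have cmv : Continuous (fun x : ℝ × Pt => mv D lam mu nu e1 e2 x.1 x.2) := by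
    unfold mv
    have c1 : Continuous fun x : ℝ × Pt => D.al (x.2.1 + lam * x.1) := cal.comp (by fun_prop)
    have c2 : Continuous fun x : ℝ × Pt => D.al x.2.1 := cal.comp (by fun_prop)
    have c3 : Continuous fun x : ℝ × Pt => D.be (x.2.2.1 + mu * x.1) := cbe.comp (by fun_prop)
    have c4 : Continuous fun x : ℝ × Pt => D.be x.2.2.1 := cbe.comp (by fun_prop)
    cases e1 <;> cases e2 <;> simp only [if_true, Bool.false_eq_true, if_false] <;> fun_prop
  refine desc_of_eventually _ cmv (fun z => by simp [mv]) ?_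
  -- the eventual conditions
  have near (φ : ℝ × Pt → ℝ) (hφ : Continuous φ) (x0 δ : ℝ) (hδ : 0 < δ) (h0 : φ (0, y) = x0) :
      ∀ᶠ x in 𝓝 ((0:ℝ), y), |φ x - x0| < δ := by
    have := hφ.tendsto (0, y)
    rw [h0] at this
    have h2 := Metric.tendsto_nhds.1 this δ hδ
    filter_upwards [h2] with x hx
    rwa [Real.dist_eq] at hx
  have pos (φ : ℝ × Pt → ℝ) (hφ : Continuous φ) (h0 : 0 < φ (0, y)) :
      ∀ᶠ x in 𝓝 ((0:ℝ), y), 0 < φ x := (hφ.tendsto (0, y)).eventually (lt_mem_nhds h0)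
  have n1 := near (fun x => x.2.1) (by fun_prop) y.1 (min δ1 (min δ2 δ3)) (by positivity) rfl
  have n2 := near (fun x => x.2.1 + lam * x.1) (by fun_prop) y.1 (min δ1 (min δ2 δ3))
    (by positivity) (by simp)
  have n3 := near (fun x => x.2.2.1) (by fun_prop) y.2.1 (min δ1 (min δ2 δ3)) (by positivity) rfl
  have n4 := near (fun x => x.2.2.1 + mu * x.1) (by fun_prop) y.2.1 (min δ1 (min δ2 δ3))
    (by positivity) (by simp)
  have n5 := near (fun x => x.2.2.2.1) (by fun_prop) y.2.2.1 δ1 hδ1 rfl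
  have n6 := near (fun x => x.2.2.2.1 + nu * x.1) (by fun_prop) y.2.2.1 δ1 hδ1 (by simp)
  have n7 := near (fun x => x.1) (by fun_prop) 0 ε0 hε0 rfl
  have n8 := Metric.tendsto_nhds.1
    ((show Continuous fun x : ℝ × Pt => x.2 by fun_prop).tendsto ((0:ℝ), y)) ε0 hε0
  -- the sign of `v`
  have sv : ∀ᶠ x : ℝ × Pt in 𝓝 ((0:ℝ), y), D.DP y.1 y.2.1 y.2.2.1 *
        (pp (x.2.2.2.1 + nu * x.1) - pp x.2.2.2.1) + D.DM y.1 y.2.1 y.2.2.1 *
        (mm (x.2.2.2.1 + nu * x.1) - mm x.2.2.2.1) =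
      (if 0 < y.2.2.1 then D.DP y.1 y.2.1 y.2.2.1 else -D.DM y.1 y.2.1 y.2.2.1) * nu * x.1 := by
    rcases hν with h | h | h | h
    · refine Eventually.of_forall fun x => ?_
      simp [h]
    · filter_upwards [pos (fun x => x.2.2.2.1) (by fun_prop) h,
        pos (fun x => x.2.2.2.1 + nu * x.1) (by fun_prop) (by simpa using h)] with x h1 h2
      have h1' : 0 < x.2.2.2.1 := h1
      have h2' : 0 < x.2.2.2.1 + nu * x.1 := h2
      rw [if_pos h, pp, pp, mm, mm, max_eq_left h1'.le, max_eq_left h2'.le,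
        max_eq_right (by linarith), max_eq_right (by linarith)]
      ring
    · filter_upwards [pos (fun x => -x.2.2.2.1) (by fun_prop) (by simpa using h),
        pos (fun x => -(x.2.2.2.1 + nu * x.1)) (by fun_prop) (by simpa using h)] with x h1 h2
      have h1' : 0 < -x.2.2.2.1 := h1
      have h2' : 0 < -(x.2.2.2.1 + nu * x.1) := h2
      rw [if_neg (not_lt.2 h.le), pp, pp, mm, mm, max_eq_right (by linarith),
        max_eq_right (by linarith), max_eq_left h1'.le, max_eq_left h2'.le]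
      ring
    · refine Eventually.of_forall fun x => ?_
      have e1 : ∀ t : ℝ, pp t - mm t = t := fun t => by
        unfold pp mm
        rcases le_total t 0 with h | h
        · rw [max_eq_right h, max_eq_left (by linarith)]; ring
        · rw [max_eq_left h, max_eq_right (by linarith)]; ring
      have e2 : (if 0 < y.2.2.1 then D.DP y.1 y.2.1 y.2.2.1 else -D.DM y.1 y.2.1 y.2.2.1) =
          D.DP y.1 y.2.1 y.2.2.1 := by split_ifs <;> [rfl; exact h.symm]
      rw [e2]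
      have e3 : D.DM y.1 y.2.1 y.2.2.1 = -D.DP y.1 y.2.1 y.2.2.1 := by rw [h]; ring
      rw [e3]
      have e4 := e1 (x.2.2.2.1 + nu * x.1)
      have e5 := e1 x.2.2.2.1
      linear_combination (D.DP y.1 y.2.1 y.2.2.1) * (e4 - e5)
  -- the fibres
  have fξ : ∀ᶠ x : ℝ × Pt in 𝓝 ((0:ℝ), y), 0 < x.1 →
      sg (x.2.2.2.2.1 + (if e1 then D.al (x.2.1 + lam * x.1) - D.al x.2.1 else 0))
        (D.al (x.2.1 + lam * x.1)) - sg x.2.2.2.2.1 (D.al x.2.1) ≤
      (if e1 then D.w y.1 * lam else 0) * x.1 + ε * |lam| * x.1 := by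
    cases e1 with
    | true =>
      filter_upwards [n1, n2] with x h1 h2 hx
      simp only [if_true]
      have e : D.al (x.2.1 + lam * x.1) = D.al x.2.1 + (D.al (x.2.1 + lam * x.1) - D.al x.2.1) := by
        ring
      have := ha1 x.2.1 (x.2.1 + lam * x.1) (h1.trans_le ((min_le_right _ _).trans (min_le_left _ _)))
        (h2.trans_le ((min_le_right _ _).trans (min_le_left _ _)))
      rw [add_sub_cancel_left, abs_mul, abs_of_pos hx] at this
      have h3 := (abs_le.1 this).2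
      rw [e, add_sub_cancel_left, sg_shift]
      linarith
    | false =>
      simp only [Bool.false_eq_true, if_false, add_zero, zero_mul, zero_add]
      rcases hξ rfl with h | h
      · refine Eventually.of_forall fun x hx => ?_
        rw [h]
        simp
      · filter_upwards [pos (fun x => D.al x.2.1 - x.2.2.2.2.1) (by
            have : Continuous fun x : ℝ × Pt => D.al x.2.1 := cal.comp (by fun_prop)
            fun_prop) (by simpa using h),
          pos (fun x => D.al (x.2.1 + lam * x.1) - x.2.2.2.2.1) (by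
            have : Continuous fun x : ℝ × Pt => D.al (x.2.1 + lam * x.1) :=
              cal.comp (by fun_prop)
            fun_prop) (by simpa using h)] with x h1 h2 hx
        have h1' : 0 < D.al x.2.1 - x.2.2.2.2.1 := h1
        have h2' : 0 < D.al (x.2.1 + lam * x.1) - x.2.2.2.2.1 := h2
        rw [sg_of_le (by linarith), sg_of_le (by linarith), sub_self]
        positivity
  have fζ : ∀ᶠ x : ℝ × Pt in 𝓝 ((0:ℝ), y), 0 < x.1 →
      sg (x.2.2.2.2.2 + (if e2 then D.be (x.2.2.1 + mu * x.1) - D.be x.2.2.1 else 0))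
        (D.be (x.2.2.1 + mu * x.1)) - sg x.2.2.2.2.2 (D.be x.2.2.1) ≤
      -(if e2 then D.w y.2.1 * mu else 0) * x.1 + ε * |mu| * x.1 := by
    cases e2 with
    | true =>
      filter_upwards [n3, n4] with x h1 h2 hx
      simp only [if_true]
      have e : D.be (x.2.2.1 + mu * x.1) =
          D.be x.2.2.1 + (D.be (x.2.2.1 + mu * x.1) - D.be x.2.2.1) := by ring
      have := ha2 x.2.2.1 (x.2.2.1 + mu * x.1) (h1.trans_le ((min_le_right _ _).trans (min_le_right _ _)))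
        (h2.trans_le ((min_le_right _ _).trans (min_le_right _ _)))
      rw [add_sub_cancel_left, abs_mul, abs_of_pos hx] at this
      have h3 := (abs_le.1 this).1
      rw [e, add_sub_cancel_left, sg_shift]
      have e3 : D.be (x.2.2.1 + mu * x.1) - D.be x.2.2.1 =
        -(D.al (x.2.2.1 + mu * x.1) - D.al x.2.2.1) := by unfold Dat.be; ring
      linarith
    | false =>
      simp only [Bool.false_eq_true, if_false, add_zero, zero_mul, zero_add, neg_zero]
      rcases hζ rfl with h | h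
      · refine Eventually.of_forall fun x hx => ?_
        rw [h]
        simp
      · filter_upwards [pos (fun x => D.be x.2.2.1 - x.2.2.2.2.2) (by
            have : Continuous fun x : ℝ × Pt => D.be x.2.2.1 := cbe.comp (by fun_prop)
            fun_prop) (by simpa using h),
          pos (fun x => D.be (x.2.2.1 + mu * x.1) - x.2.2.2.2.2) (by
            have : Continuous fun x : ℝ × Pt => D.be (x.2.2.1 + mu * x.1) :=
              cbe.comp (by fun_prop)
            fun_prop) (by simpa using h)] with x h1 h2 hx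
        have h1' : 0 < D.be x.2.2.1 - x.2.2.2.2.2 := h1
        have h2' : 0 < D.be (x.2.2.1 + mu * x.1) - x.2.2.2.2.2 := h2
        rw [sg_of_le (by linarith), sg_of_le (by linarith), sub_self]
        positivity
  filter_upwards [n1, n2, n3, n4, n5, n6, n7, n8, sv, fξ, fζ] with x h1 h2 h3 h4 h5 h6 h7 h8 h9 hA hB
    hx0 hx1
  rw [sub_zero, abs_of_pos hx1] at h7
  refine ⟨hmem x.2 hx0 h8 x.1 ⟨hx1, h7⟩, ?_⟩
  have A := hA hx1
  have B := hB hx1
  have S := hsd x.2.1 x.2.2.1 x.2.2.2.1 (x.2.1 + lam * x.1) (x.2.2.1 + mu * x.1)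
    (x.2.2.2.1 + nu * x.1) (h1.trans_le (min_le_left _ _)) (h3.trans_le (min_le_left _ _)) h5
    (h2.trans_le (min_le_left _ _)) (h4.trans_le (min_le_left _ _)) h6
  have hn : D.DL y.1 y.2.1 y.2.2.1 * (x.2.1 + lam * x.1 - x.2.1) + D.DR y.1 y.2.1 y.2.2.1 *
      (x.2.2.1 + mu * x.1 - x.2.2.1) + D.DP y.1 y.2.1 y.2.2.1 *
      (pp (x.2.2.2.1 + nu * x.1) - pp x.2.2.2.1) + D.DM y.1 y.2.1 y.2.2.1 *
      (mm (x.2.2.2.1 + nu * x.1) - mm x.2.2.2.1) =
      (D.DL y.1 y.2.1 y.2.2.1 * lam + D.DR y.1 y.2.1 y.2.2.1 * mu +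
      (if 0 < y.2.2.1 then D.DP y.1 y.2.1 y.2.2.1 else -D.DM y.1 y.2.1 y.2.2.1) * nu) * x.1 := by
    rw [add_assoc, h9]
    ring
  rw [hn, add_sub_cancel_left, add_sub_cancel_left, add_sub_cancel_left, abs_mul, abs_mul, abs_mul,
    abs_of_pos hx1] at S
  have S2 := (abs_le.1 S).2
  show D.Psi (x.2.1 + lam * x.1) (x.2.2.1 + mu * x.1) (x.2.2.2.1 + nu * x.1) +
    sg (x.2.2.2.2.1 + (if e1 then D.al (x.2.1 + lam * x.1) - D.al x.2.1 else 0))
        (D.al (x.2.1 + lam * x.1)) +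
    sg (x.2.2.2.2.2 + (if e2 then D.be (x.2.2.1 + mu * x.1) - D.be x.2.2.1 else 0))
        (D.be (x.2.2.1 + mu * x.1)) <
    D.Psi x.2.1 x.2.2.1 x.2.2.2.1 + sg x.2.2.2.2.1 (D.al x.2.1) + sg x.2.2.2.2.2 (D.be x.2.2.1)
  have hfin : ε * C * x.1 = k / 2 * x.1 := by rw [hεC]
  rw [hC] at hfin
  have hkx : 0 < k * x.1 := by positivity
  have hεx : 0 < ε * x.1 := by positivity
  rw [hk] at hkx hfin
  nlinarith [A, B, S2, hfin, hkx, hεx]

end Pool.Agent.T2h56.TG
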