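import Pool.Agent.T2h56.TG.Stm

/-! KP: the lower bound on the linking set (helper11). -/

set_option autoImplicit false
set_option linter.all false

namespace Pool.Agent.T2h56.TG

open Set

namespace KPaux

theorem F_sub (D : Dat) (x x' : ℝ) : D.F x' - D.F x = ∫ t in x..x', D.f t := by
  unfold Dat.F
  exact intervalIntegral.integral_interval_sub_left (D.cf.intervalIntegrable _ _)
    (D.cf.intervalIntegrable _ _)

theorem G_sub (D : Dat) (x x' : ℝ) : D.G x' - D.G x = ∫ t in x..x', D.g t := by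
  unfold Dat.G
  exact intervalIntegral.integral_interval_sub_left (D.cg.intervalIntegrable _ _)
    (D.cg.intervalIntegrable _ _)

theorem F_le (D : Dat) {x x' m : ℝ} (h : x ≤ x') (hm : ∀ t ∈ Icc x x', D.f t ≤ m) :
    D.F x' - D.F x ≤ m * (x' - x) := by
  rw [F_sub]
  have h1 := intervalIntegral.integral_mono_on (μ := MeasureTheory.volume) h (D.cf.intervalIntegrable x x')
    ((continuous_const (y := m)).intervalIntegrable x x') hm
  rw [intervalIntegral.integral_const, smul_eq_mul] at h1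
  linarith

theorem G_ge (D : Dat) {x x' m : ℝ} (h : x ≤ x') (hm : ∀ t ∈ Icc x x', m ≤ D.g t) :
    m * (x' - x) ≤ D.G x' - D.G x := by
  rw [G_sub]
  have h1 := intervalIntegral.integral_mono_on (μ := MeasureTheory.volume) h
    ((continuous_const (y := m)).intervalIntegrable x x')
    (D.cg.intervalIntegrable x x') hm
  rw [intervalIntegral.integral_const, smul_eq_mul] at h1
  linarith

end KPaux

open KPaux in
theorem t_KP (hAL : S_AL) : S_KP := by
  intro D x0 y0 δ h hδ hh ha hb hbox hr y hy h1 h2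
  obtain ⟨-, -, -, -, -, -, -, -, -, -, -, hnn, -, -, -, hlow⟩ := hAL D
  obtain ⟨L, R, v, ξ, ζ⟩ := y
  obtain ⟨hyL, hyLR, hyR, hyv, hyξ, hyζ⟩ := hy
  simp only at h1 h2 hyL hyLR hyR hyv hyξ hyζ
  have hL0 : x0 - δ ≤ L := by
    have := min_le_left (L - (x0 - δ)) (D.al L - ξ)
    linarith
  have hξ : ξ ≤ D.al L := by
    have := min_le_right (L - (x0 - δ)) (D.al L - ξ)
    linarith
  have hR0 : R ≤ x0 + δ := by
    have := min_le_left ((x0 + δ) - R) (D.be R - ζ)
    linarith
  have hζ : ζ ≤ D.be R := by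
    have := min_le_right ((x0 + δ) - R) (D.be R - ζ)
    linarith
  have hw : ∀ t ∈ Icc (x0 - δ) (x0 + δ), 2 * h ≤ D.w t := by
    intro t ht
    have := hbox t ht
    unfold Dat.w
    linarith
  -- the fibres
  have hs1 : sg ξ (D.al L) = ξ := by
    unfold sg
    rw [abs_of_nonpos (by linarith)]
    ring
  have hs2 : sg ζ (D.be R) = ζ := by
    unfold sg
    rw [abs_of_nonpos (by linarith)]
    ring
  have c1 : 2 * h * (L - (x0 - δ)) ≤ ξ := by
    rcases min_choice (L - (x0 - δ)) (D.al L - ξ) with h3 | h3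
    · rw [h1] at h3
      rw [← h3, mul_zero]
      exact hyξ
    · rw [h1] at h3
      have h4 := hlow (x0 - δ) ⟨ha, by linarith⟩ L ⟨hyL, by linarith⟩ hL0 (2 * h)
        (fun t ht => hw t ⟨ht.1, by linarith [ht.2]⟩)
      have h5 := (hnn (x0 - δ) ⟨ha, by linarith⟩).1
      linarith
  have c2 : 2 * h * ((x0 + δ) - R) ≤ ζ := by
    rcases min_choice ((x0 + δ) - R) (D.be R - ζ) with h3 | h3
    · rw [h2] at h3
      rw [← h3, mul_zero]
      exact hyζ
    · rw [h2] at h3
      have h4 := hlow R ⟨by linarith, by linarith⟩ (x0 + δ) ⟨by linarith, hb⟩ hR0 (2 * h)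
        (fun t ht => hw t ⟨by linarith [ht.1], ht.2⟩)
      have h5 := (hnn (x0 + δ) ⟨by linarith, hb⟩).2
      have h6 : D.be (x0 + δ) = D.ar - D.al (x0 + δ) := rfl
      have h7 : D.be R = D.ar - D.al R := rfl
      linarith
  -- the action
  have habs : |v| ≤ R - L := hyv
  have c3 : 2 * h * (R - L - |v|) - ((R - L - |v|) ^ 2 / D.r - D.r * v ^ 2) / 2 ≤
      D.Psi L R v := by
    unfold Dat.Psi
    rcases le_total 0 v with hv | hv
    · have e1 : pp v = v := max_eq_left hv
      have e2 : mm v = 0 := max_eq_right (by linarith)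
      rw [abs_of_nonneg hv] at habs ⊢
      rw [e1, e2, add_zero, sub_zero]
      have h3 := F_le D (x := L) (x' := R - v) (m := y0 - h) (by linarith)
        (fun t ht => (hbox t ⟨by linarith [ht.1], by linarith [ht.2]⟩).1)
      have h4 := G_ge D (x := L + v) (x' := R) (m := y0 + h) (by linarith)
        (fun t ht => (hbox t ⟨by linarith [ht.1], by linarith [ht.2]⟩).2)
      nlinarith
    · have e1 : pp v = 0 := max_eq_right hv
      have e2 : mm v = -v := max_eq_left (by linarith)
      rw [abs_of_nonpos hv] at habs ⊢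
      rw [e1, e2, add_zero, sub_zero]
      have h3 := F_le D (x := L + -v) (x' := R) (m := y0 - h) (by linarith)
        (fun t ht => (hbox t ⟨by linarith [ht.1], by linarith [ht.2]⟩).1)
      have h4 := G_ge D (x := L) (x' := R - -v) (m := y0 + h) (by linarith)
        (fun t ht => (hbox t ⟨by linarith [ht.1], by linarith [ht.2]⟩).2)
      nlinarith
  have hH : D.H (L, R, v, ξ, ζ) = D.Psi L R v + ξ + ζ := by
    unfold Dat.H
    simp only
    rw [hs1, hs2]
  rw [hH]
  have hr0 := D.r0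
  set t := |v| with ht
  have ht0 : 0 ≤ t := abs_nonneg v
  have hv2 : v ^ 2 = t ^ 2 := (sq_abs v).symm
  rw [hv2] at c3
  have d1 : (R - L - t) ^ 2 / D.r ≤ 2 * h * (2 * δ - t) := by
    rw [div_le_iff₀ hr0]
    have e1 : (R - L - t) ^ 2 ≤ (2 * δ - t) * (2 * δ) := by
      have e2 : 0 ≤ R - L - t := by linarith
      have e3 : R - L - t ≤ 2 * δ - t := by linarith
      have e4 : R - L - t ≤ 2 * δ := by linarith
      nlinarith
    have e5 : 0 ≤ 2 * δ - t := by linarith
    have e6 : (2 * δ - t) * (2 * δ) ≤ (2 * δ - t) * (2 * (h * D.r)) :=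
      mul_le_mul_of_nonneg_left (by linarith) e5
    calc (R - L - t) ^ 2 ≤ (2 * δ - t) * (2 * δ) := e1
      _ ≤ (2 * δ - t) * (2 * (h * D.r)) := e6
      _ = 2 * h * (2 * δ - t) * D.r := by ring
  have d2 : h * (2 * δ - t) + D.r * t ^ 2 / 2 ≤ D.Psi L R v + ξ + ζ := by
    have e1 : (R - L - t) ^ 2 / D.r / 2 ≤ h * (2 * δ - t) := by linarith
    have e2 : 2 * h * (R - L - t) - ((R - L - t) ^ 2 / D.r - D.r * t ^ 2) / 2 =
      2 * h * (R - L - t) - (R - L - t) ^ 2 / D.r / 2 + D.r * t ^ 2 / 2 := by ring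
    rw [e2] at c3
    nlinarith
  refine le_trans ?_ d2
  rcases le_total t δ with hc | hc
  · refine (min_le_left _ _).trans ?_
    have e1 : 0 ≤ D.r * t ^ 2 / 2 := by positivity
    nlinarith
  · refine (min_le_right _ _).trans ?_
    have e1 : 0 ≤ h * (2 * δ - t) := mul_nonneg hh.le (by linarith)
    have e2 : δ ^ 2 ≤ t ^ 2 := pow_le_pow_left₀ hδ.le hc 2
    have e3 : D.r * δ ^ 2 ≤ D.r * t ^ 2 := mul_le_mul_of_nonneg_left e2 hr0.le
    linarith

end Pool.Agent.T2h56.TG
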