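import Pool.Agent.T2h56.TG.Stm

/-! MIR: the reflection in the `y`-axis. -/

set_option autoImplicit false

namespace Pool.Agent.T2h56.TG

namespace MIR

open Set

lemma mm_neg (v : ℝ) : mm (-v) = pp v := by simp [mm, pp]

lemma pp_neg (v : ℝ) : pp (-v) = mm v := rfl

variable (D : Dat)

lemma F_mir (x : ℝ) : D.mir.F x = D.F D.b - D.F (-x) := by
  have hi : ∀ u v, IntervalIntegrable D.f MeasureTheory.volume u v := fun u v =>
    D.cf.intervalIntegrable u v
  show (∫ t in (-D.b)..x, D.f (-t)) = _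
  rw [intervalIntegral.integral_comp_neg (fun t => D.f t), neg_neg]
  unfold Dat.F
  rw [intervalIntegral.integral_interval_sub_left (hi _ _) (hi _ _)]

lemma G_mir (x : ℝ) : D.mir.G x = D.G D.b - D.G (-x) := by
  have hi : ∀ u v, IntervalIntegrable D.g MeasureTheory.volume u v := fun u v =>
    D.cg.intervalIntegrable u v
  show (∫ t in (-D.b)..x, D.g (-t)) = _
  rw [intervalIntegral.integral_comp_neg (fun t => D.g t), neg_neg]
  unfold Dat.G
  rw [intervalIntegral.integral_interval_sub_left (hi _ _) (hi _ _)]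

lemma al_a : D.al D.a = 0 := by
  unfold Dat.al Dat.F Dat.G
  rw [intervalIntegral.integral_same, intervalIntegral.integral_same, sub_zero]

lemma al_mir (x : ℝ) : D.mir.al (-x) = D.be x := by
  unfold Dat.be Dat.ar
  have h1 : D.mir.al (-x) = D.mir.G (-x) - D.mir.F (-x) := rfl
  rw [h1, F_mir, G_mir, neg_neg]
  unfold Dat.al
  ring

lemma ar_mir : D.mir.ar = D.ar := by
  show D.mir.al (-D.a) = D.al D.b
  rw [al_mir]
  unfold Dat.be
  rw [al_a, sub_zero]
  rfl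

lemma be_mir (x : ℝ) : D.mir.be (-x) = D.al x := by
  show D.mir.ar - D.mir.al (-x) = D.al x
  rw [ar_mir, al_mir]
  unfold Dat.be
  ring

lemma w_mir (x : ℝ) : D.mir.w (-x) = D.w x := by
  show D.g (- -x) - D.f (- -x) = _
  rw [neg_neg]
  rfl

lemma Psi_mir (L R v : ℝ) : D.mir.Psi (-R) (-L) (-v) = D.Psi L R v := by
  unfold Dat.Psi
  rw [mm_neg, pp_neg, F_mir, F_mir, G_mir, G_mir, abs_neg]
  have e1 : -(-R + pp v) = R - pp v := by ring
  have e2 : -(-L - mm v) = L + mm v := by ring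
  have e3 : -(-L - pp v) = L + pp v := by ring
  have e4 : -(-R + mm v) = R - mm v := by ring
  have e5 : -L - -R - |v| = R - L - |v| := by ring
  have e6 : D.mir.r = D.r := rfl
  rw [e1, e2, e3, e4, e5, e6]
  ring

lemma H_mir (y : Pt) : D.mir.H (muM y) = D.H y := by
  unfold Dat.H muM
  dsimp only
  rw [Psi_mir, al_mir, be_mir]
  ring

lemma Y_mir (y : Pt) : y ∈ D.Y ↔ muM y ∈ D.mir.Y := by
  show (D.a ≤ y.1 ∧ y.1 ≤ y.2.1 ∧ y.2.1 ≤ D.b ∧ |y.2.2.1| ≤ y.2.1 - y.1 ∧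
    0 ≤ y.2.2.2.1 ∧ 0 ≤ y.2.2.2.2) ↔ (-D.b ≤ -y.2.1 ∧ -y.2.1 ≤ -y.1 ∧ -y.1 ≤ -D.a ∧
      |-y.2.2.1| ≤ -y.1 - -y.2.1 ∧ 0 ≤ y.2.2.2.2 ∧ 0 ≤ y.2.2.2.1)
  rw [abs_neg]
  constructor
  · rintro ⟨h1, h2, h3, h4, h5, h6⟩
    exact ⟨by linarith, by linarith, by linarith, by linarith, h6, h5⟩
  · rintro ⟨h1, h2, h3, h4, h5, h6⟩
    exact ⟨by linarith, by linarith, by linarith, by linarith, h6, h5⟩

lemma muM_muM (y : Pt) : muM (muM y) = y := by
  simp [muM]

lemma cont_muM : Continuous muM := by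
  unfold muM
  fun_prop

lemma dist_muM (y z : Pt) : dist (muM y) (muM z) = dist y z := by
  simp only [muM, Prod.dist_eq, dist_neg_neg]
  ac_rfl

lemma desc_mir (y : Pt) (h : D.mir.Desc (muM y)) : D.Desc y := by
  obtain ⟨ε, hε, Γ, h1, h2, h3⟩ := h
  refine ⟨ε, hε, fun τ z => muM (Γ τ (muM z)), ?_, ?_, ?_⟩
  · have h4 : Continuous fun x : ℝ × Pt => (x.1, muM x.2) :=
      continuous_fst.prodMk (cont_muM.comp continuous_snd)
    exact cont_muM.comp (h1.comp h4)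
  · intro z
    show muM (Γ 0 (muM z)) = z
    rw [h2, muM_muM]
  · intro z hz hd τ hτ
    obtain ⟨h4, h5⟩ := h3 (muM z) ((Y_mir D z).1 hz) (by rwa [dist_muM]) τ hτ
    refine ⟨?_, ?_⟩
    · rw [Y_mir, muM_muM]
      exact h4
    · rw [← H_mir, muM_muM, ← H_mir D z]
      exact h5

end MIR

open MIR in
theorem t_MIR : S_MIR := by
  intro D y
  refine ⟨Y_mir D y, H_mir D y, desc_mir D y, fun x => ⟨al_mir D x, be_mir D x, w_mir D x⟩, ?_⟩
  intro L R v
  have e1 : -(-R + pp v) = R - pp v := by ring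
  have e2 : -(-L - mm v) = L + mm v := by ring
  have e3 : -(-L - pp v) = L + pp v := by ring
  have e4 : -(-R + mm v) = R - mm v := by ring
  have e5 : -L - -R - |v| = R - L - |v| := by ring
  refine ⟨?_, ?_, ?_, ?_⟩
  · show D.f (-(-R + mm (-v))) - D.g (-(-R + pp (-v))) + (-L - -R - |-v|) / D.r = -D.DR L R v
    rw [mm_neg, pp_neg, abs_neg, e1, e4, e5]
    unfold Dat.DR
    ring
  · show D.g (-(-L - mm (-v))) - D.f (-(-L - pp (-v))) - (-L - -R - |-v|) / D.r = -D.DL L R v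
    rw [mm_neg, pp_neg, abs_neg, e2, e3, e5]
    unfold Dat.DL
    ring
  · show D.f (-(-L - pp (-v))) - D.g (-(-R + pp (-v))) + (-L - -R - |-v|) / D.r + D.r * pp (-v) =
      D.DM L R v
    rw [pp_neg, abs_neg, e2, e4, e5]
    rfl
  · show D.f (-(-R + mm (-v))) - D.g (-(-L - mm (-v))) + (-L - -R - |-v|) / D.r + D.r * mm (-v) =
      D.DP L R v
    rw [mm_neg, abs_neg, e1, e3, e5]
    rfl

end Pool.Agent.T2h56.TG
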