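import Pool.Agent.T2h56.TG.Stm

/-! RA: rules for the left vertex away from the face (helper11). -/

set_option autoImplicit false
set_option linter.all false

namespace Pool.Agent.T2h56.TG

open Set

namespace RAaux

theorem d1 (z y : Pt) : |z.1 - y.1| ≤ dist z y := by
  rw [← Real.dist_eq]
  exact (le_max_left _ _)

theorem d2 (z y : Pt) : |z.2.1 - y.2.1| ≤ dist z y := by
  rw [← Real.dist_eq]
  exact (le_max_left _ _).trans (le_max_right _ _)

theorem d3 (z y : Pt) : |z.2.2.1 - y.2.2.1| ≤ dist z y := by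
  rw [← Real.dist_eq]
  exact ((le_max_left _ _).trans (le_max_right _ _)).trans (le_max_right _ _)

theorem d4 (z y : Pt) : |z.2.2.2.1 - y.2.2.2.1| ≤ dist z y := by
  rw [← Real.dist_eq]
  exact (((le_max_left _ _).trans (le_max_right _ _)).trans (le_max_right _ _)).trans
    (le_max_right _ _)

/-- continuity of the area at a point -/
theorem al_cont (D : Dat) (h : Continuous D.al) (x : ℝ) {e : ℝ} (he : 0 < e) :
    ∃ δ > 0, ∀ x', |x' - x| < δ → |D.al x' - D.al x| < e := by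
  obtain ⟨δ, hδ, h1⟩ := Metric.continuous_iff.1 h x e he
  refine ⟨δ, hδ, fun x' hx' => ?_⟩
  rw [← Real.dist_eq]
  exact h1 x' (by rwa [Real.dist_eq])

/-- moves of the fibre coordinate -/
theorem fibre (D : Dat) (y : Pt) (s : ℝ) (hs : s = 1 ∨ s = -1)
    (h : ∃ ε > 0, ∀ z ∈ D.Y, dist z y < ε → ∀ τ ∈ Ioo 0 ε, 0 ≤ z.2.2.2.1 + s * τ ∧
      sg (z.2.2.2.1 + s * τ) (D.al z.1) < sg z.2.2.2.1 (D.al z.1)) : D.Desc y := by
  obtain ⟨ε, hε, h⟩ := h
  refine ⟨ε, hε, fun τ z => (z.1, z.2.1, z.2.2.1, z.2.2.2.1 + s * τ, z.2.2.2.2), ?_, ?_, ?_⟩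
  · fun_prop
  · intro z
    simp only [mul_zero, add_zero]
  · intro z hz hd τ hτ
    obtain ⟨h1, h2⟩ := h z hz hd τ hτ
    obtain ⟨hzL, hzLR, hzR, hzv, hzξ, hzζ⟩ := hz
    refine ⟨⟨hzL, hzLR, hzR, hzv, h1, hzζ⟩, ?_⟩
    unfold Dat.H
    simp only
    linarith

end RAaux

open RAaux in
theorem t_RA (hGM : S_GM) (hAL : S_AL) : S_RA := by
  intro D y hy
  obtain ⟨-, hcal, -, -, -, -, -, -, -, hmono, -, -, -⟩ := hAL D
  obtain ⟨hyL, hyLR, hyR, hyv, hyξ, hyζ⟩ := id hy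
  refine ⟨fun h1 h2 => ?_, fun h1 => ?_, fun h1 h2 => ?_, fun h1 h2 h3 => ?_, fun h1 h2 h3 => ?_⟩
  · -- 0 < ξ < al L
    obtain ⟨δ, hδ, hc⟩ := al_cont D hcal y.1 (e := (D.al y.1 - y.2.2.2.1) / 2) (by linarith)
    refine fibre D y (-1) (Or.inr rfl) ⟨min δ (min (y.2.2.2.1 / 2) ((D.al y.1 - y.2.2.2.1) / 2)),
      lt_min hδ (lt_min (by linarith) (by linarith)), fun z hz hd τ hτ => ?_⟩
    have g1 : dist z y < δ := lt_of_lt_of_le hd (min_le_left _ _)
    have g2 : dist z y < y.2.2.2.1 / 2 :=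
      lt_of_lt_of_le hd ((min_le_right _ _).trans (min_le_left _ _))
    have g3 : dist z y < (D.al y.1 - y.2.2.2.1) / 2 :=
      lt_of_lt_of_le hd ((min_le_right _ _).trans (min_le_right _ _))
    have g4 : τ < y.2.2.2.1 / 2 :=
      lt_of_lt_of_le hτ.2 ((min_le_right _ _).trans (min_le_left _ _))
    have g5 := abs_lt.1 (hc z.1 (lt_of_le_of_lt (d1 z y) g1))
    have g6 := abs_lt.1 (lt_of_le_of_lt (d4 z y) g2)
    have g7 := abs_lt.1 (lt_of_le_of_lt (d4 z y) g3)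
    refine ⟨by linarith, ?_⟩
    unfold sg
    rw [abs_of_nonpos (by linarith [hτ.1]), abs_of_nonpos (by linarith)]
    linarith [hτ.1]
  · -- al L < ξ
    obtain ⟨δ, hδ, hc⟩ := al_cont D hcal y.1 (e := (y.2.2.2.1 - D.al y.1) / 2) (by linarith)
    refine fibre D y 1 (Or.inl rfl) ⟨min δ ((y.2.2.2.1 - D.al y.1) / 2),
      lt_min hδ (by linarith), fun z hz hd τ hτ => ?_⟩
    have g1 : dist z y < δ := lt_of_lt_of_le hd (min_le_left _ _)
    have g3 : dist z y < (y.2.2.2.1 - D.al y.1) / 2 :=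
      lt_of_lt_of_le hd (min_le_right _ _)
    have g5 := abs_lt.1 (hc z.1 (lt_of_le_of_lt (d1 z y) g1))
    have g7 := abs_lt.1 (lt_of_le_of_lt (d4 z y) g3)
    have g8 := hz.2.2.2.2.1
    refine ⟨by linarith [hτ.1], ?_⟩
    unfold sg
    rw [abs_of_nonneg (by linarith [hτ.1]), abs_of_nonneg (by linarith)]
    linarith [hτ.1]
  · -- L moves to the right, the fibre is adjusted
    refine hGM D y 1 0 0 true false hy (fun h => by simp at h) (fun _ => Or.inl rfl)
      (Or.inl rfl) (by simpa using h2) ⟨(y.2.1 - y.1 - |y.2.2.1|) / 4, by linarith, ?_⟩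
    intro z hz hd τ hτ
    obtain ⟨hzL, hzLR, hzR, hzv, hzξ, hzζ⟩ := hz
    have g1 := abs_lt.1 (lt_of_le_of_lt (d1 z y) hd)
    have g2 := abs_lt.1 (lt_of_le_of_lt (d2 z y) hd)
    have g3 := lt_of_le_of_lt (d3 z y) hd
    have g4 : |z.2.2.1| ≤ |y.2.2.1| + |z.2.2.1 - y.2.2.1| := by
      have := abs_add_le y.2.2.1 (z.2.2.1 - y.2.2.1)
      rwa [add_sub_cancel] at this
    have g5 := abs_nonneg z.2.2.1
    have g6 : D.al z.1 ≤ D.al (z.1 + 1 * τ) :=
      hmono ⟨hzL, by linarith⟩ ⟨by linarith [hτ.1], by linarith [hτ.2]⟩ (by linarith [hτ.1])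
    unfold mv
    refine ⟨?_, ?_, ?_, ?_, ?_, ?_⟩
    · simp only
      linarith [hτ.1]
    · simp only
      linarith [hτ.2]
    · simp only
      linarith
    · simp only [zero_mul, add_zero]
      linarith [hτ.2]
    · simp only [if_true]
      linarith
    · simpa using hzζ
  · -- L moves to the right
    refine hGM D y 1 0 0 false false hy (fun _ => Or.inr h3) (fun _ => Or.inl rfl)
      (Or.inl rfl) (by simpa using h2) ⟨(y.2.1 - y.1 - |y.2.2.1|) / 4, by linarith, ?_⟩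
    intro z hz hd τ hτ
    obtain ⟨hzL, hzLR, hzR, hzv, hzξ, hzζ⟩ := hz
    have g1 := abs_lt.1 (lt_of_le_of_lt (d1 z y) hd)
    have g2 := abs_lt.1 (lt_of_le_of_lt (d2 z y) hd)
    have g3 := lt_of_le_of_lt (d3 z y) hd
    have g4 : |z.2.2.1| ≤ |y.2.2.1| + |z.2.2.1 - y.2.2.1| := by
      have := abs_add_le y.2.2.1 (z.2.2.1 - y.2.2.1)
      rwa [add_sub_cancel] at this
    have g5 := abs_nonneg z.2.2.1
    unfold mv
    refine ⟨?_, ?_, ?_, ?_, ?_, ?_⟩
    · simp only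
      linarith [hτ.1]
    · simp only
      linarith [hτ.2]
    · simp only
      linarith
    · simp only [zero_mul, add_zero]
      linarith [hτ.2]
    · simpa using hzξ
    · simpa using hzζ
  · -- L moves to the left, the fibre is adjusted
    obtain ⟨δ, hδ, hc⟩ := al_cont D hcal y.1 (e := y.2.2.2.1 / 4) (by linarith)
    refine hGM D y (-1) 0 0 true false hy (fun h => by simp at h) (fun _ => Or.inl rfl)
      (Or.inl rfl) (by simp; linarith) ⟨min (δ / 2) (min (y.2.2.2.1 / 4) ((y.1 - D.a) / 2)),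
        lt_min (by linarith) (lt_min (by linarith) (by linarith)), ?_⟩
    intro z hz hd τ hτ
    obtain ⟨hzL, hzLR, hzR, hzv, hzξ, hzζ⟩ := hz
    have k1 : min (δ / 2) (min (y.2.2.2.1 / 4) ((y.1 - D.a) / 2)) ≤ δ / 2 := min_le_left _ _
    have k2 : min (δ / 2) (min (y.2.2.2.1 / 4) ((y.1 - D.a) / 2)) ≤ y.2.2.2.1 / 4 :=
      (min_le_right _ _).trans (min_le_left _ _)
    have k3 : min (δ / 2) (min (y.2.2.2.1 / 4) ((y.1 - D.a) / 2)) ≤ (y.1 - D.a) / 2 :=
      (min_le_right _ _).trans (min_le_right _ _)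
    have hτ2 := hτ.2
    have g1 := abs_lt.1 (lt_of_le_of_lt (d1 z y) hd)
    have g4 := abs_lt.1 (lt_of_le_of_lt (d4 z y) hd)
    have c1 := abs_lt.1 (hc z.1 (by
      have := lt_of_le_of_lt (d1 z y) hd
      linarith))
    have c2 := abs_lt.1 (hc (z.1 + -1 * τ) (by
      rw [abs_lt]
      exact ⟨by linarith [hτ.1], by linarith [hτ.1]⟩))
    unfold mv
    refine ⟨?_, ?_, ?_, ?_, ?_, ?_⟩
    · simp only
      linarith [hτ.1]
    · simp only
      linarith [hτ.1]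
    · simp only
      linarith
    · simp only [zero_mul, add_zero]
      linarith [hτ.1]
    · simp only [if_true]
      linarith
    · simpa using hzζ

end Pool.Agent.T2h56.TG
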