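import Pool.Agent.T2h56.TG.Stm

/-! REF: the reflection in the first axis. -/

set_option autoImplicit false

namespace Pool.Agent.T2h56.TG

open Set

private theorem pp_neg' (v : ℝ) : pp (-v) = mm v := rfl

private theorem mm_neg' (v : ℝ) : mm (-v) = pp v := by
  unfold mm pp
  rw [neg_neg]

private theorem refF (D : Dat) (x : ℝ) : D.ref.F x = -D.G x := by
  show (∫ t in D.a..x, -D.g t) = -∫ t in D.a..x, D.g t
  rw [intervalIntegral.integral_neg]

private theorem refG (D : Dat) (x : ℝ) : D.ref.G x = -D.F x := by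
  show (∫ t in D.a..x, -D.f t) = -∫ t in D.a..x, D.f t
  rw [intervalIntegral.integral_neg]

private theorem refal (D : Dat) (x : ℝ) : D.ref.al x = D.al x := by
  unfold Dat.al
  rw [refF, refG]
  ring

private theorem refbe (D : Dat) (x : ℝ) : D.ref.be x = D.be x := by
  unfold Dat.be Dat.ar
  rw [refal, refal]
  rfl

private theorem refPsi (D : Dat) (L R v : ℝ) : D.ref.Psi L R (-v) = D.Psi L R v := by
  unfold Dat.Psi
  rw [refF, refF, refG, refG, pp_neg', mm_neg', abs_neg]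
  show -D.G (L + pp v) - -D.G (R - mm v) + -D.F (R - pp v) - -D.F (L + mm v)
    - ((R - L - |v|) ^ 2 / D.r - D.r * (-v) ^ 2) / 2 = _
  ring

private theorem muR_dist (z y : Pt) : dist (muR z) (muR y) = dist z y := by
  simp only [muR, Prod.dist_eq, dist_neg_neg]

private theorem muR_cont : Continuous muR := by
  unfold muR
  fun_prop

private theorem muR_muR (z : Pt) : muR (muR z) = z := by
  obtain ⟨L, R, v, ξ, ζ⟩ := z
  simp only [muR, neg_neg]

private theorem refY (D : Dat) (y : Pt) : y ∈ D.Y ↔ muR y ∈ D.ref.Y := by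
  obtain ⟨L, R, v, ξ, ζ⟩ := y
  show (D.a ≤ L ∧ L ≤ R ∧ R ≤ D.b ∧ |v| ≤ R - L ∧ 0 ≤ ξ ∧ 0 ≤ ζ) ↔
    (D.a ≤ L ∧ L ≤ R ∧ R ≤ D.b ∧ |-v| ≤ R - L ∧ 0 ≤ ξ ∧ 0 ≤ ζ)
  rw [abs_neg]

private theorem refH (D : Dat) (y : Pt) : D.ref.H (muR y) = D.H y := by
  obtain ⟨L, R, v, ξ, ζ⟩ := y
  show D.ref.Psi L R (-v) + sg ξ (D.ref.al L) + sg ζ (D.ref.be R) =
    D.Psi L R v + sg ξ (D.al L) + sg ζ (D.be R)
  rw [refPsi, refal, refbe]

theorem t_REF : S_REF := by
  intro D y
  refine ⟨refY D y, refH D y, ?_, fun x => ⟨refal D x, refbe D x, ?_⟩, fun L R v => ?_⟩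
  · rintro ⟨ε, hε, Γ, hc, h0, hΓ⟩
    refine ⟨ε, hε, fun τ z => muR (Γ τ (muR z)), ?_, ?_, ?_⟩
    · exact muR_cont.comp (hc.comp (continuous_fst.prodMk (muR_cont.comp continuous_snd)))
    · intro z
      show muR (Γ 0 (muR z)) = z
      rw [h0, muR_muR]
    · intro z hz hd τ hτ
      obtain ⟨g1, g2⟩ := hΓ (muR z) ((refY D z).mp hz) (by rw [muR_dist]; exact hd) τ hτ
      refine ⟨?_, ?_⟩
      · rw [refY D, muR_muR]
        exact g1
      · have e := refH D (muR (Γ τ (muR z)))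
        rw [muR_muR] at e
        rw [refH D z] at g2
        rw [← e]
        exact g2
  · show -D.f x - -D.g x = D.g x - D.f x
    ring
  · have hr : D.ref.r = D.r := rfl
    have hf : ∀ x, D.ref.f x = -D.g x := fun x => rfl
    have hg : ∀ x, D.ref.g x = -D.f x := fun x => rfl
    refine ⟨?_, ?_, ?_, ?_⟩
    · unfold Dat.DL
      rw [hf, hg, hr, pp_neg', mm_neg', abs_neg]
      ring
    · unfold Dat.DR
      rw [hf, hg, hr, pp_neg', mm_neg', abs_neg]
      ring
    · unfold Dat.DP Dat.DM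
      rw [hf, hg, hr, pp_neg', abs_neg]
      ring
    · unfold Dat.DP Dat.DM
      rw [hf, hg, hr, mm_neg', abs_neg]
      ring

end Pool.Agent.T2h56.TG
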