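import Pool.Agent.T2h56.TG.Stm

/-! Rules for `v > 0` and `v = 0`. -/

set_option autoImplicit false

namespace Pool.Agent.T2h56.TG

open Set

namespace RG

/-- coordinates of a nearby point -/
theorem near {z y : Pt} {ε : ℝ} (h : dist z y < ε) : |z.1 - y.1| < ε ∧ |z.2.1 - y.2.1| < ε ∧
    |z.2.2.1 - y.2.2.1| < ε ∧ |z.2.2.2.1 - y.2.2.2.1| < ε ∧ |z.2.2.2.2 - y.2.2.2.2| < ε := by
  simp only [Prod.dist_eq, max_lt_iff, Real.dist_eq] at h
  exact h

/-- moving `v` away from the face -/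
theorem stay (D : Dat) (y : Pt) (hv : |y.2.2.1| < y.2.1 - y.1) (nu : ℝ) (hnu : |nu| ≤ 1) :
    ∃ ε > 0, ∀ z ∈ D.Y, dist z y < ε → ∀ τ ∈ Ioo 0 ε, mv D 0 0 nu false false τ z ∈ D.Y := by
  refine ⟨(y.2.1 - y.1 - |y.2.2.1|) / 4, by linarith, ?_⟩
  rintro z ⟨h1, h2, h3, h4, h5, h6⟩ hz τ ⟨ht0, ht1⟩
  obtain ⟨n1, n2, n3, -, -⟩ := near hz
  refine ⟨?_, ?_, ?_, ?_, ?_, ?_⟩
  · show D.a ≤ z.1 + 0 * τ
    linarith
  · show z.1 + 0 * τ ≤ z.2.1 + 0 * τ
    linarith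
  · show z.2.1 + 0 * τ ≤ D.b
    linarith
  · show |z.2.2.1 + nu * τ| ≤ z.2.1 + 0 * τ - (z.1 + 0 * τ)
    have e1 : |nu * τ| ≤ τ := by
      rw [abs_mul, abs_of_pos ht0]
      nlinarith
    have e2 : |z.2.2.1| ≤ |y.2.2.1| + |z.2.2.1 - y.2.2.1| := by
      have := abs_add_le y.2.2.1 (z.2.2.1 - y.2.2.1)
      rwa [add_sub_cancel] at this
    have e3 := abs_add_le z.2.2.1 (nu * τ)
    have n1' := abs_lt.1 n1
    have n2' := abs_lt.1 n2
    linarith [n1'.1, n1'.2, n2'.1, n2'.2]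
  · show 0 ≤ z.2.2.2.1 + (if false = true then _ else 0)
    simpa using h5
  · show 0 ≤ z.2.2.2.2 + (if false = true then _ else 0)
    simpa using h6

/-- decreasing `v > 0` -/
theorem stay_dec (D : Dat) (y : Pt) (hv : 0 < y.2.2.1) :
    ∃ ε > 0, ∀ z ∈ D.Y, dist z y < ε → ∀ τ ∈ Ioo 0 ε, mv D 0 0 (-1) false false τ z ∈ D.Y := by
  refine ⟨y.2.2.1 / 2, by linarith, ?_⟩
  rintro z ⟨h1, h2, h3, h4, h5, h6⟩ hz τ ⟨ht0, ht1⟩
  obtain ⟨-, -, n3, -, -⟩ := near hz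
  refine ⟨?_, ?_, ?_, ?_, ?_, ?_⟩
  · show D.a ≤ z.1 + 0 * τ
    linarith
  · show z.1 + 0 * τ ≤ z.2.1 + 0 * τ
    linarith
  · show z.2.1 + 0 * τ ≤ D.b
    linarith
  · show |z.2.2.1 + (-1) * τ| ≤ z.2.1 + 0 * τ - (z.1 + 0 * τ)
    have n3' := abs_lt.1 n3
    have h7 := (le_abs_self z.2.2.1).trans h4
    rw [abs_le]
    constructor <;> linarith [n3'.1, n3'.2]
  · show 0 ≤ z.2.2.2.1 + (if false = true then _ else 0)
    simpa using h5
  · show 0 ≤ z.2.2.2.2 + (if false = true then _ else 0)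
    simpa using h6

end RG

theorem t_RG (hGM : S_GM) : S_RG := by
  intro D y hy
  have r1 : 0 < y.2.2.1 → 0 < D.DP y.1 y.2.1 y.2.2.1 → D.Desc y := by
    intro hv hP
    refine hGM D y 0 0 (-1) false false hy (fun _ => Or.inl rfl) (fun _ => Or.inl rfl)
      (Or.inr (Or.inl hv)) ?_ (RG.stay_dec D y hv)
    rw [if_pos hv]
    simp only [Bool.false_eq_true, if_false]
    linarith
  refine ⟨r1, fun hv hvR hP => ?_, fun hv hLR hPM hP => ?_⟩
  · rcases lt_or_gt_of_ne hP with h | h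
    · refine hGM D y 0 0 1 false false hy (fun _ => Or.inl rfl) (fun _ => Or.inl rfl)
        (Or.inr (Or.inl hv)) ?_ (RG.stay D y (by rwa [abs_of_pos hv]) 1 (by simp))
      rw [if_pos hv]
      simp only [Bool.false_eq_true, if_false]
      linarith
    · exact r1 hv h
  · have hv' : |y.2.2.1| < y.2.1 - y.1 := by
      rw [hv, abs_zero]
      linarith
    have hn : ¬ 0 < y.2.2.1 := by
      rw [hv]
      exact lt_irrefl 0
    rcases lt_or_gt_of_ne hP with h | h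
    · refine hGM D y 0 0 1 false false hy (fun _ => Or.inl rfl) (fun _ => Or.inl rfl)
        (Or.inr (Or.inr (Or.inr hPM))) ?_ (RG.stay D y hv' 1 (by simp))
      rw [if_neg hn]
      simp only [Bool.false_eq_true, if_false]
      linarith
    · refine hGM D y 0 0 (-1) false false hy (fun _ => Or.inl rfl) (fun _ => Or.inl rfl)
        (Or.inr (Or.inr (Or.inr hPM))) ?_ (RG.stay D y hv' (-1) (by simp))
      rw [if_neg hn]
      simp only [Bool.false_eq_true, if_false]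
      linarith

end Pool.Agent.T2h56.TG
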