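import Pool.Agent.T2h56.TG.Stm

/-! Rules at the face `v = R - L > 0` and at the edge `L = R`. -/

set_option autoImplicit false

namespace Pool.Agent.T2h56.TG

open Set

namespace RI

/-- coordinates of a nearby point -/
theorem near {z y : Pt} {ε : ℝ} (h : dist z y < ε) : |z.1 - y.1| < ε ∧ |z.2.1 - y.2.1| < ε ∧
    |z.2.2.1 - y.2.2.1| < ε ∧ |z.2.2.2.1 - y.2.2.2.1| < ε ∧ |z.2.2.2.2 - y.2.2.2.2| < ε := by
  simp only [Prod.dist_eq, max_lt_iff, Real.dist_eq] at h
  exact h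

/-- leaving the face -/
theorem stay (D : Dat) (hmono : MonotoneOn D.al (Icc D.a D.b)) (y : Pt) (hv : 0 < y.2.2.1)
    (e1 : Bool) :
    ∃ ε > 0, ∀ z ∈ D.Y, dist z y < ε → ∀ τ ∈ Ioo 0 ε, mv D 1 0 (-1) e1 false τ z ∈ D.Y := by
  refine ⟨y.2.2.1 / 2, by linarith, ?_⟩
  rintro z ⟨h1, h2, h3, h4, h5, h6⟩ hz τ ⟨ht0, ht1⟩
  obtain ⟨-, -, n3, -, -⟩ := near hz
  have n3' := abs_lt.1 n3
  have h7 := (le_abs_self z.2.2.1).trans h4
  refine ⟨?_, ?_, ?_, ?_, ?_, ?_⟩
  · show D.a ≤ z.1 + 1 * τ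
    linarith
  · show z.1 + 1 * τ ≤ z.2.1 + 0 * τ
    linarith
  · show z.2.1 + 0 * τ ≤ D.b
    linarith
  · show |z.2.2.1 + (-1) * τ| ≤ z.2.1 + 0 * τ - (z.1 + 1 * τ)
    rw [abs_le]
    constructor <;> linarith [n3'.1, n3'.2]
  · show 0 ≤ z.2.2.2.1 + (if e1 = true then D.al (z.1 + 1 * τ) - D.al z.1 else 0)
    have h8 : D.al z.1 ≤ D.al (z.1 + 1 * τ) :=
      hmono ⟨h1, by linarith⟩ ⟨by linarith, by linarith⟩ (by linarith)
    split_ifs <;> linarith
  · show 0 ≤ z.2.2.2.2 + (if false = true then _ else 0)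
    simpa using h6

end RI

theorem t_RI (hGM : S_GM) (hAL : S_AL) : S_RI := by
  intro D y hy
  obtain ⟨-, hcal, -, -, -, -, -, -, -, hmono, -⟩ := hAL D
  constructor
  · intro hv hvR hor
    have hpp : pp y.2.2.1 = y.2.1 - y.1 := by
      unfold pp
      rw [max_eq_left hv.le, hvR]
    have hmm : mm y.2.2.1 = 0 := by
      unfold mm
      rw [max_eq_right (by linarith)]
    have hrate : D.DL y.1 y.2.1 y.2.2.1 - D.DP y.1 y.2.1 y.2.2.1 = -(D.r * (y.2.1 - y.1)) := by
      unfold Dat.DL Dat.DP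
      rw [hpp, hmm, add_zero, sub_sub_cancel]
      ring
    have hr := mul_pos D.r0 (hvR ▸ hv)
    rcases hor with h | h
    · refine hGM D y 1 0 (-1) true false hy (fun h => by simp at h) (fun _ => Or.inl rfl)
        (Or.inr (Or.inl hv)) ?_ (RI.stay D hmono y hv true)
      rw [if_pos hv]
      simp only [Bool.false_eq_true, if_false, if_true]
      linarith
    · refine hGM D y 1 0 (-1) false false hy (fun _ => Or.inr h) (fun _ => Or.inl rfl)
        (Or.inr (Or.inl hv)) ?_ (RI.stay D hmono y hv false)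
      rw [if_pos hv]
      simp only [Bool.false_eq_true, if_false]
      linarith
  · intro hLR haL hw hxi hze
    have hv : y.2.2.1 = 0 := by
      have h1 := hy.2.2.2.1
      rw [hLR, sub_self] at h1
      exact abs_nonpos_iff.1 h1
    have hDL : D.DL y.1 y.2.1 y.2.2.1 = D.f y.1 - D.g y.1 := by
      unfold Dat.DL pp mm
      rw [hv, ← hLR]
      simp
    have hDR : D.DR y.1 y.2.1 y.2.2.1 = D.g y.1 - D.f y.1 := by
      unfold Dat.DR pp mm
      rw [hv, ← hLR]
      simp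
    refine hGM D y (-1) (-1) 0 true false hy (fun h => by simp at h) (fun _ => Or.inr hze)
      (Or.inl rfl) ?_ ?_
    · rw [hDL, hDR]
      simp only [Bool.false_eq_true, if_false, if_true]
      linarith
    · have hc := Metric.continuous_iff.1 hcal y.1 (y.2.2.2.1 / 4) (by linarith)
      obtain ⟨δ, hδ, hc⟩ := hc
      obtain ⟨ε, hε⟩ : ∃ ε, ε = min (min (δ / 2) ((y.1 - D.a) / 2)) (y.2.2.2.1 / 4) := ⟨_, rfl⟩
      have e1 : ε ≤ δ / 2 := by rw [hε]; exact (min_le_left _ _).trans (min_le_left _ _)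
      have e2 : ε ≤ (y.1 - D.a) / 2 := by rw [hε]; exact (min_le_left _ _).trans (min_le_right _ _)
      have e3 : ε ≤ y.2.2.2.1 / 4 := by rw [hε]; exact min_le_right _ _
      refine ⟨ε, ?_, ?_⟩
      · rw [hε]
        refine lt_min (lt_min ?_ ?_) ?_ <;> linarith
      rintro z ⟨h1, h2, h3, h4, h5, h6⟩ hz τ ⟨ht0, ht1⟩
      obtain ⟨n1, -, -, n4, -⟩ := RI.near hz
      have n1' := abs_lt.1 n1
      have n4' := abs_lt.1 n4
      refine ⟨?_, ?_, ?_, ?_, ?_, ?_⟩
      · show D.a ≤ z.1 + (-1) * τ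
        linarith [n1'.1]
      · show z.1 + (-1) * τ ≤ z.2.1 + (-1) * τ
        linarith
      · show z.2.1 + (-1) * τ ≤ D.b
        linarith
      · show |z.2.2.1 + 0 * τ| ≤ z.2.1 + (-1) * τ - (z.1 + (-1) * τ)
        rw [zero_mul, add_zero]
        linarith
      · show 0 ≤ z.2.2.2.1 + (if true = true then D.al (z.1 + (-1) * τ) - D.al z.1 else 0)
        rw [if_pos rfl]
        have c1 := hc z.1 (by rw [Real.dist_eq]; linarith)
        have c2 := hc (z.1 + (-1) * τ) (by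
          rw [Real.dist_eq, abs_lt]
          constructor <;> linarith [n1'.1, n1'.2])
        rw [Real.dist_eq, abs_lt] at c1 c2
        linarith [c1.1, c1.2, c2.1, c2.2, n4'.1]
      · show 0 ≤ z.2.2.2.2 + (if false = true then _ else 0)
        simpa using h6

end Pool.Agent.T2h56.TG
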