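import Pool.Agent.T2h56.TG.Stm

/-! SD (helper1). -/

set_option autoImplicit false

namespace Pool.Agent.T2h56.TG

open Set

lemma sd_int {f : ℝ → ℝ} (hf : Continuous f) (a x0 : ℝ) {ε : ℝ} (hε : 0 < ε) :
    ∃ δ > 0, ∀ x x' : ℝ, |x - x0| < δ → |x' - x0| < δ →
      |(∫ t in a..x', f t) - (∫ t in a..x, f t) - f x0 * (x' - x)| ≤ ε * |x' - x| := by
  have h1 : HasStrictDerivAt (fun u => ∫ t in a..u, f t) (f x0) x0 :=
    intervalIntegral.integral_hasStrictDerivAt_right (hf.intervalIntegrable _ _)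
      hf.stronglyMeasurable.stronglyMeasurableAtFilter hf.continuousAt
  have h2 := h1.isLittleO.def hε
  obtain ⟨δ, hδ, h3⟩ := Metric.eventually_nhds_iff.1 h2
  refine ⟨δ, hδ, fun x x' hx hx' => ?_⟩
  have h4 := h3 (y := (x', x)) (by
    rw [Prod.dist_eq, Real.dist_eq, Real.dist_eq]
    exact max_lt hx' hx)
  simp only [ContinuousLinearMap.toSpanSingleton_apply, Real.norm_eq_abs, smul_eq_mul] at h4
  rw [mul_comm (f x0)]
  exact h4

lemma abs_pp (v v' : ℝ) : |pp v' - pp v| ≤ |v' - v| := by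
  unfold pp
  exact abs_max_sub_max_le_abs _ _ _

lemma abs_mm (v v' : ℝ) : |mm v' - mm v| ≤ |v' - v| := by
  unfold mm
  refine (abs_max_sub_max_le_abs _ _ _).trans ?_
  rw [neg_sub_neg, abs_sub_comm]

lemma pm_abs (v : ℝ) : |v| = pp v + mm v := by
  unfold pp mm
  rcases le_total 0 v with h | h
  · rw [abs_of_nonneg h, max_eq_left h, max_eq_right (by linarith)]
    ring
  · rw [abs_of_nonpos h, max_eq_right h, max_eq_left (by linarith)]
    ring

lemma pm_sq (v : ℝ) : v ^ 2 = pp v ^ 2 + mm v ^ 2 := by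
  unfold pp mm
  rcases le_total 0 v with h | h
  · rw [max_eq_left h, max_eq_right (by linarith)]
    ring
  · rw [max_eq_right h, max_eq_left (by linarith)]
    ring

/-- the quadratic part -/
lemma sd_quad {r : ℝ} (hr : 0 < r) {δ T : ℝ} (hδ : 0 ≤ δ) (hT : 0 ≤ T)
    {s s' s0 p p' p0 m m' m0 : ℝ} (hs : |s - s0| ≤ 3 * δ) (hs' : |s' - s0| ≤ 3 * δ)
    (hp : |p - p0| ≤ δ) (hp' : |p' - p0| ≤ δ) (hm : |m - m0| ≤ δ) (hm' : |m' - m0| ≤ δ)
    (ds : |s' - s| ≤ T) (dp : |p' - p| ≤ T) (dm : |m' - m| ≤ T) :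
    |(-(s' ^ 2 / r - r * (p' ^ 2 + m' ^ 2)) / 2) - (-(s ^ 2 / r - r * (p ^ 2 + m ^ 2)) / 2) -
      (-(s0 / r) * (s' - s) + r * p0 * (p' - p) + r * m0 * (m' - m))| ≤
      δ * (3 / r + 2 * r) * T := by
  have e : (-(s' ^ 2 / r - r * (p' ^ 2 + m' ^ 2)) / 2) - (-(s ^ 2 / r - r * (p ^ 2 + m ^ 2)) / 2) -
      (-(s0 / r) * (s' - s) + r * p0 * (p' - p) + r * m0 * (m' - m)) =
      -((s' - s) * ((s' - s0) + (s - s0)) / (2 * r)) + r * ((p' - p) * ((p' - p0) + (p - p0))) / 2 +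
        r * ((m' - m) * ((m' - m0) + (m - m0))) / 2 := by
    field_simp
    ring
  have prod : ∀ {x y A B : ℝ}, |x| ≤ A → |y| ≤ B → |x * y| ≤ A * B := by
    intro x y A B hx hy
    rw [abs_mul]
    exact mul_le_mul hx hy (abs_nonneg _) ((abs_nonneg _).trans hx)
  have b1 : |(s' - s) * ((s' - s0) + (s - s0)) / (2 * r)| ≤ T * (6 * δ) / (2 * r) := by
    rw [abs_div, abs_of_pos (show 0 < 2 * r by linarith)]
    refine div_le_div_of_nonneg_right (prod ds ?_) (by linarith)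
    refine (abs_add_le _ _).trans (by linarith)
  have b2 : |r * ((p' - p) * ((p' - p0) + (p - p0))) / 2| ≤ r * (T * (2 * δ)) / 2 := by
    rw [abs_div, abs_of_pos (show (0 : ℝ) < 2 by norm_num), abs_mul, abs_of_pos hr]
    refine div_le_div_of_nonneg_right (mul_le_mul_of_nonneg_left (prod dp ?_) hr.le) (by norm_num)
    refine (abs_add_le _ _).trans (by linarith)
  have b3 : |r * ((m' - m) * ((m' - m0) + (m - m0))) / 2| ≤ r * (T * (2 * δ)) / 2 := by
    rw [abs_div, abs_of_pos (show (0 : ℝ) < 2 by norm_num), abs_mul, abs_of_pos hr]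
    refine div_le_div_of_nonneg_right (mul_le_mul_of_nonneg_left (prod dm ?_) hr.le) (by norm_num)
    refine (abs_add_le _ _).trans (by linarith)
  rw [e]
  refine (abs_add_three _ _ _).trans ?_
  rw [abs_neg]
  have e2 : T * (6 * δ) / (2 * r) + r * (T * (2 * δ)) / 2 + r * (T * (2 * δ)) / 2 =
      δ * (3 / r + 2 * r) * T := by
    field_simp
    ring
  rw [← e2]
  linarith

theorem t_SD : S_SD := by
  intro D L0 R0 v0 ε hε
  have hr := D.r0
  have hε8 : 0 < ε / 8 := by linarith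
  obtain ⟨d1, hd1, h1⟩ := sd_int D.cf D.a (L0 + mm v0) hε8
  obtain ⟨d2, hd2, h2⟩ := sd_int D.cf D.a (R0 - pp v0) hε8
  obtain ⟨d3, hd3, h3⟩ := sd_int D.cg D.a (R0 - mm v0) hε8
  obtain ⟨d4, hd4, h4⟩ := sd_int D.cg D.a (L0 + pp v0) hε8
  have hc : 0 < 3 / D.r + 2 * D.r := by positivity
  obtain ⟨δ, hδ, k1, k2, k3, k4, k5⟩ : ∃ δ > 0, 2 * δ ≤ d1 ∧ 2 * δ ≤ d2 ∧ 2 * δ ≤ d3 ∧
      2 * δ ≤ d4 ∧ δ * (3 / D.r + 2 * D.r) ≤ ε / 2 := by
    refine ⟨min (min (min (d1 / 2) (d2 / 2)) (min (d3 / 2) (d4 / 2)))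
      (ε / 2 / (3 / D.r + 2 * D.r)), ?_, ?_, ?_, ?_, ?_, ?_⟩
    · positivity
    · have : min (min (min (d1 / 2) (d2 / 2)) (min (d3 / 2) (d4 / 2)))
        (ε / 2 / (3 / D.r + 2 * D.r)) ≤ d1 / 2 :=
        (min_le_left _ _).trans ((min_le_left _ _).trans (min_le_left _ _))
      linarith
    · have : min (min (min (d1 / 2) (d2 / 2)) (min (d3 / 2) (d4 / 2)))
        (ε / 2 / (3 / D.r + 2 * D.r)) ≤ d2 / 2 :=
        (min_le_left _ _).trans ((min_le_left _ _).trans (min_le_right _ _))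
      linarith
    · have : min (min (min (d1 / 2) (d2 / 2)) (min (d3 / 2) (d4 / 2)))
        (ε / 2 / (3 / D.r + 2 * D.r)) ≤ d3 / 2 :=
        (min_le_left _ _).trans ((min_le_right _ _).trans (min_le_left _ _))
      linarith
    · have : min (min (min (d1 / 2) (d2 / 2)) (min (d3 / 2) (d4 / 2)))
        (ε / 2 / (3 / D.r + 2 * D.r)) ≤ d4 / 2 :=
        (min_le_left _ _).trans ((min_le_right _ _).trans (min_le_right _ _))
      linarith
    · exact (le_div_iff₀ hc).1 (min_le_right _ _)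
  refine ⟨δ, hδ, fun L R v L' R' v' hL hR hv hL' hR' hv' => ?_⟩
  set T := |L' - L| + |R' - R| + |v' - v| with hT
  have hT0 : 0 ≤ T := by positivity
  have dp := abs_pp v v'
  have dm := abs_mm v v'
  have p0 := abs_pp v0 v
  have m0 := abs_mm v0 v
  have p0' := abs_pp v0 v'
  have m0' := abs_mm v0 v'
  have nL := abs_nonneg (L' - L)
  have nR := abs_nonneg (R' - R)
  have nv := abs_nonneg (v' - v)
  have add2 : ∀ {x y A B : ℝ}, |x| ≤ A → |y| ≤ B → |x + y| ≤ A + B := fun hx hy =>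
    (abs_add_le _ _).trans (add_le_add hx hy)
  have sub2 : ∀ {x y A B : ℝ}, |x| ≤ A → |y| ≤ B → |x - y| ≤ A + B := fun hx hy =>
    (abs_sub _ _).trans (add_le_add hx hy)
  -- the four increments
  have i1 : |(L' + mm v') - (L + mm v)| ≤ T := by
    have : (L' + mm v') - (L + mm v) = (L' - L) + (mm v' - mm v) := by ring
    rw [this]
    exact (add2 le_rfl dm).trans (by linarith)
  have i2 : |(R' - pp v') - (R - pp v)| ≤ T := by
    have : (R' - pp v') - (R - pp v) = (R' - R) - (pp v' - pp v) := by ring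
    rw [this]
    exact (sub2 le_rfl dp).trans (by linarith)
  have i3 : |(R' - mm v') - (R - mm v)| ≤ T := by
    have : (R' - mm v') - (R - mm v) = (R' - R) - (mm v' - mm v) := by ring
    rw [this]
    exact (sub2 le_rfl dm).trans (by linarith)
  have i4 : |(L' + pp v') - (L + pp v)| ≤ T := by
    have : (L' + pp v') - (L + pp v) = (L' - L) + (pp v' - pp v) := by ring
    rw [this]
    exact (add2 le_rfl dp).trans (by linarith)
  have near : ∀ {x y x0 y0 : ℝ}, |x - x0| < δ → |y - y0| ≤ |v - v0| ∨ |y - y0| ≤ |v' - v0| →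
      |(x + y) - (x0 + y0)| < 2 * δ ∧ |(x - y) - (x0 - y0)| < 2 * δ := by
    intro x y x0 y0 hx hy
    have hy' : |y - y0| < δ := by
      rcases hy with hy | hy
      · linarith
      · linarith
    constructor
    · have : (x + y) - (x0 + y0) = (x - x0) + (y - y0) := by ring
      rw [this]
      exact lt_of_le_of_lt (abs_add_le _ _) (by linarith)
    · have : (x - y) - (x0 - y0) = (x - x0) - (y - y0) := by ring
      rw [this]
      exact lt_of_le_of_lt (abs_sub _ _) (by linarith)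
  have j1 := h1 (L + mm v) (L' + mm v')
    (lt_of_lt_of_le (near hL (Or.inl m0)).1 k1) (lt_of_lt_of_le (near hL' (Or.inr m0')).1 k1)
  have j2 := h2 (R - pp v) (R' - pp v')
    (lt_of_lt_of_le (near hR (Or.inl p0)).2 k2) (lt_of_lt_of_le (near hR' (Or.inr p0')).2 k2)
  have j3 := h3 (R - mm v) (R' - mm v')
    (lt_of_lt_of_le (near hR (Or.inl m0)).2 k3) (lt_of_lt_of_le (near hR' (Or.inr m0')).2 k3)
  have j4 := h4 (L + pp v) (L' + pp v')
    (lt_of_lt_of_le (near hL (Or.inl p0)).1 k4) (lt_of_lt_of_le (near hL' (Or.inr p0')).1 k4)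
  have j1' := j1.trans (mul_le_mul_of_nonneg_left i1 hε8.le)
  have j2' := j2.trans (mul_le_mul_of_nonneg_left i2 hε8.le)
  have j3' := j3.trans (mul_le_mul_of_nonneg_left i3 hε8.le)
  have j4' := j4.trans (mul_le_mul_of_nonneg_left i4 hε8.le)
  -- the quadratic part
  have qs : ∀ {A B V : ℝ}, |A - L0| < δ → |B - R0| < δ → |V - v0| < δ →
      |(B - A - |V|) - (R0 - L0 - |v0|)| ≤ 3 * δ := by
    intro A B V hA hB hV
    have e1 : (B - A - |V|) - (R0 - L0 - |v0|) = (B - R0) - (A - L0) - (|V| - |v0|) := by ring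
    rw [e1]
    have e2 := abs_abs_sub_abs_le V v0
    exact (sub2 (sub2 le_rfl le_rfl) e2).trans (by linarith)
  have q1 : |(R' - L' - |v'|) - (R - L - |v|)| ≤ T := by
    have e1 : (R' - L' - |v'|) - (R - L - |v|) = (R' - R) - (L' - L) - (|v'| - |v|) := by ring
    rw [e1]
    have e2 := abs_abs_sub_abs_le v' v
    exact (sub2 (sub2 le_rfl le_rfl) e2).trans (by linarith)
  have Q := sd_quad hr hδ.le hT0 (qs hL hR hv) (qs hL' hR' hv')
    (p0.trans hv.le) (p0'.trans hv'.le) (m0.trans hv.le) (m0'.trans hv'.le) q1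
    (dp.trans (by linarith)) (dm.trans (by linarith))
  have Q' := Q.trans (mul_le_mul_of_nonneg_right k5 hT0)
  -- sum up
  have key : D.Psi L' R' v' - D.Psi L R v - (D.DL L0 R0 v0 * (L' - L) + D.DR L0 R0 v0 * (R' - R) +
      D.DP L0 R0 v0 * (pp v' - pp v) + D.DM L0 R0 v0 * (mm v' - mm v)) =
      ((D.F (L' + mm v') - D.F (L + mm v) -
        D.f (L0 + mm v0) * ((L' + mm v') - (L + mm v))) -
      (D.F (R' - pp v') - D.F (R - pp v) -
        D.f (R0 - pp v0) * ((R' - pp v') - (R - pp v)))) +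
      ((D.G (R' - mm v') - D.G (R - mm v) -
        D.g (R0 - mm v0) * ((R' - mm v') - (R - mm v))) -
      (D.G (L' + pp v') - D.G (L + pp v) -
        D.g (L0 + pp v0) * ((L' + pp v') - (L + pp v)))) +
      ((-((R' - L' - |v'|) ^ 2 / D.r - D.r * (pp v' ^ 2 + mm v' ^ 2)) / 2) -
        (-((R - L - |v|) ^ 2 / D.r - D.r * (pp v ^ 2 + mm v ^ 2)) / 2) -
      (-((R0 - L0 - |v0|) / D.r) * ((R' - L' - |v'|) - (R - L - |v|)) +
        D.r * pp v0 * (pp v' - pp v) + D.r * mm v0 * (mm v' - mm v))) := by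
    unfold Dat.Psi Dat.DL Dat.DR Dat.DP Dat.DM
    rw [pm_sq v, pm_sq v', pm_abs v, pm_abs v', pm_abs v0]
    ring
  rw [key]
  refine (add2 (add2 (sub2 j1' j2') (sub2 j3' j4')) Q').trans ?_
  have : 0 ≤ ε * T := by positivity
  linarith

end Pool.Agent.T2h56.TG
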