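import Pool.Agent.T2h56.TG.Stm

/-! TWO (helper1). -/

set_option autoImplicit false

namespace Pool.Agent.T2h56.TG

open Set

/-- the rectangle of a point `y` -/
lemma two_rect (D : Dat) {y : Pt} (hy : y ∈ D.Y) (hR : D.Rect y) :
    ∃ P : Fin 4 → ℂ, (∀ j, (P j).re ∈ Icc D.a D.b ∧
      ((P j).im = D.f (P j).re ∨ (P j).im = D.g (P j).re)) ∧
    P 1 ≠ P 0 ∧ P 2 = P 1 + D.r * Complex.I * (P 1 - P 0) ∧
    P 3 = P 0 + D.r * Complex.I * (P 1 - P 0) := by
  obtain ⟨L, R, v, ξ, ζ⟩ := y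
  obtain ⟨h1, -, h3, h4, -, -⟩ := hy
  obtain ⟨h5, lam, mu, hlam, hmu, hcase⟩ := hR
  simp only at h1 h3 h4 h5 hlam hmu hcase
  have hr := D.r0
  have hr' : D.r ≠ 0 := hr.ne'
  rcases hcase with ⟨hv, e1, e2, e3⟩ | ⟨hv, e1, e2, e3⟩
  · rw [abs_of_nonneg hv] at h4
    refine ⟨![⟨R - v, lam - D.r * v⟩, ⟨R, mu⟩, ⟨L + v, lam + (R - L - v) / D.r⟩, ⟨L, lam⟩],
      ?_, ?_, ?_, ?_⟩
    · intro j
      fin_cases j
      · exact ⟨⟨by show D.a ≤ R - v; linarith, by show R - v ≤ D.b; linarith⟩, Or.inl e2.symm⟩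
      · exact ⟨⟨by show D.a ≤ R; linarith, h3⟩, hmu⟩
      · exact ⟨⟨by show D.a ≤ L + v; linarith, by show L + v ≤ D.b; linarith⟩, Or.inr e1.symm⟩
      · exact ⟨⟨h1, by show L ≤ D.b; linarith⟩, hlam⟩
    · intro h
      have h6 : (⟨R, mu⟩ : ℂ) = ⟨R - v, lam - D.r * v⟩ := h
      rw [Complex.mk.injEq] at h6
      have hv0 : v = 0 := by linarith [h6.1]
      have h7 := h6.2
      rw [e3, hv0] at h7
      have h8 : (R - L - 0) / D.r = 0 := by linarith
      rcases div_eq_zero_iff.1 h8 with h9 | h9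
      · linarith
      · exact hr' h9
    · show (⟨L + v, lam + (R - L - v) / D.r⟩ : ℂ) =
        ⟨R, mu⟩ + D.r * Complex.I * ((⟨R, mu⟩ : ℂ) - ⟨R - v, lam - D.r * v⟩)
      rw [e3]
      apply Complex.ext
      · simp
        field_simp
        ring
      · simp
    · show (⟨L, lam⟩ : ℂ) =
        ⟨R - v, lam - D.r * v⟩ + D.r * Complex.I * ((⟨R, mu⟩ : ℂ) - ⟨R - v, lam - D.r * v⟩)
      rw [e3]
      apply Complex.ext
      · simp
        field_simp
        ring
      · simp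
  · rw [abs_of_nonpos hv] at h4
    refine ⟨![⟨L, lam⟩, ⟨L - v, lam - (R - L + v) / D.r⟩, ⟨R, mu⟩, ⟨R + v, lam - D.r * v⟩],
      ?_, ?_, ?_, ?_⟩
    · intro j
      fin_cases j
      · exact ⟨⟨h1, by show L ≤ D.b; linarith⟩, hlam⟩
      · exact ⟨⟨by show D.a ≤ L - v; linarith, by show L - v ≤ D.b; linarith⟩, Or.inl e1.symm⟩
      · exact ⟨⟨by show D.a ≤ R; linarith, h3⟩, hmu⟩
      · exact ⟨⟨by show D.a ≤ R + v; linarith, by show R + v ≤ D.b; linarith⟩, Or.inr e2.symm⟩
    · intro h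
      have h6 : (⟨L - v, lam - (R - L + v) / D.r⟩ : ℂ) = ⟨L, lam⟩ := h
      rw [Complex.mk.injEq] at h6
      have hv0 : v = 0 := by linarith [h6.1]
      have h7 := h6.2
      rw [hv0] at h7
      have h8 : (R - L + 0) / D.r = 0 := by linarith
      rcases div_eq_zero_iff.1 h8 with h9 | h9
      · linarith
      · exact hr' h9
    · show (⟨R, mu⟩ : ℂ) = ⟨L - v, lam - (R - L + v) / D.r⟩ +
        D.r * Complex.I * ((⟨L - v, lam - (R - L + v) / D.r⟩ : ℂ) - ⟨L, lam⟩)
      rw [e3]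
      apply Complex.ext
      · simp
        field_simp
        ring
      · simp
        ring
    · show (⟨R + v, lam - D.r * v⟩ : ℂ) = ⟨L, lam⟩ +
        D.r * Complex.I * ((⟨L - v, lam - (R - L + v) / D.r⟩ : ℂ) - ⟨L, lam⟩)
      apply Complex.ext
      · simp
        field_simp
        ring
      · simp
        ring

theorem t_TWO (hC : S_CORE) : S_TWO := by
  intro a b r f g hab hr hf hg ea eb hfg
  -- the extended functions
  let f' : ℝ → ℝ := IccExtend hab.le ((Icc a b).domRestrict f)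
  let g' : ℝ → ℝ := IccExtend hab.le ((Icc a b).domRestrict g)
  have hf' : Continuous f' := (continuousOn_iff_continuous_domRestrict.1 hf).Icc_extend'
  have hg' : Continuous g' := (continuousOn_iff_continuous_domRestrict.1 hg).Icc_extend'
  have ff : ∀ x ∈ Icc a b, f' x = f x := fun x hx => IccExtend_of_mem _ _ hx
  have gg : ∀ x ∈ Icc a b, g' x = g x := fun x hx => IccExtend_of_mem _ _ hx
  have ha : a ∈ Icc a b := ⟨le_rfl, hab.le⟩
  have hb : b ∈ Icc a b := ⟨hab.le, le_rfl⟩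
  let D : Dat := {
    a := a
    b := b
    r := r
    f := f'
    g := g'
    ab := hab
    r0 := hr
    cf := hf'
    cg := hg'
    fg := by
      intro x hx
      rw [ff x hx, gg x hx]
      rcases eq_or_lt_of_le hx.1 with h1 | h1
      · rw [← h1, ea]
      · rcases eq_or_lt_of_le hx.2 with h2 | h2
        · rw [h2, eb]
        · exact (hfg x ⟨h1, h2⟩).le
    ea := by rw [ff a ha, gg a ha, ea]
    eb := by rw [ff b hb, gg b hb, eb] }
  obtain ⟨x0, hx0⟩ : ∃ x0, x0 = (a + b) / 2 := ⟨_, rfl⟩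
  have hx0m : x0 ∈ Ioo a b := by
    rw [hx0]
    constructor <;> linarith
  have hx0m' : x0 ∈ Icc a b := Ioo_subset_Icc_self hx0m
  obtain ⟨h, hh⟩ : ∃ h, h = (g' x0 - f' x0) / 4 := ⟨_, rfl⟩
  have hh0 : 0 < h := by
    rw [hh, ff x0 hx0m', gg x0 hx0m']
    have := hfg x0 hx0m
    linarith
  obtain ⟨d1, hd1, hf1⟩ := Metric.continuousAt_iff.1 (hf'.continuousAt (x := x0)) h hh0
  obtain ⟨d2, hd2, hg1⟩ := Metric.continuousAt_iff.1 (hg'.continuousAt (x := x0)) h hh0
  obtain ⟨δ, hδ, k1, k2, k3, k4, k5⟩ : ∃ δ > 0, δ < d1 ∧ δ < d2 ∧ δ ≤ (b - a) / 2 ∧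
      δ ≤ h * r ∧ r * δ ≤ h := by
    refine ⟨min (min (d1 / 2) (d2 / 2)) (min ((b - a) / 2) (min (h * r) (h / r))), ?_, ?_, ?_, ?_,
      ?_, ?_⟩
    · have : 0 < (b - a) / 2 := by linarith
      positivity
    · exact lt_of_le_of_lt ((min_le_left _ _).trans (min_le_left _ _)) (by linarith)
    · exact lt_of_le_of_lt ((min_le_left _ _).trans (min_le_right _ _)) (by linarith)
    · exact (min_le_right _ _).trans (min_le_left _ _)
    · exact (min_le_right _ _).trans ((min_le_right _ _).trans (min_le_left _ _))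
    · rw [mul_comm]
      exact (le_div_iff₀ hr).1
        ((min_le_right _ _).trans ((min_le_right _ _).trans (min_le_right _ _)))
  have hbox : ∀ x ∈ Icc (x0 - δ) (x0 + δ),
      f' x ≤ (f' x0 + g' x0) / 2 - h ∧ (f' x0 + g' x0) / 2 + h ≤ g' x := by
    intro x hx
    have hd : |x - x0| ≤ δ := abs_le.2 ⟨by linarith [hx.1], by linarith [hx.2]⟩
    have a1 := hf1 (x := x) (by rw [Real.dist_eq]; linarith)
    have a2 := hg1 (x := x) (by rw [Real.dist_eq]; linarith)
    rw [Real.dist_eq, abs_lt] at a1 a2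
    constructor
    · linarith [a1.2]
    · linarith [a2.1]
  have hmin : 0 < min (h * δ) (r * δ ^ 2 / 2) := by positivity
  obtain ⟨y, hy, hrect, -⟩ := hC D x0 ((f' x0 + g' x0) / 2) δ h (min (h * δ) (r * δ ^ 2 / 2) / 2)
    hδ hh0 (by show a ≤ x0 - δ; rw [hx0]; linarith) (by show x0 + δ ≤ b; rw [hx0]; linarith)
    hbox k4 k5 (by linarith) (by show _ < min (h * δ) (r * δ ^ 2 / 2); linarith) (by
      intro m hm hgm
      have hm1 : m ∈ Icc a b := hm
      have hgm1 : g' m = f' m := hgm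
      rw [ff m hm1, gg m hm1] at hgm1
      rcases eq_or_lt_of_le hm1.1 with h1 | h1
      · left
        have : D.al m = 0 := by
          rw [← h1]
          show (∫ t in a..a, g' t) - (∫ t in a..a, f' t) = 0
          rw [intervalIntegral.integral_same, intervalIntegral.integral_same, sub_zero]
        rw [this]
        linarith
      · rcases eq_or_lt_of_le hm1.2 with h2 | h2
        · right
          have : D.be m = 0 := by
            rw [h2]
            show D.al b - D.al b = 0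
            rw [sub_self]
          rw [this]
          linarith
        · exact absurd hgm1 (hfg m ⟨h1, h2⟩).ne')
  obtain ⟨P, hP, h1, h2, h3⟩ := two_rect D hy hrect
  refine ⟨P, fun j => ?_, h1, h2, h3⟩
  obtain ⟨hj, hj'⟩ := hP j
  have hj1 : (P j).re ∈ Icc a b := hj
  refine ⟨hj1, ?_⟩
  rw [← ff _ hj1, ← gg _ hj1]
  exact hj'

end Pool.Agent.T2h56.TG
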