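import Pool.Agent.T2h56.TG.T_PUSH
import Pool.Agent.T2h56.TG.T_DEF
import Pool.Agent.T2h56.TG.T_SD
import Pool.Agent.T2h56.TG.T_AL
import Pool.Agent.T2h56.TG.T_GM
import Pool.Agent.T2h56.TG.T_A1
import Pool.Agent.T2h56.TG.T_RA
import Pool.Agent.T2h56.TG.T_RG
import Pool.Agent.T2h56.TG.T_RI
import Pool.Agent.T2h56.TG.T_MIR
import Pool.Agent.T2h56.TG.T_REF
import Pool.Agent.T2h56.TG.T_CRIT
import Pool.Agent.T2h56.TG.T_KP
import Pool.Agent.T2h56.TG.T_QM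
import Pool.Agent.T2h56.TG.T_DISC
import Pool.Agent.T2h56.TG.T_CMP
import Pool.Agent.T2h56.TG.T_CORE
import Pool.Agent.T2h56.TG.T_TWO

/-! The theorem on two graphs, assembled. -/

set_option autoImplicit false

namespace Pool.Agent.T2h56.TG

theorem gm : S_GM := t_GM t_SD t_AL
theorem ra : S_RA := t_RA gm t_AL
theorem rg : S_RG := t_RG gm
theorem ri : S_RI := t_RI gm t_AL
theorem a1 : S_A1 := t_A1 t_SD t_AL
theorem crit : S_CRIT := t_CRIT t_AL a1 ra rg ri t_MIR t_REF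
theorem core : S_CORE := t_CORE t_PUSH (t_DEF t_PUSH) t_AL rg t_REF crit (t_KP t_AL) (t_QM t_AL)
  (t_DISC t_AL) (t_CMP t_AL)
theorem two : S_TWO := t_TWO core

end Pool.Agent.T2h56.TG
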