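import Pool.Agent.T2h56.TG.Stm2

/-! UARC: the sheared arc is a graph. -/

set_option autoImplicit false

namespace Pool.Agent.T2h56.TG

open Set Filter

theorem t_UARC : S_UARC := by
  intro a ha hm e he
  obtain ⟨cl, hcl⟩ : ∃ cl : ℝ → ℝ, cl = fun s => max 0 (min s 1) := ⟨_, rfl⟩
  have hclc : Continuous cl := by
    rw [hcl]
    exact continuous_const.max (continuous_id.min continuous_const)
  have hcl01 : ∀ s, cl s ∈ Icc (0:ℝ) 1 := by
    intro s
    rw [hcl]
    exact ⟨le_max_left _ _, max_le zero_le_one (min_le_right _ _)⟩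
  have hclm : Monotone cl := by
    intro s t hst
    rw [hcl]
    exact max_le_max le_rfl (min_le_min hst le_rfl)
  have hclid : ∀ s ∈ Icc (0:ℝ) 1, cl s = s := by
    intro s hs
    rw [hcl]
    simp only
    rw [min_eq_left hs.2, max_eq_right hs.1]
  have h01 : (0:ℝ) ∈ Icc (0:ℝ) 1 := ⟨le_rfl, zero_le_one⟩
  have h11 : (1:ℝ) ∈ Icc (0:ℝ) 1 := ⟨zero_le_one, le_rfl⟩
  obtain ⟨X, hX⟩ : ∃ X : ℝ → ℝ, X = fun s => (a (cl s)).re + e * s := ⟨_, rfl⟩
  have hXc : Continuous X := by
    rw [hX]
    exact (Complex.continuous_re.comp (ha.comp hclc)).add (continuous_const.mul continuous_id)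
  have hXm : StrictMono X := by
    intro s t hst
    rw [hX]
    have h1 : (a (cl s)).re ≤ (a (cl t)).re := hm (hcl01 s) (hcl01 t) (hclm hst.le)
    have h2 : e * s < e * t := mul_lt_mul_of_pos_left hst he
    simp only
    linarith
  have hlow : ∀ s, (a 0).re ≤ (a (cl s)).re := fun s => hm h01 (hcl01 s) (hcl01 s).1
  have hup : ∀ s, (a (cl s)).re ≤ (a 1).re := fun s => hm (hcl01 s) h11 (hcl01 s).2
  have htop : Tendsto X atTop atTop := by
    have h1 : Tendsto (fun s : ℝ => (a 0).re + e * s) atTop atTop :=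
      tendsto_atTop_add_const_left _ _ (tendsto_id.const_mul_atTop he)
    refine tendsto_atTop_mono (fun s => ?_) h1
    rw [hX]
    have := hlow s
    simp only
    linarith
  have hbot : Tendsto X atBot atBot := by
    have h1 : Tendsto (fun s : ℝ => (a 1).re + e * s) atBot atBot :=
      tendsto_atBot_add_const_left _ _ (tendsto_id.const_mul_atBot he)
    refine tendsto_atBot_mono (fun s => ?_) h1
    rw [hX]
    have := hup s
    simp only
    linarith
  have hXs : Function.Surjective X := hXc.surjective htop hbot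
  obtain ⟨I, hI⟩ : ∃ I : ℝ ≃o ℝ, I = hXm.orderIsoOfSurjective X hXs := ⟨_, rfl⟩
  have hIX : ∀ s, I s = X s := fun s => by rw [hI]; rfl
  have hXI : ∀ x, X (I.symm x) = x := fun x => by rw [← hIX, I.apply_symm_apply]
  have hIc : Continuous I.symm := I.symm.continuous
  have hX0 : X 0 = (a 0).re := by
    rw [hX]
    simp only
    rw [hclid 0 h01]
    ring
  have hX1 : X 1 = (a 1).re + e := by
    rw [hX]
    simp only
    rw [hclid 1 h11]
    ring
  have hS : ∀ x ∈ Icc (a 0).re ((a 1).re + e), I.symm x ∈ Icc (0:ℝ) 1 := by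
    intro x hx
    constructor
    · rw [← hXm.le_iff_le, hX0, hXI]
      exact hx.1
    · rw [← hXm.le_iff_le, hX1, hXI]
      exact hx.2
  have hinv : ∀ s, I.symm (X s) = s := fun s => by rw [← hIX, I.symm_apply_apply]
  refine ⟨fun x => (a (cl (I.symm x))).im, ⟨?_, fun x hx => ⟨I.symm x, hS x hx, ?_, ?_⟩⟩, ?_, ?_⟩
  · exact Complex.continuous_im.comp (ha.comp (hclc.comp hIc))
  · have h1 := hXI x
    rw [hX] at h1
    simp only at h1
    rw [hclid _ (hS x hx)] at h1
    exact h1.symm
  · simp only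
    rw [hclid _ (hS x hx)]
  · simp only
    rw [← hX0, hinv, hclid 0 h01]
  · simp only
    rw [← hX1, hinv, hclid 1 h11]

end Pool.Agent.T2h56.TG
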