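import Pool.Agent.T2h56.TG.Stm2

/-! UBOX: there is a box separating the arcs. -/

set_option autoImplicit false

namespace Pool.Agent.T2h56.TG

open Set

lemma ubox_low (a : ℝ → ℂ) (ha : Continuous a) (x0 t : ℝ)
    (h : ∀ s ∈ Icc (0:ℝ) 1, (a s).re = x0 → (a s).im < t) :
    ∃ ρ > 0, ∀ s ∈ Icc (0:ℝ) 1, |(a s).re - x0| ≤ ρ → (a s).im ≤ t := by
  obtain ⟨K, hK⟩ : ∃ K : Set ℝ, K = Icc (0:ℝ) 1 ∩ {s | t ≤ (a s).im} := ⟨_, rfl⟩
  have hKc : IsCompact K := by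
    rw [hK]
    exact isCompact_Icc.inter_right (isClosed_le continuous_const (Complex.continuous_im.comp ha))
  have hf : Continuous (fun s => |(a s).re - x0|) :=
    ((Complex.continuous_re.comp ha).sub continuous_const).abs
  rcases K.eq_empty_or_nonempty with he | hne
  · refine ⟨1, one_pos, fun s hs _ => ?_⟩
    by_contra hcon
    rw [not_le] at hcon
    have : s ∈ K := by
      rw [hK]
      exact ⟨hs, hcon.le⟩
    rw [he] at this
    exact absurd this (notMem_empty _)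
  · obtain ⟨p, hp, hmin⟩ := hKc.exists_isMinOn hne hf.continuousOn
    have hp0 : 0 < |(a p).re - x0| := by
      rw [abs_pos, sub_ne_zero]
      intro heq
      rw [hK] at hp
      have h1 := h p hp.1 heq
      have h2 : t ≤ (a p).im := hp.2
      linarith
    refine ⟨|(a p).re - x0| / 2, half_pos hp0, fun s hs h1 => ?_⟩
    by_contra hcon
    rw [not_le] at hcon
    have h2 : s ∈ K := by
      rw [hK]
      exact ⟨hs, hcon.le⟩
    have h3 : |(a p).re - x0| ≤ |(a s).re - x0| := hmin h2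
    linarith

lemma ubox_up (a : ℝ → ℂ) (ha : Continuous a) (x0 t : ℝ)
    (h : ∀ s ∈ Icc (0:ℝ) 1, (a s).re = x0 → t < (a s).im) :
    ∃ ρ > 0, ∀ s ∈ Icc (0:ℝ) 1, |(a s).re - x0| ≤ ρ → t ≤ (a s).im := by
  obtain ⟨ρ, hρ, h1⟩ := ubox_low (fun s => (starRingEnd ℂ) (a s)) (Complex.continuous_conj.comp ha)
    x0 (-t) (fun s hs h2 => by
      simp only [Complex.conj_re, Complex.conj_im] at h2 ⊢
      have := h s hs h2
      linarith)
  refine ⟨ρ, hρ, fun s hs h2 => ?_⟩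
  have h3 := h1 s hs (by simpa using h2)
  simp only [Complex.conj_im] at h3
  linarith

lemma ubox_main (a1 a2 : ℝ → ℂ) (c1 : Continuous a1) (c2 : Continuous a2) (x0 r : ℝ) (hr : 0 < r)
    (h0 : (a1 0).re < x0) (h1 : x0 < (a1 1).re) (n1 : ∃ s ∈ Icc (0:ℝ) 1, (a1 s).re = x0)
    (n2 : ∃ s ∈ Icc (0:ℝ) 1, (a2 s).re = x0)
    (hlt : ∀ s ∈ Icc (0:ℝ) 1, ∀ s' ∈ Icc (0:ℝ) 1, (a1 s).re = x0 → (a2 s').re = x0 →
      (a1 s).im < (a2 s').im) : ∃ y0 δ h e0 : ℝ, UBox a1 a2 r x0 y0 δ h e0 := by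
  have hcl : ∀ a : ℝ → ℂ, Continuous a → IsClosed {s | (a s).re = x0} := fun a ha =>
    isClosed_eq (Complex.continuous_re.comp ha) continuous_const
  have hK : ∀ a : ℝ → ℂ, Continuous a → IsCompact (Icc (0:ℝ) 1 ∩ {s | (a s).re = x0}) := fun a ha =>
    isCompact_Icc.inter_right (hcl a ha)
  obtain ⟨s1, hs1, hmax⟩ := (hK a1 c1).exists_isMaxOn (by
    obtain ⟨s, hs, hs'⟩ := n1
    exact ⟨s, hs, hs'⟩) (Complex.continuous_im.comp c1).continuousOn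
  obtain ⟨s2, hs2, hmin⟩ := (hK a2 c2).exists_isMinOn (by
    obtain ⟨s, hs, hs'⟩ := n2
    exact ⟨s, hs, hs'⟩) (Complex.continuous_im.comp c2).continuousOn
  have hAB : (a1 s1).im < (a2 s2).im := hlt s1 hs1.1 s2 hs2.1 hs1.2 hs2.2
  obtain ⟨B, hB⟩ : ∃ B, B = (a1 s1).im := ⟨_, rfl⟩
  obtain ⟨A, hA⟩ : ∃ A, A = (a2 s2).im := ⟨_, rfl⟩
  rw [← hA, ← hB] at hAB
  obtain ⟨ρ1, hρ1, g1⟩ := ubox_low a1 c1 x0 ((A + B) / 2 - (A - B) / 4) (fun s hs h2 => by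
    have h3 : (a1 s).im ≤ (a1 s1).im := hmax (a := s) ⟨hs, h2⟩
    rw [← hB] at h3
    linarith)
  obtain ⟨ρ2, hρ2, g2⟩ := ubox_up a2 c2 x0 ((A + B) / 2 + (A - B) / 4) (fun s hs h2 => by
    have h3 : (a2 s2).im ≤ (a2 s).im := hmin (a := s) ⟨hs, h2⟩
    rw [← hA] at h3
    linarith)
  obtain ⟨h, hh⟩ : ∃ h, h = (A - B) / 4 := ⟨_, rfl⟩
  have hh0 : 0 < h := by linarith
  rw [← hh] at g1 g2
  obtain ⟨m, hm⟩ : ∃ m, m = min (min (min ρ1 ρ2) (min (h * r) (h / r)))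
    (min (x0 - (a1 0).re) ((a1 1).re - x0)) := ⟨_, rfl⟩
  have hm0 : 0 < m := by
    rw [hm]
    refine lt_min (lt_min (lt_min hρ1 hρ2) (lt_min (by positivity) (by positivity)))
      (lt_min (by linarith) (by linarith))
  have k1 : m ≤ ρ1 := by rw [hm]; exact (min_le_left _ _).trans ((min_le_left _ _).trans (min_le_left _ _))
  have k2 : m ≤ ρ2 := by rw [hm]; exact (min_le_left _ _).trans ((min_le_left _ _).trans (min_le_right _ _))
  have k3 : m ≤ h * r := by rw [hm]; exact (min_le_left _ _).trans ((min_le_right _ _).trans (min_le_left _ _))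
  have k4 : m ≤ h / r := by rw [hm]; exact (min_le_left _ _).trans ((min_le_right _ _).trans (min_le_right _ _))
  have k5 : m ≤ x0 - (a1 0).re := by rw [hm]; exact (min_le_right _ _).trans (min_le_left _ _)
  have k6 : m ≤ (a1 1).re - x0 := by rw [hm]; exact (min_le_right _ _).trans (min_le_right _ _)
  have k4' : r * m ≤ h := by
    rw [le_div_iff₀ hr] at k4
    linarith
  refine ⟨(A + B) / 2, m / 2, h, m / 2, half_pos hm0, hh0, half_pos hm0, by linarith, by linarith,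
    by linarith, by linarith, fun s hs h2 => g1 s hs (by linarith), fun s hs h2 => g2 s hs (by linarith)⟩

lemma ubox_pre (a : ℝ → ℂ) (hm : MonotoneOn (fun s => (a s).re) (Icc 0 1)) (x0 : ℝ) :
    IsPreconnected (Icc (0:ℝ) 1 ∩ {s | (a s).re = x0}) := by
  have hoc : OrdConnected (Icc (0:ℝ) 1 ∩ {s | (a s).re = x0}) := by
    refine ⟨fun s hs t ht u hu => ?_⟩
    have hu01 : u ∈ Icc (0:ℝ) 1 := ⟨hs.1.1.trans hu.1, hu.2.trans ht.1.2⟩
    refine ⟨hu01, ?_⟩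
    have h1 : (a s).re ≤ (a u).re := hm hs.1 hu01 hu.1
    have h2 : (a u).re ≤ (a t).re := hm hu01 ht.1 hu.2
    have h3 : (a s).re = x0 := hs.2
    have h4 : (a t).re = x0 := ht.2
    change (a u).re = x0
    linarith
  exact hoc.isPreconnected

theorem t_UBOX : S_UBOX := by
  intro a1 a2 h r hr
  obtain ⟨x0, hx0⟩ : ∃ x0, x0 = ((a1 0).re + (a1 1).re) / 2 := ⟨_, rfl⟩
  have hlt := h.lt
  have h0 : (a1 0).re < x0 := by linarith
  have h1 : x0 < (a1 1).re := by linarith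
  have ivt : ∀ a : ℝ → ℂ, Continuous a → (a 0).re < x0 → x0 < (a 1).re →
      ∃ s ∈ Icc (0:ℝ) 1, (a s).re = x0 := by
    intro a ha g0 g1
    have h2 := intermediate_value_Icc (zero_le_one (α := ℝ)) (Complex.continuous_re.comp ha).continuousOn
    obtain ⟨s, hs, hs'⟩ := h2 ⟨g0.le, g1.le⟩
    exact ⟨s, hs, hs'⟩
  have h0' : (a2 0).re < x0 := by rw [← h.e0]; exact h0
  have h1' : x0 < (a2 1).re := by rw [← h.e1]; exact h1
  obtain ⟨s1, hs1, hs1'⟩ := ivt a1 h.c1 h0 h1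
  obtain ⟨s2, hs2, hs2'⟩ := ivt a2 h.c2 h0' h1'
  obtain ⟨V, hV⟩ : ∃ V : Set (ℝ × ℝ), V = (Icc (0:ℝ) 1 ∩ {s | (a1 s).re = x0}) ×ˢ
    (Icc (0:ℝ) 1 ∩ {s | (a2 s).re = x0}) := ⟨_, rfl⟩
  have hVp : IsPreconnected V := by
    rw [hV]
    exact (ubox_pre a1 h.m1 x0).prod (ubox_pre a2 h.m2 x0)
  have hVm : ∀ s ∈ Icc (0:ℝ) 1, ∀ s' ∈ Icc (0:ℝ) 1, (a1 s).re = x0 → (a2 s').re = x0 → (s, s') ∈ V := by
    intro s hs s' hs' h2 h3
    rw [hV]
    exact ⟨⟨hs, h2⟩, ⟨hs', h3⟩⟩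
  have hDc : Continuous (fun p : ℝ × ℝ => (a2 p.2).im - (a1 p.1).im) :=
    (Complex.continuous_im.comp (h.c2.comp continuous_snd)).sub
      (Complex.continuous_im.comp (h.c1.comp continuous_fst))
  have hne : ∀ p ∈ V, (a2 p.2).im - (a1 p.1).im ≠ 0 := by
    intro p hp heq
    rw [hV] at hp
    obtain ⟨⟨hp1, hp2⟩, hp3, hp4⟩ := hp
    have hp2' : (a1 p.1).re = x0 := hp2
    have hp4' : (a2 p.2).re = x0 := hp4
    have h2 : a1 p.1 = a2 p.2 := Complex.ext (by rw [hp2', hp4']) (by linarith)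
    rcases h.dj p.1 hp1 p.2 hp3 h2 with h5 | h5
    · rw [h5.1] at hp2'
      linarith
    · rw [h5.1] at hp2'
      linarith
  have himg : IsPreconnected ((fun p : ℝ × ℝ => (a2 p.2).im - (a1 p.1).im) '' V) :=
    hVp.image _ hDc.continuousOn
  have hs : ∀ p ∈ V, ∀ q ∈ V, 0 < (a2 p.2).im - (a1 p.1).im → 0 < (a2 q.2).im - (a1 q.1).im := by
    intro p hp q hq h2
    by_contra hcon
    rw [not_lt] at hcon
    have h3 : (0:ℝ) ∈ (fun p : ℝ × ℝ => (a2 p.2).im - (a1 p.1).im) '' V :=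
      himg.ordConnected.out (mem_image_of_mem _ hq) (mem_image_of_mem _ hp) ⟨hcon, h2.le⟩
    obtain ⟨t, ht, ht'⟩ := h3
    exact hne t ht ht'
  have hp0 : (s1, s2) ∈ V := hVm s1 hs1 s2 hs2 hs1' hs2'
  rcases lt_trichotomy 0 ((a2 s2).im - (a1 s1).im) with h2 | h2 | h2
  · obtain ⟨y0, δ, hh, e0, hU⟩ := ubox_main a1 a2 h.c1 h.c2 x0 r hr h0 h1 ⟨s1, hs1, hs1'⟩
      ⟨s2, hs2, hs2'⟩ (fun s hs3 s' hs4 h3 h4 => by
        have := hs _ hp0 _ (hVm s hs3 s' hs4 h3 h4) h2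
        simp only at this
        linarith)
    exact ⟨x0, y0, δ, hh, e0, Or.inl hU⟩
  · exact absurd h2.symm (hne _ hp0)
  · obtain ⟨y0, δ, hh, e0, hU⟩ := ubox_main a2 a1 h.c2 h.c1 x0 r hr h0' h1' ⟨s2, hs2, hs2'⟩
      ⟨s1, hs1, hs1'⟩ (fun s' hs4 s hs3 h4 h3 => by
        by_contra hcon
        rw [not_lt] at hcon
        have hmem := hVm s hs3 s' hs4 h3 h4
        have h5 := hne _ hmem
        simp only at h5
        have h6 : 0 < (a2 s').im - (a1 s).im := lt_of_le_of_ne (by linarith) (Ne.symm h5)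
        have h7 := hs _ hmem _ hp0 h6
        simp only at h7
        linarith)
    exact ⟨x0, y0, δ, hh, e0, Or.inr hU⟩

end Pool.Agent.T2h56.TG
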