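import Pool.Agent.T2h56.TG.Stm2

/-! The rectangle for the sheared curve. -/

set_option autoImplicit false

namespace Pool.Agent.T2h56.TG

open Set

theorem Arc2.symm {a1 a2 : ℝ → ℂ} (h : Arc2 a1 a2) : Arc2 a2 a1 where
  c1 := h.c2
  c2 := h.c1
  m1 := h.m2
  m2 := h.m1
  e0 := h.e0.symm
  e1 := h.e1.symm
  lt := by rw [← h.e0, ← h.e1]; exact h.lt
  dj := fun s hs s' hs' he => by
    rcases h.dj s' hs' s hs he.symm with ⟨h1, h2⟩ | ⟨h1, h2⟩
    · exact Or.inl ⟨h2, h1⟩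
    · exact Or.inr ⟨h2, h1⟩

/-- the four vertices of the rectangle described by a point with `Rect` -/
theorem rect_vertices {D : Dat} {y : Pt} (hy : y ∈ D.Y) (hR : D.Rect y) :
    ∃ z u : ℂ, (y.2.1 - y.1) / (1 + D.r) ≤ ‖u‖ ∧
    ∀ p ∈ ({z, z + u, z + u + D.r * Complex.I * u, z + D.r * Complex.I * u} : Set ℂ),
      p.re ∈ Icc D.a D.b ∧ (p.im = D.f p.re ∨ p.im = D.g p.re) := by
  obtain ⟨hlt, lam, mu, hl, hm, h⟩ := hR
  obtain ⟨ha, hLR, hb, hv, -, -⟩ := hy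
  have hr := D.r0
  have hr1 : 0 < 1 + D.r := by linarith
  obtain ⟨L, R, v, ξ, ζ⟩ := y
  simp only at hlt hl hm h ha hLR hb hv ⊢
  rcases h with ⟨h0, h1, h2, h3⟩ | ⟨h0, h1, h2, h3⟩
  · rw [abs_of_nonneg h0] at hv
    obtain ⟨u', hu'⟩ : ∃ u', u' = (R - L - v) / D.r := ⟨_, rfl⟩
    have hu0 : 0 ≤ u' := by rw [hu']; exact div_nonneg (by linarith) hr.le
    have hru : D.r * u' = R - L - v := by rw [hu']; field_simp
    rw [← hu'] at h1 h3
    refine ⟨⟨R - v, D.f (R - v)⟩, ⟨v, u'⟩, ?_, ?_⟩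
    · rw [div_le_iff₀ hr1]
      have e1 : v ≤ ‖(⟨v, u'⟩ : ℂ)‖ := (le_abs_self v).trans (Complex.abs_re_le_norm ⟨v, u'⟩)
      have e2 : u' ≤ ‖(⟨v, u'⟩ : ℂ)‖ := (le_abs_self u').trans (Complex.abs_im_le_norm ⟨v, u'⟩)
      nlinarith
    · intro p hp
      simp only [mem_insert_iff, mem_singleton_iff] at hp
      rcases hp with rfl | rfl | rfl | rfl
      · exact ⟨⟨by simp only; linarith, by simp only; linarith⟩, Or.inl rfl⟩
      · have e : ((⟨R - v, D.f (R - v)⟩ : ℂ) + ⟨v, u'⟩) = ⟨R, mu⟩ := by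
          apply Complex.ext
          · simp
          · simp; rw [h2, h3]; ring
        rw [e]
        exact ⟨⟨by simp only; linarith, hb⟩, hm⟩
      · have e : ((⟨R - v, D.f (R - v)⟩ : ℂ) + ⟨v, u'⟩ + D.r * Complex.I * ⟨v, u'⟩) =
            ⟨L + v, D.g (L + v)⟩ := by
          apply Complex.ext
          · simp; linarith
          · simp; rw [h1, h2]; ring
        rw [e]
        exact ⟨⟨by simp only; linarith, by simp only; linarith⟩, Or.inr rfl⟩
      · have e : ((⟨R - v, D.f (R - v)⟩ : ℂ) + D.r * Complex.I * ⟨v, u'⟩) = ⟨L, lam⟩ := by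
          apply Complex.ext
          · simp; linarith
          · simp; rw [h2]; ring
        rw [e]
        exact ⟨⟨ha, by simp only; linarith⟩, hl⟩
  · rw [abs_of_nonpos h0] at hv
    obtain ⟨u', hu'⟩ : ∃ u', u' = (R - L + v) / D.r := ⟨_, rfl⟩
    have hu0 : 0 ≤ u' := by rw [hu']; exact div_nonneg (by linarith) hr.le
    have hru : D.r * u' = R - L + v := by rw [hu']; field_simp
    rw [← hu'] at h1 h3
    refine ⟨⟨L, lam⟩, ⟨-v, -u'⟩, ?_, ?_⟩
    · rw [div_le_iff₀ hr1]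
      have e1 : -v ≤ ‖(⟨-v, -u'⟩ : ℂ)‖ := (le_abs_self (-v)).trans (Complex.abs_re_le_norm ⟨-v, -u'⟩)
      have e2 : u' ≤ ‖(⟨-v, -u'⟩ : ℂ)‖ := by
        have := Complex.abs_im_le_norm (⟨-v, -u'⟩ : ℂ)
        simp only [abs_neg] at this
        exact (le_abs_self u').trans this
      nlinarith
    · intro p hp
      simp only [mem_insert_iff, mem_singleton_iff] at hp
      rcases hp with rfl | rfl | rfl | rfl
      · exact ⟨⟨ha, by simp only; linarith⟩, hl⟩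
      · have e : ((⟨L, lam⟩ : ℂ) + ⟨-v, -u'⟩) = ⟨L - v, D.f (L - v)⟩ := by
          apply Complex.ext
          · simp; ring
          · simp; rw [h1]; ring
        rw [e]
        exact ⟨⟨by simp only; linarith, by simp only; linarith⟩, Or.inl rfl⟩
      · have e : ((⟨L, lam⟩ : ℂ) + ⟨-v, -u'⟩ + D.r * Complex.I * ⟨-v, -u'⟩) = ⟨R, mu⟩ := by
          apply Complex.ext
          · simp; linarith
          · simp; rw [h3]; ring
        rw [e]
        exact ⟨⟨by simp only; linarith, hb⟩, hm⟩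
      · have e : ((⟨L, lam⟩ : ℂ) + D.r * Complex.I * ⟨-v, -u'⟩) = ⟨R + v, D.g (R + v)⟩ := by
          apply Complex.ext
          · simp; linarith
          · simp; rw [h2]; ring
        rw [e]
        exact ⟨⟨by simp only; linarith, by simp only; linarith⟩, Or.inr rfl⟩

theorem ue_aux (hCORE : S_CORE) (hUARC : S_UARC) (hUSIZE : S_USIZE) {a1 a2 : ℝ → ℂ} {r : ℝ}
    {x0 y0 δ h e0 : ℝ} (hA : Arc2 a1 a2) (hr : 0 < r) (hU : UBox a1 a2 r x0 y0 δ h e0) :
    ∃ l > 0, ∃ e1 > 0, ∀ e ∈ Ioo (0:ℝ) e1,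
    ∃ z u : ℂ, l ≤ ‖u‖ ∧
      ∀ p ∈ ({z, z + u, z + u + r * Complex.I * u, z + r * Complex.I * u} : Set ℂ),
      ∃ s ∈ Icc (0:ℝ) 1, p = a1 s + (e * s : ℝ) ∨ p = a2 s + (e * s : ℝ) := by
  obtain ⟨hδ, hh, he0, hxa, hxb, hδr, hrδ, hb1, hb2⟩ := id hU
  have hm0 : 0 < min (h * δ) (r * δ ^ 2 / 2) := lt_min (by positivity) (by positivity)
  obtain ⟨k, hk⟩ : ∃ k, k = min (h * δ) (r * δ ^ 2 / 2) / 2 := ⟨_, rfl⟩
  have hk0 : 0 < k := by rw [hk]; positivity
  obtain ⟨e1, he1, l, hl, H⟩ := hUSIZE a1 a2 r x0 y0 δ h e0 k hr hA hU hk0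
  refine ⟨l / (1 + r), by positivity, min e1 e0, lt_min he1 he0, fun e he => ?_⟩
  obtain ⟨φ, hφ, hφ0, hφ1⟩ := hUARC a1 hA.c1 hA.m1 e he.1
  obtain ⟨ψ, hψ, hψ0, hψ1⟩ := hUARC a2 hA.c2 hA.m2 e he.1
  rw [← hA.e0] at hψ0
  rw [← hA.e1] at hψ1
  let D : Dat :=
    { a := (a1 0).re
      b := (a1 1).re + e
      r := r
      f := fun x => min (φ x) (ψ x)
      g := fun x => max (φ x) (ψ x)
      ab := by linarith [hA.lt, he.1]
      r0 := hr
      cf := hφ.1.min hψ.1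
      cg := hφ.1.max hψ.1
      fg := fun x _ => min_le_max
      ea := by simp only [hφ0, hψ0, min_self, max_self]
      eb := by simp only [hφ1, hψ1, min_self, max_self] }
  have hvert : ∀ p : ℂ, p.re ∈ Icc D.a D.b → (p.im = D.f p.re ∨ p.im = D.g p.re) →
      ∃ s ∈ Icc (0:ℝ) 1, p = a1 s + (e * s : ℝ) ∨ p = a2 s + (e * s : ℝ) := by
    intro p hp h1
    have h2 : p.im = φ p.re ∨ p.im = ψ p.re := by
      rcases h1 with h1 | h1
      · rw [h1]
        show min (φ p.re) (ψ p.re) = φ p.re ∨ min (φ p.re) (ψ p.re) = ψ p.re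
        exact min_choice _ _
      · rw [h1]
        show max (φ p.re) (ψ p.re) = φ p.re ∨ max (φ p.re) (ψ p.re) = ψ p.re
        exact max_choice _ _
    rcases h2 with h2 | h2
    · obtain ⟨s, hs, h3, h4⟩ := hφ.2 p.re hp
      refine ⟨s, hs, Or.inl (Complex.ext ?_ ?_)⟩
      · rw [Complex.add_re, Complex.ofReal_re]; exact h3
      · rw [Complex.add_im, Complex.ofReal_im, add_zero, h2, h4]
    · obtain ⟨s, hs, h3, h4⟩ := hψ.2 p.re (by rw [← hA.e0, ← hA.e1]; exact hp)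
      refine ⟨s, hs, Or.inr (Complex.ext ?_ ?_)⟩
      · rw [Complex.add_re, Complex.ofReal_re]; exact h3
      · rw [Complex.add_im, Complex.ofReal_im, add_zero, h2, h4]
  obtain ⟨K1, K2⟩ := H e ⟨he.1, he.2.trans_le (min_le_left _ _)⟩ φ ψ hφ hψ D rfl rfl rfl
    (fun _ => rfl) (fun _ => rfl)
  have hee0 : e < e0 := he.2.trans_le (min_le_right _ _)
  obtain ⟨y, hy, hR, hx, hz, hy1, hy2⟩ := hCORE D x0 y0 δ h k hδ hh hxa
    (hxb.trans (by show (a1 1).re ≤ (a1 1).re + e; linarith [he.1])) (by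
      intro x hx
      have hxm : x ∈ Icc (a1 0).re ((a1 1).re + e) :=
        ⟨hxa.trans hx.1, by linarith [hx.2, he.1]⟩
      constructor
      · refine (min_le_left _ _).trans ?_
        obtain ⟨s, hs, h3, h4⟩ := hφ.2 x hxm
        rw [h4]
        refine hb1 s hs ?_
        rw [abs_le]
        have : e * s ≤ e := by nlinarith [he.1, hs.2]
        have : 0 ≤ e * s := mul_nonneg he.1.le hs.1
        constructor <;> linarith [hx.1, hx.2]
      · refine le_trans ?_ (le_max_right _ _)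
        obtain ⟨s, hs, h3, h4⟩ := hψ.2 x (by rw [← hA.e0, ← hA.e1]; exact hxm)
        rw [h4]
        refine hb2 s hs ?_
        rw [abs_le]
        have : e * s ≤ e := by nlinarith [he.1, hs.2]
        have : 0 ≤ e * s := mul_nonneg he.1.le hs.1
        constructor <;> linarith [hx.1, hx.2]) hδr hrδ hk0
      (by rw [hk]; show _ < min (h * δ) (r * δ ^ 2 / 2); linarith) K1
  have hl2 := K2 y hy hR hx hz hy1 hy2
  obtain ⟨z, u, hu, hp⟩ := rect_vertices hy hR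
  refine ⟨z, u, le_trans ?_ hu, fun p hp' => ?_⟩
  · show l / (1 + r) ≤ (y.2.1 - y.1) / (1 + r)
    gcongr
  · obtain ⟨g1, g2⟩ := hp p hp'
    exact hvert p g1 g2

theorem t_UE (hCORE : S_CORE) (hUBOX : S_UBOX) (hUARC : S_UARC) (hUSIZE : S_USIZE) : S_UE := by
  intro a1 a2 r hA hr
  obtain ⟨x0, y0, δ, h, e0, hU | hU⟩ := hUBOX a1 a2 hA r hr
  · exact ue_aux hCORE hUARC hUSIZE hA hr hU
  · obtain ⟨l, hl, e1, he1, H⟩ := ue_aux hCORE hUARC hUSIZE hA.symm hr hU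
    refine ⟨l, hl, e1, he1, fun e he => ?_⟩
    obtain ⟨z, u, hu, hp⟩ := H e he
    refine ⟨z, u, hu, fun p hp' => ?_⟩
    obtain ⟨s, hs, h1⟩ := hp p hp'
    exact ⟨s, hs, h1.symm⟩

end Pool.Agent.T2h56.TG
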