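import Pool.Agent.T2h56.TG.Stm2

/-! UMID: away from the ends the first graph is below the second one. -/

set_option autoImplicit false

namespace Pool.Agent.T2h56.TG

open Set

theorem t_UMID (hS : S_USEP) : S_UMID := by
  intro a1 a2 r x0 y0 δ h e0 hA hB η hη
  obtain ⟨hδ, hh, he0, hx1, hx2, -, -, hb1, hb2⟩ := hB
  have hz0 : (a2 0).re = (a1 0).re := by rw [hA.e0]
  have hz1 : (a2 1).re = (a1 1).re := by rw [hA.e1]
  set X0 := (a1 0).re with hX0
  set X1 := (a1 1).re with hX1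
  set η' := min η (δ / 2) with hη'
  have hη'0 : 0 < η' := lt_min hη (by positivity)
  have hη'1 : η' ≤ η := min_le_left _ _
  have hη'2 : η' ≤ δ / 2 := min_le_right _ _
  obtain ⟨d, hd, hsep⟩ := hS a1 a2 hA (η' / 2) (by positivity)
  refine ⟨min e0 (min (d / 2) (η' / 2)), lt_min he0 (lt_min (by positivity) (by positivity)), ?_⟩
  intro e he φ ψ hφ hψ
  obtain ⟨he1, he2⟩ := he
  have he3 : e < e0 := he2.trans_le (min_le_left _ _)
  have he4 : e < d / 2 := he2.trans_le ((min_le_right _ _).trans (min_le_left _ _))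
  have he5 : e < η' / 2 := he2.trans_le ((min_le_right _ _).trans (min_le_right _ _))
  -- no crossing
  have hno : ∀ x ∈ Icc (X0 + η') (X1 + e - η'), φ x ≠ ψ x := by
    intro x hx hxe
    have hxx : x ∈ Icc X0 (X1 + e) := ⟨by linarith [hx.1], by linarith [hx.2]⟩
    obtain ⟨s, hs, hs1, hs2⟩ := hφ.2 x hxx
    obtain ⟨s', hs', hs1', hs2'⟩ := hψ.2 x (by rw [hz0, hz1]; exact hxx)
    have h1 : e * s ≤ e := by nlinarith [hs.2]
    have h2 : 0 ≤ e * s := mul_nonneg he1.le hs.1
    have h1' : e * s' ≤ e := by nlinarith [hs'.2]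
    have h2' : 0 ≤ e * s' := mul_nonneg he1.le hs'.1
    have h3 := hsep s hs s' hs' (by linarith [hx.1]) (by linarith [hx.2])
    have h4 := Complex.norm_le_abs_re_add_abs_im (a1 s - a2 s')
    have h5 : (a1 s - a2 s').im = 0 := by
      rw [Complex.sub_im, ← hs2, ← hs2', hxe, sub_self]
    have h6 : |(a1 s - a2 s').re| ≤ e := by
      rw [Complex.sub_re, abs_le]
      constructor <;> linarith
    rw [h5, abs_zero] at h4
    linarith
  -- at `x0`
  have hmid : φ x0 < ψ x0 := by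
    have hxx : x0 ∈ Icc X0 (X1 + e) := ⟨by linarith, by linarith⟩
    obtain ⟨s, hs, hs1, hs2⟩ := hφ.2 x0 hxx
    obtain ⟨s', hs', hs1', hs2'⟩ := hψ.2 x0 (by rw [hz0, hz1]; exact hxx)
    have h1 : e * s ≤ e := by nlinarith [hs.2]
    have h2 : 0 ≤ e * s := mul_nonneg he1.le hs.1
    have h1' : e * s' ≤ e := by nlinarith [hs'.2]
    have h2' : 0 ≤ e * s' := mul_nonneg he1.le hs'.1
    have h3 := hb1 s hs (by rw [abs_le]; constructor <;> linarith)
    have h4 := hb2 s' hs' (by rw [abs_le]; constructor <;> linarith)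
    rw [hs2, hs2']
    linarith
  intro x hx
  have hxJ : x ∈ Icc (X0 + η') (X1 + e - η') := ⟨by linarith [hx.1], by linarith [hx.2]⟩
  have hx0J : x0 ∈ Icc (X0 + η') (X1 + e - η') := ⟨by linarith, by linarith⟩
  by_contra hcon
  rw [not_lt] at hcon
  obtain ⟨z, hz, hze⟩ := isPreconnected_Icc.intermediate_value₂ hx0J hxJ hφ.1.continuousOn
    hψ.1.continuousOn hmid.le hcon
  exact hno z hz hze

end Pool.Agent.T2h56.TG
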