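import Pool.Agent.T2h56.TG.Stm2

/-! Task UNI (project TG): Jordan curves with a coordinate which is monotone on two arcs -/

set_option autoImplicit false

namespace Pool.Agent.T2h56.TG

open Set

/-- the real part is not constant -/
theorem uni_lt {c : ℝ → ℂ} (hc : Continuous c) (hper : ∀ t, c (t + 1) = c t)
    (hinj : InjOn c (Ico 0 1)) {m : ℝ} (hm0 : 0 < m) (hm1 : m < 1)
    (hmono : MonotoneOn (fun t => (c t).re) (Icc 0 m))
    (hanti : AntitoneOn (fun t => (c t).re) (Icc m 1)) : (c 0).re < (c m).re := by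
  have h0m : (c 0).re ≤ (c m).re := hmono ⟨le_rfl, hm0.le⟩ ⟨hm0.le, le_rfl⟩ hm0.le
  refine lt_of_le_of_ne h0m fun heq => ?_
  have hc1 : c 1 = c 0 := by
    have := hper 0
    rwa [zero_add] at this
  -- the real part is constant
  have hre : ∀ t ∈ Icc (0 : ℝ) 1, (c t).re = (c 0).re := by
    intro t ht
    rcases le_total t m with h | h
    · have h1 : (c 0).re ≤ (c t).re := hmono ⟨le_rfl, hm0.le⟩ ⟨ht.1, h⟩ ht.1
      have h2 : (c t).re ≤ (c m).re := hmono ⟨ht.1, h⟩ ⟨hm0.le, le_rfl⟩ h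
      linarith
    · have h1 : (c t).re ≤ (c m).re := hanti ⟨le_rfl, hm1.le⟩ ⟨h, ht.2⟩ h
      have h2 : (c 1).re ≤ (c t).re := hanti ⟨h, ht.2⟩ ⟨hm1.le, le_rfl⟩ ht.2
      rw [hc1] at h2
      linarith
  set φ : ℝ → ℝ := fun t => (c t).im with hφ
  have hφc : Continuous φ := Complex.continuous_im.comp hc
  have hinj' : ∀ s ∈ Ico (0 : ℝ) 1, ∀ t ∈ Ico (0 : ℝ) 1, φ s = φ t → s = t := by
    intro s hs t ht hst
    refine hinj hs ht (Complex.ext ?_ hst)
    rw [hre s ⟨hs.1, hs.2.le⟩, hre t ⟨ht.1, ht.2.le⟩]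
  have hφ1 : φ 1 = φ 0 := by rw [hφ]; simp only [hc1]
  have hne : φ 0 ≠ φ (1 / 2) := by
    intro h
    have := hinj' 0 ⟨le_rfl, by norm_num⟩ (1 / 2) ⟨by norm_num, by norm_num⟩ h
    norm_num at this
  -- the middle value
  have hy1 : (φ 0 + φ (1 / 2)) / 2 ∈ φ '' (uIcc 0 (1 / 2)) := by
    refine intermediate_value_uIcc hφc.continuousOn ?_
    rw [mem_uIcc]
    rcases le_total (φ 0) (φ (1 / 2)) with h | h
    · left; constructor <;> linarith
    · right; constructor <;> linarith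
  have hy2 : (φ 0 + φ (1 / 2)) / 2 ∈ φ '' (uIcc (1 / 2) 1) := by
    refine intermediate_value_uIcc hφc.continuousOn ?_
    rw [mem_uIcc, hφ1]
    rcases le_total (φ 0) (φ (1 / 2)) with h | h
    · right; constructor <;> linarith
    · left; constructor <;> linarith
  obtain ⟨t1, ht1, e1⟩ := hy1
  obtain ⟨t2, ht2, e2⟩ := hy2
  rw [uIcc_of_le (by norm_num)] at ht1 ht2
  have ht2' : t2 ≠ 1 := by
    rintro rfl
    rw [hφ1] at e2
    exact hne (by linarith)
  have ht1' : t1 ≠ 1 / 2 := by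
    rintro rfl
    exact hne (by linarith)
  have h3 := hinj' t1 ⟨ht1.1, by linarith [ht1.2]⟩ t2
    ⟨by linarith [ht2.1], lt_of_le_of_ne ht2.2 ht2'⟩ (e1.trans e2.symm)
  have h4 : t1 = 1 / 2 := le_antisymm ht1.2 (h3 ▸ ht2.1)
  exact ht1' h4

theorem t_UNI (h : S_UTWO) : S_UNI := by
  intro c m r hr hc hper hinj hm0 hm1 hmono hanti
  have hc1 : c 1 = c 0 := by
    have := hper 0
    rwa [zero_add] at this
  obtain ⟨a1, ha1⟩ : ∃ a1 : ℝ → ℂ, ∀ s, a1 s = c (m * s) := ⟨_, fun _ => rfl⟩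
  obtain ⟨a2, ha2⟩ : ∃ a2 : ℝ → ℂ, ∀ s, a2 s = c (1 - (1 - m) * s) := ⟨_, fun _ => rfl⟩
  have hA : Arc2 a1 a2 := by
    refine ⟨?_, ?_, ?_, ?_, ?_, ?_, ?_, ?_⟩
    · have : a1 = fun s => c (m * s) := funext ha1
      rw [this]
      exact hc.comp (by fun_prop)
    · have : a2 = fun s => c (1 - (1 - m) * s) := funext ha2
      rw [this]
      exact hc.comp (by fun_prop)
    · intro s hs t ht hst
      simp only [ha1]
      refine hmono ⟨by nlinarith [hs.1], by nlinarith [hs.2]⟩ ⟨by nlinarith [ht.1], by nlinarith [ht.2]⟩ ?_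
      exact mul_le_mul_of_nonneg_left hst hm0.le
    · intro s hs t ht hst
      simp only [ha2]
      refine hanti ⟨by nlinarith [ht.2], by nlinarith [ht.1]⟩ ⟨by nlinarith [hs.2], by nlinarith [hs.1]⟩ ?_
      nlinarith
    · rw [ha1, ha2, mul_zero, mul_zero, sub_zero, hc1]
    · rw [ha1, ha2]
      congr 1
      ring
    · rw [ha1, ha1, mul_zero, mul_one]
      exact uni_lt hc hper hinj hm0 hm1 hmono hanti
    · intro s hs s' hs' hss
      rw [ha1, ha2] at hss
      have hms : m * s ∈ Ico (0 : ℝ) 1 := ⟨by nlinarith [hs.1], by nlinarith [hs.2]⟩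
      rcases eq_or_ne s' 0 with h0 | h0
      · left
        refine ⟨?_, h0⟩
        rw [h0, mul_zero, sub_zero, hc1] at hss
        have h1 := hinj hms ⟨le_rfl, by norm_num⟩ hss
        rcases mul_eq_zero.1 h1 with h2 | h2
        · linarith
        · exact h2
      · right
        have hs'0 : 0 < s' := lt_of_le_of_ne hs'.1 (Ne.symm h0)
        have h1 := hinj hms (show 1 - (1 - m) * s' ∈ Ico (0 : ℝ) 1 from
          ⟨by nlinarith [hs'.2], by nlinarith⟩) hss
        have h2 : m * s ≤ m := by nlinarith [hs.2]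
        have h3 : m ≤ 1 - (1 - m) * s' := by nlinarith [hs'.2]
        have h4 : m * s = m := le_antisymm h2 (h1 ▸ h3)
        have h5 : s = 1 := by
          have : m * (s - 1) = 0 := by linarith
          rcases mul_eq_zero.1 this with h6 | h6
          · linarith
          · linarith
        have h7 : (1 - m) * (s' - 1) = 0 := by
          have : 1 - (1 - m) * s' = m := h1 ▸ h4
          linarith
        rcases mul_eq_zero.1 h7 with h6 | h6
        · linarith
        · exact ⟨h5, by linarith⟩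
  obtain ⟨z, u, hu, hp⟩ := h a1 a2 r hA hr
  have hrange : ∀ p, (∃ s ∈ Icc (0 : ℝ) 1, p = a1 s ∨ p = a2 s) → p ∈ range c := by
    rintro p ⟨s, -, hs | hs⟩
    · exact ⟨m * s, by rw [hs, ha1]⟩
    · exact ⟨1 - (1 - m) * s, by rw [hs, ha2]⟩
  refine ⟨z, u, hu, hrange _ (hp z ?_), hrange _ (hp (z + u) ?_),
    hrange _ (hp (z + u + r * Complex.I * u) ?_), hrange _ (hp (z + r * Complex.I * u) ?_)⟩ <;>
  simp

end Pool.Agent.T2h56.TG
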