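import Pool.Agent.T2h56.TG.Stm2

/-! Task UPSI (project TG): the action of a small configuration is small -/

set_option autoImplicit false

namespace Pool.Agent.T2h56.TG

open Set

theorem upsi_int {f : ℝ → ℝ} (hf : Continuous f) {a b S : ℝ} (hS : ∀ x ∈ Icc a b, |f x| ≤ S) {x y l : ℝ}
    (hx : x ∈ Icc a b) (hy : y ∈ Icc a b) (hl : |y - x| ≤ l) (hS0 : 0 ≤ S) :
    |(∫ t in a..y, f t) - ∫ t in a..x, f t| ≤ S * l := by
  rw [intervalIntegral.integral_interval_sub_left (hf.intervalIntegrable _ _)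
    (hf.intervalIntegrable _ _)]
  have h1 : ‖∫ t in x..y, f t‖ ≤ S * |y - x| := by
    refine intervalIntegral.norm_integral_le_of_norm_le_const fun t ht => ?_
    refine hS t ?_
    have h2 := uIoc_subset_uIcc ht
    exact (uIcc_subset_Icc hx hy) h2
  exact h1.trans (mul_le_mul_of_nonneg_left hl hS0)

theorem t_UPSI : S_UPSI := by
  intro D S hS L R v haL hLR hRb hv
  have hpp : 0 ≤ pp v := le_max_right _ _
  have hmm : 0 ≤ mm v := le_max_right _ _
  have hpm : pp v + mm v = |v| := by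
    unfold pp mm
    rcases le_total 0 v with h | h
    · rw [max_eq_left h, max_eq_right (by linarith), abs_of_nonneg h, add_zero]
    · rw [max_eq_right h, max_eq_left (by linarith), abs_of_nonpos h, zero_add]
  have hS0 : 0 ≤ S := (abs_nonneg _).trans (hS D.a ⟨le_rfl, D.ab.le⟩).1
  have h1 : |D.F (L + mm v) - D.F (R - pp v)| ≤ S * (R - L) := by
    refine upsi_int D.cf (fun x hx => (hS x hx).1) ⟨?_, ?_⟩ ⟨?_, ?_⟩ ?_ hS0
    · linarith
    · linarith
    · linarith
    · linarith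
    · rw [abs_le]; constructor <;> linarith
  have h2 : |D.G (R - mm v) - D.G (L + pp v)| ≤ S * (R - L) := by
    refine upsi_int D.cg (fun x hx => (hS x hx).2) ⟨?_, ?_⟩ ⟨?_, ?_⟩ ?_ hS0
    · linarith
    · linarith
    · linarith
    · linarith
    · rw [abs_le]; constructor <;> linarith
  have hr := D.r0
  have h3 : |((R - L - |v|) ^ 2 / D.r - D.r * v ^ 2) / 2| ≤
      (1 / D.r + D.r) * (D.b - D.a) * (R - L) := by
    have hl0 : 0 ≤ R - L := by linarith
    have hlb : R - L ≤ D.b - D.a := by linarith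
    have hav := abs_nonneg v
    have e1 : (R - L - |v|) ^ 2 ≤ (R - L) ^ 2 := by nlinarith
    have e2 : v ^ 2 ≤ (R - L) ^ 2 := by
      rw [← sq_abs v]
      nlinarith
    have e3 : (R - L) ^ 2 ≤ (D.b - D.a) * (R - L) := by nlinarith
    have e4 : (R - L - |v|) ^ 2 / D.r ≤ (D.b - D.a) * (R - L) / D.r :=
      div_le_div_of_nonneg_right (e1.trans e3) hr.le
    have e5 : D.r * v ^ 2 ≤ D.r * ((D.b - D.a) * (R - L)) :=
      mul_le_mul_of_nonneg_left (e2.trans e3) hr.le
    have e6 : 0 ≤ (R - L - |v|) ^ 2 / D.r := by positivity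
    have e7 : 0 ≤ D.r * v ^ 2 := by positivity
    have e8 : (1 / D.r + D.r) * (D.b - D.a) * (R - L) =
        (D.b - D.a) * (R - L) / D.r + D.r * ((D.b - D.a) * (R - L)) := by
      field_simp
    rw [e8, abs_le]
    constructor <;> linarith
  unfold Dat.Psi
  rw [abs_le] at h1 h2 h3 ⊢
  have e9 : (2 * S + (1 / D.r + D.r) * (D.b - D.a)) * (R - L) =
      S * (R - L) + S * (R - L) + (1 / D.r + D.r) * (D.b - D.a) * (R - L) := by ring
  rw [e9]
  constructor <;> linarith [h1.1, h1.2, h2.1, h2.2, h3.1, h3.2]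

end Pool.Agent.T2h56.TG
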