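import Pool.Agent.T2h56.TG.Stm2

/-! USEP: the arcs are separated away from the ends. -/

set_option autoImplicit false

namespace Pool.Agent.T2h56.TG

open Set

theorem t_USEP : S_USEP := by
  intro a1 a2 h η hη
  obtain ⟨K, hK⟩ : ∃ K : Set (ℝ × ℝ), K = (Icc (0:ℝ) 1 ×ˢ Icc (0:ℝ) 1) ∩
    {p : ℝ × ℝ | (a1 0).re + η ≤ (a1 p.1).re ∧ (a1 p.1).re ≤ (a1 1).re - η} := ⟨_, rfl⟩
  have hc : Continuous (fun p : ℝ × ℝ => (a1 p.1).re) :=
    Complex.continuous_re.comp (h.c1.comp continuous_fst)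
  have hcl : IsClosed {p : ℝ × ℝ | (a1 0).re + η ≤ (a1 p.1).re ∧ (a1 p.1).re ≤ (a1 1).re - η} :=
    (isClosed_le continuous_const hc).inter (isClosed_le hc continuous_const)
  have hKc : IsCompact K := by
    rw [hK]
    exact (isCompact_Icc.prod isCompact_Icc).inter_right hcl
  have hmem : ∀ s ∈ Icc (0:ℝ) 1, ∀ s' ∈ Icc (0:ℝ) 1, (a1 0).re + η ≤ (a1 s).re →
      (a1 s).re ≤ (a1 1).re - η → (s, s') ∈ K := by
    intro s hs s' hs' h1 h2
    rw [hK]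
    exact ⟨⟨hs, hs'⟩, h1, h2⟩
  have hnc : Continuous (fun p : ℝ × ℝ => ‖a1 p.1 - a2 p.2‖) :=
    ((h.c1.comp continuous_fst).sub (h.c2.comp continuous_snd)).norm
  rcases K.eq_empty_or_nonempty with he | hne
  · refine ⟨1, one_pos, fun s hs s' hs' h1 h2 => ?_⟩
    have := hmem s hs s' hs' h1 h2
    rw [he] at this
    exact absurd this (notMem_empty _)
  · obtain ⟨p, hp, hmin⟩ := hKc.exists_isMinOn hne hnc.continuousOn
    refine ⟨‖a1 p.1 - a2 p.2‖, ?_, fun s hs s' hs' h1 h2 => hmin (hmem s hs s' hs' h1 h2)⟩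
    rw [gt_iff_lt, norm_pos_iff, sub_ne_zero]
    intro heq
    rw [hK] at hp
    obtain ⟨⟨hp1, hp2⟩, hp3, hp4⟩ := hp
    rcases h.dj p.1 hp1 p.2 hp2 heq with h5 | h5
    · rw [h5.1] at hp3
      linarith
    · rw [h5.1] at hp4
      linarith

end Pool.Agent.T2h56.TG
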