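import Pool.Agent.T2h56.TG.Stm2

/-! USIZE: the rectangles have a lower bound for the size. -/

set_option autoImplicit false

namespace Pool.Agent.T2h56.TG

namespace USIZE

open Set MeasureTheory

lemma al_sub (D : Dat) (x y : ℝ) : D.al y - D.al x = ∫ t in x..y, D.w t := by
  have hf : ∀ u v, IntervalIntegrable D.f volume u v := fun u v => D.cf.intervalIntegrable u v
  have hg : ∀ u v, IntervalIntegrable D.g volume u v := fun u v => D.cg.intervalIntegrable u v
  unfold Dat.al Dat.F Dat.G Dat.w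
  rw [intervalIntegral.integral_sub (hg _ _) (hf _ _),
    ← intervalIntegral.integral_interval_sub_left (hg _ _) (hg D.a x),
    ← intervalIntegral.integral_interval_sub_left (hf _ _) (hf D.a x)]
  ring

/-- the upper bound -/
lemma al_le (D : Dat) {W x y : ℝ} (hxy : x ≤ y) (hW : ∀ t ∈ Icc x y, D.w t ≤ W) :
    D.al y - D.al x ≤ W * (y - x) := by
  have hw : Continuous D.w := D.cg.sub D.cf
  have h1 : W * (y - x) - (D.al y - D.al x) = ∫ t in x..y, (W - D.w t) := by
    rw [intervalIntegral.integral_sub intervalIntegrable_const (hw.intervalIntegrable _ _),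
      intervalIntegral.integral_const, al_sub, smul_eq_mul]
    ring
  rw [← sub_nonneg, h1]
  exact intervalIntegral.integral_nonneg hxy fun t ht => sub_nonneg.2 (hW t ht)

lemma sg_zero {α : ℝ} (h : 0 ≤ α) : sg 0 α = 0 := by
  unfold sg
  rw [zero_sub, abs_neg, abs_of_nonneg h, sub_self]

lemma sg_self (α : ℝ) : sg α α = α := by
  unfold sg
  rw [sub_self, abs_zero, sub_zero]

/-- the bottom and the top vertex -/
lemma verts (D : Dat) {y : Pt} (hy : y ∈ D.Y) (hR : D.Rect y) : ∃ xb xt : ℝ,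
    xb ∈ Icc y.1 y.2.1 ∧ xt ∈ Icc y.1 y.2.1 ∧
    |D.g xt - D.f xb| ≤ (1 / D.r + D.r) * (y.2.1 - y.1) := by
  obtain ⟨hy1, hy2, hy3, hy4, hy5, hy6⟩ := hy
  obtain ⟨hlt, lam, mu, -, -, h | h⟩ := hR
  · obtain ⟨hv, h1, h2, -⟩ := h
    have hr := D.r0
    rw [abs_of_nonneg hv] at hy4
    refine ⟨y.2.1 - y.2.2.1, y.1 + y.2.2.1, ⟨by linarith, by linarith⟩,
      ⟨by linarith, by linarith⟩, ?_⟩
    rw [h1, h2]
    have h3 : lam + (y.2.1 - y.1 - y.2.2.1) / D.r - (lam - D.r * y.2.2.1) =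
        (y.2.1 - y.1 - y.2.2.1) / D.r + D.r * y.2.2.1 := by ring
    have h4 : 0 ≤ (y.2.1 - y.1 - y.2.2.1) / D.r := div_nonneg (by linarith) hr.le
    have h5 : 0 ≤ D.r * y.2.2.1 := mul_nonneg hr.le hv
    rw [h3, abs_of_nonneg (by linarith)]
    have h6 : (y.2.1 - y.1 - y.2.2.1) / D.r ≤ (y.2.1 - y.1) / D.r :=
      div_le_div_of_nonneg_right (by linarith) hr.le
    have h7 : D.r * y.2.2.1 ≤ D.r * (y.2.1 - y.1) := mul_le_mul_of_nonneg_left hy4 hr.le
    have h8 : (1 / D.r + D.r) * (y.2.1 - y.1) = (y.2.1 - y.1) / D.r + D.r * (y.2.1 - y.1) := by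
      ring
    rw [h8]
    linarith
  · obtain ⟨hv, h1, h2, -⟩ := h
    have hr := D.r0
    rw [abs_of_nonpos hv] at hy4
    refine ⟨y.1 - y.2.2.1, y.2.1 + y.2.2.1, ⟨by linarith, by linarith⟩,
      ⟨by linarith, by linarith⟩, ?_⟩
    rw [h1, h2]
    have h3 : lam - D.r * y.2.2.1 - (lam - (y.2.1 - y.1 + y.2.2.1) / D.r) =
        (y.2.1 - y.1 + y.2.2.1) / D.r + D.r * (-y.2.2.1) := by ring
    have h4 : 0 ≤ (y.2.1 - y.1 + y.2.2.1) / D.r := div_nonneg (by linarith) hr.le
    have h5 : 0 ≤ D.r * (-y.2.2.1) := mul_nonneg hr.le (by linarith)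
    rw [h3, abs_of_nonneg (by linarith)]
    have h6 : (y.2.1 - y.1 + y.2.2.1) / D.r ≤ (y.2.1 - y.1) / D.r :=
      div_le_div_of_nonneg_right (by linarith) hr.le
    have h7 : D.r * (-y.2.2.1) ≤ D.r * (y.2.1 - y.1) := mul_le_mul_of_nonneg_left hy4 hr.le
    have h8 : (1 / D.r + D.r) * (y.2.1 - y.1) = (y.2.1 - y.1) / D.r + D.r * (y.2.1 - y.1) := by
      ring
    rw [h8]
    linarith

end USIZE

open Set USIZE in
theorem t_USIZE (hAL : S_AL) (hM : S_UMID) (hS : S_USEP) (hP : S_UPSI) : S_USIZE := by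
  intro a1 a2 r x0 y0 δ h e0 k hr hA hB hk
  have hB' := hB
  obtain ⟨hδ, hh, he0, hx1, hx2, -, -, hb1, hb2⟩ := hB
  have hz0 : (a2 0).re = (a1 0).re := by rw [hA.e0]
  have hz1 : (a2 1).re = (a1 1).re := by rw [hA.e1]
  set X0 := (a1 0).re with hX0
  set X1 := (a1 1).re with hX1
  have hX01 : X0 < X1 := hA.lt
  -- the bound
  obtain ⟨M, hM0, hM1, hM2⟩ : ∃ M : ℝ, 0 ≤ M ∧ (∀ s ∈ Icc (0:ℝ) 1, |(a1 s).im| ≤ M) ∧
      ∀ s ∈ Icc (0:ℝ) 1, |(a2 s).im| ≤ M := by
    obtain ⟨C1, hC1⟩ := (isCompact_Icc (a := (0:ℝ)) (b := 1)).exists_bound_of_continuousOn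
      (f := fun s => (a1 s).im) (Complex.continuous_im.comp hA.c1).continuousOn
    obtain ⟨C2, hC2⟩ := (isCompact_Icc (a := (0:ℝ)) (b := 1)).exists_bound_of_continuousOn
      (f := fun s => (a2 s).im) (Complex.continuous_im.comp hA.c2).continuousOn
    refine ⟨max 0 (max C1 C2), le_max_left _ _, fun s hs => ?_, fun s hs => ?_⟩
    · exact (hC1 s hs).trans ((le_max_left _ _).trans (le_max_right _ _))
    · exact (hC2 s hs).trans ((le_max_right _ _).trans (le_max_right _ _))
  set W := 2 * M + 1 with hW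
  have hW0 : 0 < W := by positivity
  set c := 1 / r + r with hc
  have hc0 : 0 < c := by positivity
  set C := 2 * M + c * (X1 - X0 + 1) with hC
  have hC0 : 0 < C := by
    have : 0 < c * (X1 - X0 + 1) := mul_pos hc0 (by linarith)
    linarith
  have hhδ : 0 < h * δ := mul_pos hh hδ
  set η1 := min k (h * δ) / (8 * W) with hη1
  have hη10 : 0 < η1 := div_pos (lt_min hk hhδ) (by positivity)
  have hη1k : 8 * η1 * W ≤ k := by
    have h1 : 8 * η1 * W = min k (h * δ) := by
      rw [hη1]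
      field_simp
    rw [h1]
    exact min_le_left _ _
  have hη1h : 8 * η1 * W ≤ h * δ := by
    have h1 : 8 * η1 * W = min k (h * δ) := by
      rw [hη1]
      field_simp
    rw [h1]
    exact min_le_right _ _
  set η := k / (2 * W) with hη
  have hη0 : 0 < η := by positivity
  have hηW : W * η = k / 2 := by
    rw [hη]
    field_simp
  obtain ⟨d, hd, hsep⟩ := hS a1 a2 hA η1 hη10
  obtain ⟨ea, hea, hma⟩ := hM a1 a2 r x0 y0 δ h e0 hA hB' η hη0
  obtain ⟨eb, heb, hmb⟩ := hM a1 a2 r x0 y0 δ h e0 hA hB' η1 hη10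
  refine ⟨min (min 1 η1) (min (d / 2) (min ea eb)), ?_,
    min (min (k / (2 * C)) (h * δ / (W + C))) (min (4 * η1) (d / (2 * (1 + c)))), ?_, ?_⟩
  · exact lt_min (lt_min one_pos hη10) (lt_min (by positivity) (lt_min hea heb))
  · exact lt_min (lt_min (by positivity) (by positivity)) (lt_min (by positivity) (by positivity))
  intro e he φ ψ hφ hψ D hDa hDb hDr hDf hDg
  obtain ⟨he1, he2⟩ := he
  have he3 : e < 1 := he2.trans_le ((min_le_left _ _).trans (min_le_left _ _))
  have he4 : e < η1 := he2.trans_le ((min_le_left _ _).trans (min_le_right _ _))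
  have he5 : e < d / 2 := he2.trans_le ((min_le_right _ _).trans (min_le_left _ _))
  have he6 : e < ea := he2.trans_le ((min_le_right _ _).trans ((min_le_right _ _).trans
    (min_le_left _ _)))
  have he7 : e < eb := he2.trans_le ((min_le_right _ _).trans ((min_le_right _ _).trans
    (min_le_right _ _)))
  obtain ⟨-, -, -, -, -, -, -, -, -, -, -, hpos, -⟩ := hAL D
  -- the values
  have hφM : ∀ x ∈ Icc D.a D.b, |φ x| ≤ M := by
    intro x hx
    rw [hDa, hDb] at hx
    obtain ⟨s, hs, -, hs2⟩ := hφ.2 x hx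
    rw [hs2]
    exact hM1 s hs
  have hψM : ∀ x ∈ Icc D.a D.b, |ψ x| ≤ M := by
    intro x hx
    rw [hDa, hDb] at hx
    obtain ⟨s, hs, -, hs2⟩ := hψ.2 x (by rw [hz0, hz1]; exact hx)
    rw [hs2]
    exact hM2 s hs
  have hfM : ∀ x ∈ Icc D.a D.b, |D.f x| ≤ M ∧ |D.g x| ≤ M := by
    intro x hx
    have h1 := abs_le.1 (hφM x hx)
    have h2 := abs_le.1 (hψM x hx)
    rw [hDf, hDg]
    refine ⟨abs_le.2 ⟨le_min h1.1 h2.1, (min_le_left _ _).trans h1.2⟩,
      abs_le.2 ⟨h1.1.trans (le_max_left _ _), max_le h1.2 h2.2⟩⟩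
  have hwW : ∀ x ∈ Icc D.a D.b, D.w x ≤ W := by
    intro x hx
    obtain ⟨h1, h2⟩ := hfM x hx
    have h3 := (abs_le.1 h1).1
    have h4 := (abs_le.1 h2).2
    show D.g x - D.f x ≤ W
    linarith
  have hala : D.al D.a = 0 := by
    unfold Dat.al Dat.F Dat.G
    rw [intervalIntegral.integral_same, intervalIntegral.integral_same, sub_zero]
  have halW : ∀ x ∈ Icc D.a D.b, D.al x ≤ W * (x - D.a) := by
    intro x hx
    have h1 := al_le D hx.1 fun t ht => hwW t ⟨ht.1, ht.2.trans hx.2⟩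
    rwa [hala, sub_zero] at h1
  have hbeW : ∀ x ∈ Icc D.a D.b, D.be x ≤ W * (D.b - x) := by
    intro x hx
    exact al_le D hx.2 fun t ht => hwW t ⟨hx.1.trans ht.1, ht.2⟩
  refine ⟨?_, ?_⟩
  · -- part 1
    intro m hm hgf
    rw [hDf, hDg] at hgf
    have hφψ : φ m = ψ m := by
      have h1 : φ m ≤ ψ m := by
        have := le_max_left (φ m) (ψ m)
        rw [hgf] at this
        exact this.trans (min_le_right _ _)
      have h2 : ψ m ≤ φ m := by
        have := le_max_right (φ m) (ψ m)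
        rw [hgf] at this
        exact this.trans (min_le_left _ _)
      exact le_antisymm h1 h2
    by_cases h1 : m < D.a + η
    · left
      have h2 := halW m hm
      have h3 : W * (m - D.a) ≤ W * η := mul_le_mul_of_nonneg_left (by linarith) hW0.le
      linarith
    by_cases h2 : D.b - η < m
    · right
      have h2 := hbeW m hm
      have h3 : W * (D.b - m) ≤ W * η := mul_le_mul_of_nonneg_left (by linarith) hW0.le
      linarith
    exfalso
    rw [not_lt] at h1 h2
    have h3 := hma e ⟨he1, he6⟩ φ ψ hφ hψ m ⟨by linarith [hDa, hX0], by linarith [hDb, hX1]⟩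
    exact h3.ne hφψ
  · -- part 2
    intro y hy hRect hξ hζ hHk hHar
    by_contra hcon
    rw [not_le] at hcon
    set L := y.1 with hL
    set R := y.2.1 with hR
    set ρ := R - L with hρ
    have hy' := hy
    obtain ⟨hy1, hy2, hy3, hy4, -, -⟩ := hy
    have hρ0 : 0 < ρ := sub_pos.2 hRect.1
    have hl1 : ρ < k / (2 * C) := hcon.trans_le ((min_le_left _ _).trans (min_le_left _ _))
    have hl2 : ρ < h * δ / (W + C) := hcon.trans_le ((min_le_left _ _).trans (min_le_right _ _))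
    have hl3 : ρ < 4 * η1 := hcon.trans_le ((min_le_right _ _).trans (min_le_left _ _))
    have hl4 : ρ < d / (2 * (1 + c)) := hcon.trans_le ((min_le_right _ _).trans (min_le_right _ _))
    have hCρ1 : C * ρ < k / 2 := by
      rw [lt_div_iff₀ (by positivity)] at hl1
      linarith
    have hCρ2 : (W + C) * ρ < h * δ := by
      rw [lt_div_iff₀ (by positivity)] at hl2
      linarith
    have hCρ3 : C * ρ < h * δ := by
      have : 0 < W * ρ := mul_pos hW0 hρ0
      linarith
    have hdρ : (1 + c) * ρ < d / 2 := by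
      rw [lt_div_iff₀ (by positivity)] at hl4
      linarith
    have hLI : L ∈ Icc D.a D.b := ⟨hy1, hy2.trans hy3⟩
    have hRI : R ∈ Icc D.a D.b := ⟨hy1.trans hy2, hy3⟩
    -- the action
    have hPsi : |D.Psi L R y.2.2.1| ≤ C * ρ := by
      have h1 := hP D M hfM L R y.2.2.1 hy1 hy2 hy3 hy4
      refine h1.trans (mul_le_mul_of_nonneg_right ?_ hρ0.le)
      rw [hDr, ← hc, hDa, hDb, hC]
      have h2 : c * (X1 + e - X0) ≤ c * (X1 - X0 + 1) :=
        mul_le_mul_of_nonneg_left (by linarith) hc0.le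
      linarith
    obtain ⟨hPsi1, hPsi2⟩ := abs_le.1 hPsi
    obtain ⟨haL, -⟩ := hpos L hLI
    obtain ⟨haR, hbR⟩ := hpos R hRI
    have hHdef : D.H y = D.Psi L R y.2.2.1 + sg y.2.2.2.1 (D.al L) + sg y.2.2.2.2 (D.be R) := rfl
    have halR : D.al R - D.al L ≤ W * ρ :=
      al_le D hy2 fun t ht => hwW t ⟨hy1.trans ht.1, ht.2.trans hy3⟩
    have hbeR : D.be R = D.ar - D.al R := rfl
    have hbeL : D.be L = D.ar - D.al L := rfl
    -- the middle range
    have hmid : D.a + 2 * η1 ≤ L ∧ R ≤ D.b - 2 * η1 := by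
      rcases hξ with hξ | hξ <;> rcases hζ with hζ | hζ <;> rw [hHdef, hξ, hζ] at hHk hHar
      · exfalso
        rw [sg_zero haL, sg_zero hbR] at hHk
        linarith
      · rw [sg_zero haL, sg_self] at hHk hHar
        have h1 : k / 2 ≤ D.be R := by linarith
        have h2 : h * δ ≤ D.al R := by linarith
        have h3 := hbeW R hRI
        have h4 := halW R hRI
        have h5 : 4 * η1 ≤ D.b - R := by
          have h6 : W * (4 * η1) ≤ W * (D.b - R) := by linarith
          exact le_of_mul_le_mul_left h6 hW0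
        have h7 : 8 * η1 ≤ R - D.a := by
          have h6 : W * (8 * η1) ≤ W * (R - D.a) := by linarith
          exact le_of_mul_le_mul_left h6 hW0
        constructor <;> linarith
      · rw [sg_zero hbR, sg_self] at hHk hHar
        have h1 : k / 2 ≤ D.al L := by linarith
        have h2 : h * δ ≤ D.be L := by linarith
        have h3 := hbeW L hLI
        have h4 := halW L hLI
        have h5 : 4 * η1 ≤ L - D.a := by
          have h6 : W * (4 * η1) ≤ W * (L - D.a) := by linarith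
          exact le_of_mul_le_mul_left h6 hW0
        have h7 : 8 * η1 ≤ D.b - L := by
          have h6 : W * (8 * η1) ≤ W * (D.b - L) := by linarith
          exact le_of_mul_le_mul_left h6 hW0
        constructor <;> linarith
      · exfalso
        rw [sg_self, sg_self, hbeR] at hHar
        linarith
    obtain ⟨hm1, hm2⟩ := hmid
    obtain ⟨xb, xt, hxb, hxt, hg⟩ := verts D hy' hRect
    have hfe : ∀ x ∈ Icc L R, D.f x = φ x ∧ D.g x = ψ x := by
      intro x hx
      have h1 := hmb e ⟨he1, he7⟩ φ ψ hφ hψ x ⟨by linarith [hx.1, hDa, hX0],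
        by linarith [hx.2, hDb, hX1]⟩
      rw [hDf, hDg]
      exact ⟨min_eq_left h1.le, max_eq_right h1.le⟩
    rw [(hfe xb hxb).1, (hfe xt hxt).2, hDr, ← hc] at hg
    obtain ⟨s, hs, hs1, hs2⟩ := hφ.2 xb ⟨by linarith [hxb.1, hDa, hX0],
      by linarith [hxb.2, hDb, hX1]⟩
    obtain ⟨s', hs', hs1', hs2'⟩ := hψ.2 xt ⟨by rw [hz0]; linarith [hxt.1, hDa],
      by rw [hz1]; linarith [hxt.2, hDb]⟩
    have g1 : e * s ≤ e := by nlinarith [hs.2]
    have g2 : 0 ≤ e * s := mul_nonneg he1.le hs.1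
    have g1' : e * s' ≤ e := by nlinarith [hs'.2]
    have g2' : 0 ≤ e * s' := mul_nonneg he1.le hs'.1
    have g3 := hsep s hs s' hs' (by linarith [hxb.1, hDa, hX0]) (by linarith [hxb.2, hDb, hX1])
    have g4 := Complex.norm_le_abs_re_add_abs_im (a1 s - a2 s')
    have g5 : |(a1 s - a2 s').im| ≤ c * ρ := by
      rw [Complex.sub_im, ← hs2, ← hs2', abs_sub_comm]
      exact hg
    have g6 : |(a1 s - a2 s').re| ≤ ρ + e := by
      rw [Complex.sub_re, abs_le]
      constructor <;> linarith [hxb.1, hxb.2, hxt.1, hxt.2]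
    linarith

end Pool.Agent.T2h56.TG
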