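import Pool.Agent.T2h56.TG.Stm2

/-! The theorem for two arcs with nondecreasing real parts. -/

set_option autoImplicit false

namespace Pool.Agent.T2h56.TG

open Set Metric

theorem t_UTWO (hUE : S_UE) : S_UTWO := by
  intro a1 a2 r hA hr
  obtain ⟨l, hl, e1, he1, H⟩ := hUE a1 a2 r hA hr
  -- the curve
  obtain ⟨K, hK⟩ : ∃ K : Set ℂ, K = a1 '' Icc (0:ℝ) 1 ∪ a2 '' Icc (0:ℝ) 1 := ⟨_, rfl⟩
  have hKc : IsCompact K := by
    rw [hK]
    exact (isCompact_Icc.image hA.c1).union (isCompact_Icc.image hA.c2)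
  have hKne : K.Nonempty := by
    rw [hK]
    exact ⟨a1 0, Or.inl ⟨0, ⟨le_rfl, zero_le_one⟩, rfl⟩⟩
  obtain ⟨B, hB⟩ := hKc.isBounded.exists_norm_le
  have hB0 : 0 ≤ B := by
    obtain ⟨k, hk⟩ := hKne
    exact (norm_nonneg k).trans (hB k hk)
  have hnear : ∀ e ∈ Ioo (0:ℝ) e1, ∀ p : ℂ,
      (∃ s ∈ Icc (0:ℝ) 1, p = a1 s + (e * s : ℝ) ∨ p = a2 s + (e * s : ℝ)) →
      ∃ k ∈ K, dist p k ≤ e := by
    rintro e he p ⟨s, hs, h | h⟩
    · refine ⟨a1 s, by rw [hK]; exact Or.inl ⟨s, hs, rfl⟩, ?_⟩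
      rw [h, dist_eq_norm, add_sub_cancel_left, Complex.norm_real, Real.norm_eq_abs,
        abs_of_nonneg (mul_nonneg he.1.le hs.1)]
      nlinarith [he.1, hs.2]
    · refine ⟨a2 s, by rw [hK]; exact Or.inr ⟨s, hs, rfl⟩, ?_⟩
      rw [h, dist_eq_norm, add_sub_cancel_left, Complex.norm_real, Real.norm_eq_abs,
        abs_of_nonneg (mul_nonneg he.1.le hs.1)]
      nlinarith [he.1, hs.2]
  -- the compact set of candidates
  obtain ⟨S, hS⟩ : ∃ S : Set (ℂ × ℂ), S = {x | ‖x.1‖ ≤ B + e1 ∧ ‖x.2‖ ≤ 2 * (B + e1) ∧ l ≤ ‖x.2‖} :=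
    ⟨_, rfl⟩
  have hSc : IsCompact S := by
    have h1 : IsCompact (closedBall (0:ℂ) (B + e1) ×ˢ closedBall (0:ℂ) (2 * (B + e1))) :=
      (isCompact_closedBall _ _).prod (isCompact_closedBall _ _)
    refine h1.of_isClosed_subset ?_ ?_
    · rw [hS]
      exact (isClosed_le continuous_fst.norm continuous_const).inter
        ((isClosed_le continuous_snd.norm continuous_const).inter
          (isClosed_le continuous_const continuous_snd.norm))
    · rw [hS]
      rintro x ⟨h2, h3, -⟩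
      exact ⟨by simpa using h2, by simpa using h3⟩
  let Φ : ℂ × ℂ → ℝ := fun x => infDist x.1 K + infDist (x.1 + x.2) K +
    infDist (x.1 + x.2 + r * Complex.I * x.2) K + infDist (x.1 + r * Complex.I * x.2) K
  have cΦ : Continuous Φ := by
    have c : Continuous fun z : ℂ => infDist z K := continuous_infDist_pt K
    exact (((c.comp continuous_fst).add (c.comp (by fun_prop : Continuous fun x : ℂ × ℂ =>
      x.1 + x.2))).add (c.comp (by fun_prop : Continuous fun x : ℂ × ℂ =>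
      x.1 + x.2 + r * Complex.I * x.2))).add (c.comp (by fun_prop : Continuous fun x : ℂ × ℂ =>
      x.1 + r * Complex.I * x.2))
  have hpt : ∀ e ∈ Ioo (0:ℝ) e1, ∃ x ∈ S, Φ x ≤ 4 * e := by
    intro e he
    obtain ⟨z, u, hu, hp⟩ := H e he
    obtain ⟨k0, hk0, d0⟩ := hnear e he _ (hp z (by simp))
    obtain ⟨k1, hk1, d1⟩ := hnear e he _ (hp (z + u) (by simp))
    obtain ⟨k2, hk2, d2⟩ := hnear e he _ (hp (z + u + r * Complex.I * u) (by simp))
    obtain ⟨k3, hk3, d3⟩ := hnear e he _ (hp (z + r * Complex.I * u) (by simp))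
    have hz : ‖z‖ ≤ B + e1 := by
      have : ‖z‖ ≤ ‖k0‖ + dist z k0 := by
        rw [dist_eq_norm]
        calc ‖z‖ = ‖k0 + (z - k0)‖ := by congr 1; ring
          _ ≤ _ := norm_add_le _ _
      linarith [hB k0 hk0, he.2]
    have hzu : ‖z + u‖ ≤ B + e1 := by
      have : ‖z + u‖ ≤ ‖k1‖ + dist (z + u) k1 := by
        rw [dist_eq_norm]
        calc ‖z + u‖ = ‖k1 + (z + u - k1)‖ := by congr 1; ring
          _ ≤ _ := norm_add_le _ _
      linarith [hB k1 hk1, he.2]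
    refine ⟨(z, u), ?_, ?_⟩
    · rw [hS]
      refine ⟨hz, ?_, hu⟩
      show ‖u‖ ≤ 2 * (B + e1)
      calc ‖u‖ = ‖(z + u) - z‖ := by congr 1; ring
        _ ≤ ‖z + u‖ + ‖z‖ := norm_sub_le _ _
        _ ≤ _ := by linarith
    · have i0 : infDist z K ≤ e := (infDist_le_dist_of_mem hk0).trans d0
      have i1 : infDist (z + u) K ≤ e := (infDist_le_dist_of_mem hk1).trans d1
      have i2 : infDist (z + u + r * Complex.I * u) K ≤ e := (infDist_le_dist_of_mem hk2).trans d2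
      have i3 : infDist (z + r * Complex.I * u) K ≤ e := (infDist_le_dist_of_mem hk3).trans d3
      show infDist z K + infDist (z + u) K + infDist (z + u + r * Complex.I * u) K +
        infDist (z + r * Complex.I * u) K ≤ 4 * e
      linarith
  obtain ⟨x0, hx0, -⟩ := hpt (e1 / 2) ⟨by linarith, by linarith⟩
  obtain ⟨x, hx, hmin⟩ := hSc.exists_isMinOn ⟨x0, hx0⟩ cΦ.continuousOn
  have hΦ : Φ x ≤ 0 := by
    by_contra hpos
    push Not at hpos
    obtain ⟨e, he⟩ : ∃ e, e = min (Φ x / 8) (e1 / 2) := ⟨_, rfl⟩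
    have he0 : 0 < e := by rw [he]; positivity
    obtain ⟨x', hx', h1⟩ := hpt e ⟨he0, by rw [he]; exact (min_le_right _ _).trans_lt (by linarith)⟩
    have h2 : Φ x ≤ Φ x' := hmin hx'
    have h3 : e ≤ Φ x / 8 := by rw [he]; exact min_le_left _ _
    linarith
  have h0 := @infDist_nonneg _ _ K x.1
  have h1 := @infDist_nonneg _ _ K (x.1 + x.2)
  have h2 := @infDist_nonneg _ _ K (x.1 + x.2 + r * Complex.I * x.2)
  have h3 := @infDist_nonneg _ _ K (x.1 + r * Complex.I * x.2)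
  have hΦ' : infDist x.1 K + infDist (x.1 + x.2) K +
    infDist (x.1 + x.2 + r * Complex.I * x.2) K + infDist (x.1 + r * Complex.I * x.2) K ≤ 0 := hΦ
  have hmem : ∀ p : ℂ, infDist p K = 0 → p ∈ K := fun p hp =>
    (hKc.isClosed.mem_iff_infDist_zero hKne).2 hp
  have hfin : ∀ p : ℂ, p ∈ K → ∃ s ∈ Icc (0:ℝ) 1, p = a1 s ∨ p = a2 s := by
    intro p hp
    rw [hK] at hp
    rcases hp with ⟨s, hs, h⟩ | ⟨s, hs, h⟩
    · exact ⟨s, hs, Or.inl h.symm⟩
    · exact ⟨s, hs, Or.inr h.symm⟩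
  have hxl : l ≤ ‖x.2‖ := by
    rw [hS] at hx
    exact hx.2.2
  refine ⟨x.1, x.2, fun h => ?_, fun p hp => ?_⟩
  · rw [h, norm_zero] at hxl
    linarith
  · simp only [mem_insert_iff, mem_singleton_iff] at hp
    rcases hp with rfl | rfl | rfl | rfl
    · exact hfin _ (hmem _ (by linarith))
    · exact hfin _ (hmem _ (by linarith))
    · exact hfin _ (hmem _ (by linarith))
    · exact hfin _ (hmem _ (by linarith))

end Pool.Agent.T2h56.TG
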