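import Pool.Agent.T2h56.TG.All
import Pool.Agent.T2h56.TG.T_USEP
import Pool.Agent.T2h56.TG.T_UBOX
import Pool.Agent.T2h56.TG.T_UARC
import Pool.Agent.T2h56.TG.T_UMID
import Pool.Agent.T2h56.TG.T_UPSI
import Pool.Agent.T2h56.TG.T_USIZE
import Pool.Agent.T2h56.TG.T_UE
import Pool.Agent.T2h56.TG.T_UTWO
import Pool.Agent.T2h56.TG.T_UNI

/-! The theorem on curves with a coordinate monotone on two arcs, assembled. -/

set_option autoImplicit false

namespace Pool.Agent.T2h56.TG

theorem usize : S_USIZE := t_USIZE t_AL (t_UMID t_USEP) t_USEP t_UPSI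
theorem ue : S_UE := t_UE core t_UBOX t_UARC usize
theorem utwo : S_UTWO := t_UTWO ue
theorem uni : S_UNI := t_UNI utwo

end Pool.Agent.T2h56.TG
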