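import Mathlib

/-! Two graphs: the five-dimensional min-max for inscribed rectangles. Definitions. -/

set_option autoImplicit false

namespace Pool.Agent.T2h56.TG

open Set

/-- Two functions `f ≤ g` on `[a, b]` with equal values at the ends, and the aspect ratio `r`. -/
structure Dat where
  a : ℝ
  b : ℝ
  r : ℝ
  f : ℝ → ℝ
  g : ℝ → ℝ
  ab : a < b
  r0 : 0 < r
  cf : Continuous f
  cg : Continuous g
  fg : ∀ x ∈ Icc a b, f x ≤ g x
  ea : f a = g a
  eb : f b = g b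

/-- The points `(L, R, v, ξ, ζ)`. -/
abbrev Pt := ℝ × ℝ × ℝ × ℝ × ℝ

/-- positive and negative part -/
noncomputable def pp (v : ℝ) : ℝ := max v 0
noncomputable def mm (v : ℝ) : ℝ := max (-v) 0

/-- the fibre function -/
noncomputable def sg (ξ α : ℝ) : ℝ := α - |ξ - α|

namespace Dat

variable (D : Dat)

noncomputable def w (x : ℝ) : ℝ := D.g x - D.f x
noncomputable def F (x : ℝ) : ℝ := ∫ t in D.a..x, D.f t
noncomputable def G (x : ℝ) : ℝ := ∫ t in D.a..x, D.g t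
/-- area to the left of `x` -/
noncomputable def al (x : ℝ) : ℝ := D.G x - D.F x
noncomputable def ar : ℝ := D.al D.b
/-- area to the right of `x` -/
noncomputable def be (x : ℝ) : ℝ := D.ar - D.al x

/-- the action -/
noncomputable def Psi (L R v : ℝ) : ℝ :=
  D.F (L + mm v) - D.F (R - pp v) + D.G (R - mm v) - D.G (L + pp v)
    - ((R - L - |v|) ^ 2 / D.r - D.r * v ^ 2) / 2

noncomputable def H (y : Pt) : ℝ :=
  D.Psi y.1 y.2.1 y.2.2.1 + sg y.2.2.2.1 (D.al y.1) + sg y.2.2.2.2 (D.be y.2.1)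

def Y : Set Pt := {y | D.a ≤ y.1 ∧ y.1 ≤ y.2.1 ∧ y.2.1 ≤ D.b ∧ |y.2.2.1| ≤ y.2.1 - y.1 ∧
  0 ≤ y.2.2.2.1 ∧ 0 ≤ y.2.2.2.2}

/-- the partial derivatives of the action (as a function of `L`, `R`, `pp v`, `mm v`) -/
noncomputable def DL (L R v : ℝ) : ℝ := D.f (L + mm v) - D.g (L + pp v) + (R - L - |v|) / D.r
noncomputable def DR (L R v : ℝ) : ℝ := D.g (R - mm v) - D.f (R - pp v) - (R - L - |v|) / D.r
noncomputable def DP (L R v : ℝ) : ℝ :=
  D.f (R - pp v) - D.g (L + pp v) + (R - L - |v|) / D.r + D.r * pp v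
noncomputable def DM (L R v : ℝ) : ℝ :=
  D.f (L + mm v) - D.g (R - mm v) + (R - L - |v|) / D.r + D.r * mm v

/-- there is a local descent at `y` -/
def Desc (y : Pt) : Prop := ∃ ε > 0, ∃ Γ : ℝ → Pt → Pt,
  Continuous (fun x : ℝ × Pt => Γ x.1 x.2) ∧ (∀ z, Γ 0 z = z) ∧
  ∀ z ∈ D.Y, dist z y < ε → ∀ τ ∈ Ioo 0 ε, Γ τ z ∈ D.Y ∧ D.H (Γ τ z) < D.H z

/-- `y` describes an inscribed rectangle: the left and right vertices `(L, lam)`, `(R, mu)` are on the
two graphs, the bottom vertex is on the graph of `f` and the top vertex on the graph of `g`. -/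
def Rect (y : Pt) : Prop := y.1 < y.2.1 ∧ ∃ lam mu : ℝ,
  (lam = D.f y.1 ∨ lam = D.g y.1) ∧ (mu = D.f y.2.1 ∨ mu = D.g y.2.1) ∧
  ((0 ≤ y.2.2.1 ∧ D.g (y.1 + y.2.2.1) = lam + (y.2.1 - y.1 - y.2.2.1) / D.r ∧
      D.f (y.2.1 - y.2.2.1) = lam - D.r * y.2.2.1 ∧
      mu = lam + (y.2.1 - y.1 - y.2.2.1) / D.r - D.r * y.2.2.1) ∨
    (y.2.2.1 ≤ 0 ∧ D.f (y.1 - y.2.2.1) = lam - (y.2.1 - y.1 + y.2.2.1) / D.r ∧
      D.g (y.2.1 + y.2.2.1) = lam - D.r * y.2.2.1 ∧
      mu = lam - (y.2.1 - y.1 + y.2.2.1) / D.r - D.r * y.2.2.1))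

/-- reflection in the `y`-axis -/
noncomputable def mir : Dat where
  a := -D.b
  b := -D.a
  r := D.r
  f := fun x => D.f (-x)
  g := fun x => D.g (-x)
  ab := neg_lt_neg D.ab
  r0 := D.r0
  cf := D.cf.comp continuous_neg
  cg := D.cg.comp continuous_neg
  fg := fun x hx => D.fg (-x) ⟨by linarith [hx.2], by linarith [hx.1]⟩
  ea := by simpa using D.eb
  eb := by simpa using D.ea

/-- reflection in the `x`-axis -/
noncomputable def ref : Dat where
  a := D.a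
  b := D.b
  r := D.r
  f := fun x => -D.g x
  g := fun x => -D.f x
  ab := D.ab
  r0 := D.r0
  cf := D.cg.neg
  cg := D.cf.neg
  fg := fun x hx => neg_le_neg (D.fg x hx)
  ea := by rw [D.ea]
  eb := by rw [D.eb]

end Dat

/-- the map of points under `mir` -/
def muM (y : Pt) : Pt := (-y.2.1, -y.1, -y.2.2.1, y.2.2.2.2, y.2.2.2.1)
/-- the map of points under `ref` -/
def muR (y : Pt) : Pt := (y.1, y.2.1, -y.2.2.1, y.2.2.2.1, y.2.2.2.2)

end Pool.Agent.T2h56.TG
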