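import Pool.Agent.T2h56.TG.Def

/-! Statements of the tasks. -/

set_option autoImplicit false

namespace Pool.Agent.T2h56.TG

open Set

/-- PUSH: a local descent gives a global continuous map. -/
def S_PUSH : Prop := ∀ (E : Type) [MetricSpace E] (Y : Set E) (h : E → ℝ) (c : ℝ) (y : E),
  Continuous h → y ∈ Y → c < h y →
  (∃ ε > 0, ∃ Γ : ℝ → E → E, Continuous (fun x : ℝ × E => Γ x.1 x.2) ∧ (∀ z, Γ 0 z = z) ∧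
    ∀ z ∈ Y, dist z y < ε → ∀ τ ∈ Ioo 0 ε, Γ τ z ∈ Y ∧ h (Γ τ z) < h z) →
  ∃ Φ : E → E, Continuous Φ ∧ MapsTo Φ Y Y ∧ (∀ z ∈ Y, Φ z = z ∨ h (Φ z) < h z) ∧
    (∀ z ∈ Y, h z ≤ c → Φ z = z) ∧ h (Φ y) < h y

/-- DEF: the deformation lemma. -/
def S_DEF : Prop := ∀ (E : Type) [MetricSpace E] (Y : Set E) (h : E → ℝ) (c l0 l1 : ℝ),
  Continuous h → c < l0 → IsCompact {y | y ∈ Y ∧ l0 ≤ h y ∧ h y ≤ l1} →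
  (∀ y ∈ Y, l0 ≤ h y → h y ≤ l1 →
    ∃ ε > 0, ∃ Γ : ℝ → E → E, Continuous (fun x : ℝ × E => Γ x.1 x.2) ∧ (∀ z, Γ 0 z = z) ∧
      ∀ z ∈ Y, dist z y < ε → ∀ τ ∈ Ioo 0 ε, Γ τ z ∈ Y ∧ h (Γ τ z) < h z) →
  ∃ Φ : E → E, Continuous Φ ∧ MapsTo Φ Y Y ∧ (∀ z ∈ Y, h z ≤ c → Φ z = z) ∧
    ∀ z ∈ Y, h z ≤ l1 → h (Φ z) < l0

/-- SD: strict first order expansion of the action. -/
def S_SD : Prop := ∀ (D : Dat) (L0 R0 v0 : ℝ), ∀ ε > 0, ∃ δ > 0, ∀ L R v L' R' v' : ℝ,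
  |L - L0| < δ → |R - R0| < δ → |v - v0| < δ → |L' - L0| < δ → |R' - R0| < δ → |v' - v0| < δ →
  |D.Psi L' R' v' - D.Psi L R v - (D.DL L0 R0 v0 * (L' - L) + D.DR L0 R0 v0 * (R' - R) +
    D.DP L0 R0 v0 * (pp v' - pp v) + D.DM L0 R0 v0 * (mm v' - mm v))| ≤
  ε * (|L' - L| + |R' - R| + |v' - v|)

/-- AL: strict expansion of the area, and simple facts. -/
def S_AL : Prop := ∀ D : Dat,
  (∀ x0, ∀ ε > 0, ∃ δ > 0, ∀ x x', |x - x0| < δ → |x' - x0| < δ →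
    |D.al x' - D.al x - D.w x0 * (x' - x)| ≤ ε * |x' - x|) ∧
  Continuous D.al ∧ Continuous D.be ∧ Continuous D.F ∧ Continuous D.G ∧
  Continuous (fun z : ℝ × ℝ × ℝ => D.Psi z.1 z.2.1 z.2.2) ∧ Continuous D.H ∧
  D.al D.a = 0 ∧ D.be D.b = 0 ∧ MonotoneOn D.al (Icc D.a D.b) ∧ AntitoneOn D.be (Icc D.a D.b) ∧
  (∀ x ∈ Icc D.a D.b, 0 ≤ D.al x ∧ 0 ≤ D.be x) ∧
  (∀ x ∈ Icc D.a D.b, D.al x = 0 → D.w x = 0) ∧ (∀ x ∈ Icc D.a D.b, D.be x = 0 → D.w x = 0) ∧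
  (∀ x ∈ Ioo D.a D.b, 0 < D.w x → 0 < D.al x ∧ 0 < D.be x) ∧
  (∀ x ∈ Icc D.a D.b, ∀ x' ∈ Icc D.a D.b, x ≤ x' → ∀ c : ℝ, (∀ t ∈ Icc x x', c ≤ D.w t) →
    c * (x' - x) ≤ D.al x' - D.al x)

/-- the move with velocities `lam, mu, nu` and adjustment flags -/
noncomputable def mv (D : Dat) (lam mu nu : ℝ) (e1 e2 : Bool) (τ : ℝ) (z : Pt) : Pt :=
  (z.1 + lam * τ, z.2.1 + mu * τ, z.2.2.1 + nu * τ,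
    z.2.2.2.1 + (if e1 then D.al (z.1 + lam * τ) - D.al z.1 else 0),
    z.2.2.2.2 + (if e2 then D.be (z.2.1 + mu * τ) - D.be z.2.1 else 0))

/-- GM: the general move. -/
def S_GM : Prop := ∀ (D : Dat) (y : Pt) (lam mu nu : ℝ) (e1 e2 : Bool), y ∈ D.Y →
  (e1 = false → lam = 0 ∨ y.2.2.2.1 < D.al y.1) →
  (e2 = false → mu = 0 ∨ y.2.2.2.2 < D.be y.2.1) →
  (nu = 0 ∨ 0 < y.2.2.1 ∨ y.2.2.1 < 0 ∨ D.DP y.1 y.2.1 y.2.2.1 = -D.DM y.1 y.2.1 y.2.2.1) →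
  D.DL y.1 y.2.1 y.2.2.1 * lam + D.DR y.1 y.2.1 y.2.2.1 * mu +
    (if 0 < y.2.2.1 then D.DP y.1 y.2.1 y.2.2.1 else -D.DM y.1 y.2.1 y.2.2.1) * nu +
    (if e1 then D.w y.1 * lam else 0) - (if e2 then D.w y.2.1 * mu else 0) < 0 →
  (∃ ε > 0, ∀ z ∈ D.Y, dist z y < ε → ∀ τ ∈ Ioo 0 ε, mv D lam mu nu e1 e2 τ z ∈ D.Y) →
  D.Desc y

/-- A1: the left vertex can move to the left, at the wall one leaves through the fibre. -/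
def S_A1 : Prop := ∀ (D : Dat) (y : Pt), y ∈ D.Y → 0 < D.DL y.1 y.2.1 y.2.2.1 → D.Desc y

/-- RA: rules for the left vertex away from the face. -/
def S_RA : Prop := ∀ (D : Dat) (y : Pt), y ∈ D.Y →
  (0 < y.2.2.2.1 → y.2.2.2.1 < D.al y.1 → D.Desc y) ∧
  (D.al y.1 < y.2.2.2.1 → D.Desc y) ∧
  (|y.2.2.1| < y.2.1 - y.1 → D.DL y.1 y.2.1 y.2.2.1 + D.w y.1 < 0 → D.Desc y) ∧
  (|y.2.2.1| < y.2.1 - y.1 → D.DL y.1 y.2.1 y.2.2.1 < 0 → y.2.2.2.1 < D.al y.1 → D.Desc y) ∧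
  (0 < D.DL y.1 y.2.1 y.2.2.1 + D.w y.1 → 0 < y.2.2.2.1 → D.a < y.1 → D.Desc y)

/-- RG: rules for `v > 0` and `v = 0`. -/
def S_RG : Prop := ∀ (D : Dat) (y : Pt), y ∈ D.Y →
  (0 < y.2.2.1 → 0 < D.DP y.1 y.2.1 y.2.2.1 → D.Desc y) ∧
  (0 < y.2.2.1 → y.2.2.1 < y.2.1 - y.1 → D.DP y.1 y.2.1 y.2.2.1 ≠ 0 → D.Desc y) ∧
  (y.2.2.1 = 0 → y.1 < y.2.1 → D.DP y.1 y.2.1 y.2.2.1 = -D.DM y.1 y.2.1 y.2.2.1 →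
    D.DP y.1 y.2.1 y.2.2.1 ≠ 0 → D.Desc y)

/-- RI: rules at the face `v = R - L > 0` (left vertex) and at the edge `L = R`. -/
def S_RI : Prop := ∀ (D : Dat) (y : Pt), y ∈ D.Y →
  (0 < y.2.2.1 → y.2.2.1 = y.2.1 - y.1 →
    (D.w y.1 < D.r * (y.2.1 - y.1) ∨ y.2.2.2.1 < D.al y.1) → D.Desc y) ∧
  (y.1 = y.2.1 → D.a < y.1 → 0 < D.w y.1 → 0 < y.2.2.2.1 → y.2.2.2.2 < D.be y.2.1 → D.Desc y)

/-- MIR: the reflection in the `y`-axis. -/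
def S_MIR : Prop := ∀ (D : Dat) (y : Pt),
  (y ∈ D.Y ↔ muM y ∈ D.mir.Y) ∧ D.mir.H (muM y) = D.H y ∧ (D.mir.Desc (muM y) → D.Desc y) ∧
  (∀ x, D.mir.al (-x) = D.be x ∧ D.mir.be (-x) = D.al x ∧ D.mir.w (-x) = D.w x) ∧
  ∀ L R v, D.mir.DL (-R) (-L) (-v) = -D.DR L R v ∧ D.mir.DR (-R) (-L) (-v) = -D.DL L R v ∧
    D.mir.DP (-R) (-L) (-v) = D.DM L R v ∧ D.mir.DM (-R) (-L) (-v) = D.DP L R v

/-- REF: the reflection in the `x`-axis. -/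
def S_REF : Prop := ∀ (D : Dat) (y : Pt),
  (y ∈ D.Y ↔ muR y ∈ D.ref.Y) ∧ D.ref.H (muR y) = D.H y ∧ (D.ref.Desc (muR y) → D.Desc y) ∧
  (∀ x, D.ref.al x = D.al x ∧ D.ref.be x = D.be x ∧ D.ref.w x = D.w x) ∧
  ∀ L R v, D.ref.DL L R (-v) = D.DL L R v ∧ D.ref.DR L R (-v) = D.DR L R v ∧
    D.ref.DP L R (-v) = D.DM L R v ∧ D.ref.DM L R (-v) = D.DP L R v

/-- CRIT: the points without local descent. -/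
def S_CRIT : Prop := ∀ (D : Dat) (y : Pt), y ∈ D.Y → ¬ D.Desc y →
  (y.2.2.2.1 = 0 ∨ y.2.2.2.1 = D.al y.1) ∧ (y.2.2.2.2 = 0 ∨ y.2.2.2.2 = D.be y.2.1) ∧
  (D.Rect y ∨
    (y.1 < y.2.1 ∧ |y.2.2.1| = y.2.1 - y.1 ∧ y.2.2.2.1 = D.al y.1 ∧ y.2.2.2.2 = D.be y.2.1) ∨
    (y.1 = y.2.1 ∧ ((y.2.2.2.1 = 0 ∧ y.2.2.2.2 = 0) ∨
      (y.2.2.2.1 = D.al y.1 ∧ y.2.2.2.2 = D.be y.2.1) ∨ D.w y.1 = 0)))

/-- KP: the lower bound on the linking set. -/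
def S_KP : Prop := ∀ (D : Dat) (x0 y0 δ h : ℝ), 0 < δ → 0 < h → D.a ≤ x0 - δ → x0 + δ ≤ D.b →
  (∀ x ∈ Icc (x0 - δ) (x0 + δ), D.f x ≤ y0 - h ∧ y0 + h ≤ D.g x) → δ ≤ h * D.r →
  ∀ y ∈ D.Y, min (y.1 - (x0 - δ)) (D.al y.1 - y.2.2.2.1) = 0 →
    min ((x0 + δ) - y.2.1) (D.be y.2.1 - y.2.2.2.2) = 0 →
    min (h * δ) (D.r * δ ^ 2 / 2) ≤ D.H y

/-- the level function of the face -/
noncomputable def Dat.q (D : Dat) (L R : ℝ) : ℝ := D.al L + D.be R + D.r * (R - L) ^ 2 / 2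

/-- QM: the minimum of `q`. -/
def S_QM : Prop := ∀ (D : Dat) (x0 y0 δ h : ℝ), 0 < δ → 0 < h → D.a ≤ x0 - δ → x0 + δ ≤ D.b →
  (∀ x ∈ Icc (x0 - δ) (x0 + δ), D.f x ≤ y0 - h ∧ y0 + h ≤ D.g x) → D.r * δ ≤ h →
  ∃ Ls Rs : ℝ, D.a < Ls ∧ Ls < Rs ∧ Rs < D.b ∧ (∀ L R, D.a ≤ L → L ≤ R → R ≤ D.b →
    D.q Ls Rs ≤ D.q L R) ∧ D.w Ls = D.r * (Rs - Ls) ∧ D.w Rs = D.r * (Rs - Ls) ∧
    D.q Ls Rs + 2 * h * δ ≤ D.ar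

/-- DISC: the two-dimensional chain, for `s = 1` or `s = -1`. -/
def S_DISC : Prop := ∀ (D : Dat) (Ls Rs L0 R0 s : ℝ), D.a < Ls → Ls < Rs → Rs < D.b →
  D.a ≤ L0 → L0 < R0 → R0 ≤ D.b → 0 < D.al Ls → 0 < D.be Rs →
  (∀ x, L0 < x → x ≤ D.b → 0 < D.al x) → (∀ x, x < R0 → D.a ≤ x → 0 < D.be x) →
  (s = 1 ∨ s = -1) →
  ∃ (M : ℝ) (P : ℝ × ℝ → Pt), 0 < M ∧ Continuous P ∧
    (∀ p ∈ Icc (Ls - M) D.b, ∀ t ∈ Icc D.a (Rs + M), P (p, t) ∈ D.Y ∧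
      D.H (P (p, t)) ≤ D.q Ls Rs ∧
      (D.H (P (p, t)) = D.q Ls Rs → P (p, t) = (Ls, Rs, s * (Rs - Ls), D.al Ls, D.be Rs))) ∧
    (∀ t ∈ Icc D.a (Rs + M), D.H (P (Ls - M, t)) ≤ 0 ∧
      min ((P (Ls - M, t)).1 - L0) (D.al (P (Ls - M, t)).1 - (P (Ls - M, t)).2.2.2.1) < 0) ∧
    (∀ t ∈ Icc D.a (Rs + M), D.H (P (D.b, t)) ≤ 0 ∧
      0 < min ((P (D.b, t)).1 - L0) (D.al (P (D.b, t)).1 - (P (D.b, t)).2.2.2.1)) ∧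
    (∀ p ∈ Icc (Ls - M) D.b, D.H (P (p, D.a)) ≤ 0 ∧
      0 < min (R0 - (P (p, D.a)).2.1) (D.be (P (p, D.a)).2.1 - (P (p, D.a)).2.2.2.2)) ∧
    (∀ p ∈ Icc (Ls - M) D.b, D.H (P (p, Rs + M)) ≤ 0 ∧
      min (R0 - (P (p, Rs + M)).2.1) (D.be (P (p, Rs + M)).2.1 - (P (p, Rs + M)).2.2.2.2) < 0)

/-- CMP: the band is compact. -/
def S_CMP : Prop := ∀ (D : Dat) (l0 l1 : ℝ), IsCompact {y | y ∈ D.Y ∧ l0 ≤ D.H y ∧ D.H y ≤ l1}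

/-- CORE: the min-max theorem. -/
def S_CORE : Prop := ∀ (D : Dat) (x0 y0 δ h k : ℝ), 0 < δ → 0 < h → D.a ≤ x0 - δ → x0 + δ ≤ D.b →
  (∀ x ∈ Icc (x0 - δ) (x0 + δ), D.f x ≤ y0 - h ∧ y0 + h ≤ D.g x) → δ ≤ h * D.r → D.r * δ ≤ h →
  0 < k → k < min (h * δ) (D.r * δ ^ 2 / 2) →
  (∀ m ∈ Icc D.a D.b, D.g m = D.f m → D.al m < k ∨ D.be m < k) →
  ∃ y ∈ D.Y, D.Rect y ∧ (y.2.2.2.1 = 0 ∨ y.2.2.2.1 = D.al y.1) ∧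
    (y.2.2.2.2 = 0 ∨ y.2.2.2.2 = D.be y.2.1) ∧ k ≤ D.H y ∧ D.H y ≤ D.ar - 2 * h * δ

/-- TWO: two graphs. -/
def S_TWO : Prop := ∀ (a b r : ℝ) (f g : ℝ → ℝ), a < b → 0 < r → ContinuousOn f (Icc a b) →
  ContinuousOn g (Icc a b) → f a = g a → f b = g b → (∀ x ∈ Ioo a b, f x < g x) →
  ∃ P : Fin 4 → ℂ, (∀ j, (P j).re ∈ Icc a b ∧ ((P j).im = f (P j).re ∨ (P j).im = g (P j).re)) ∧
    P 1 ≠ P 0 ∧ P 2 = P 1 + r * Complex.I * (P 1 - P 0) ∧ P 3 = P 0 + r * Complex.I * (P 1 - P 0)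

/-- UNI: Jordan curves with a coordinate that is monotone on two arcs. -/
def S_UNI : Prop := ∀ (c : ℝ → ℂ) (m r : ℝ), 0 < r → Continuous c → (∀ t, c (t + 1) = c t) →
  InjOn c (Ico 0 1) → 0 < m → m < 1 → MonotoneOn (fun t => (c t).re) (Icc 0 m) →
  AntitoneOn (fun t => (c t).re) (Icc m 1) →
  ∃ z u : ℂ, u ≠ 0 ∧ z ∈ range c ∧ z + u ∈ range c ∧ z + u + r * Complex.I * u ∈ range c ∧
    z + r * Complex.I * u ∈ range c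

end Pool.Agent.T2h56.TG
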