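import Pool.Agent.T2h56.TG.Stm

/-! Statements of the tasks for curves with a monotone coordinate on two arcs. -/

set_option autoImplicit false

namespace Pool.Agent.T2h56.TG

open Set

/-- Two arcs with common ends and disjoint otherwise, with nondecreasing real parts. -/
structure Arc2 (a1 a2 : ℝ → ℂ) : Prop where
  c1 : Continuous a1
  c2 : Continuous a2
  m1 : MonotoneOn (fun s => (a1 s).re) (Icc 0 1)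
  m2 : MonotoneOn (fun s => (a2 s).re) (Icc 0 1)
  e0 : a1 0 = a2 0
  e1 : a1 1 = a2 1
  lt : (a1 0).re < (a1 1).re
  dj : ∀ s ∈ Icc (0:ℝ) 1, ∀ s' ∈ Icc (0:ℝ) 1, a1 s = a2 s' → (s = 0 ∧ s' = 0) ∨ (s = 1 ∧ s' = 1)

/-- USEP: the arcs are separated away from the ends. -/
def S_USEP : Prop := ∀ a1 a2 : ℝ → ℂ, Arc2 a1 a2 → ∀ η > 0, ∃ d > 0, ∀ s ∈ Icc (0:ℝ) 1,
  ∀ s' ∈ Icc (0:ℝ) 1, (a1 0).re + η ≤ (a1 s).re → (a1 s).re ≤ (a1 1).re - η → d ≤ ‖a1 s - a2 s'‖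

/-- the box: near `x0` the first arc is below, the second arc above -/
def UBox (a1 a2 : ℝ → ℂ) (r x0 y0 δ h e0 : ℝ) : Prop :=
  0 < δ ∧ 0 < h ∧ 0 < e0 ∧ (a1 0).re ≤ x0 - δ ∧ x0 + δ ≤ (a1 1).re ∧ δ ≤ h * r ∧ r * δ ≤ h ∧
  (∀ s ∈ Icc (0:ℝ) 1, |(a1 s).re - x0| ≤ δ + e0 → (a1 s).im ≤ y0 - h) ∧
  (∀ s ∈ Icc (0:ℝ) 1, |(a2 s).re - x0| ≤ δ + e0 → y0 + h ≤ (a2 s).im)

/-- UBOX: there is a box, up to the order of the arcs. -/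
def S_UBOX : Prop := ∀ a1 a2 : ℝ → ℂ, Arc2 a1 a2 → ∀ r > 0, ∃ x0 y0 δ h e0 : ℝ,
  UBox a1 a2 r x0 y0 δ h e0 ∨ UBox a2 a1 r x0 y0 δ h e0

/-- `φ` is the function whose graph is the sheared arc `a s + e s` -/
def Gr (a : ℝ → ℂ) (e : ℝ) (φ : ℝ → ℝ) : Prop := Continuous φ ∧
  ∀ x ∈ Icc (a 0).re ((a 1).re + e), ∃ s ∈ Icc (0:ℝ) 1, x = (a s).re + e * s ∧ φ x = (a s).im

/-- UARC: the sheared arc is a graph. -/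
def S_UARC : Prop := ∀ a : ℝ → ℂ, Continuous a → MonotoneOn (fun s => (a s).re) (Icc 0 1) →
  ∀ e > 0, ∃ φ : ℝ → ℝ, Gr a e φ ∧ φ (a 0).re = (a 0).im ∧ φ ((a 1).re + e) = (a 1).im

/-- UMID: away from the ends the first graph is below the second one. -/
def S_UMID : Prop := ∀ (a1 a2 : ℝ → ℂ) (r x0 y0 δ h e0 : ℝ), Arc2 a1 a2 →
  UBox a1 a2 r x0 y0 δ h e0 → ∀ η > 0, ∃ e1 > 0, ∀ e ∈ Ioo 0 e1, ∀ φ ψ : ℝ → ℝ, Gr a1 e φ →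
  Gr a2 e ψ → ∀ x ∈ Icc ((a1 0).re + η) ((a1 1).re + e - η), φ x < ψ x

/-- UPSI: the action of a small configuration is small. -/
def S_UPSI : Prop := ∀ (D : Dat) (S : ℝ), (∀ x ∈ Icc D.a D.b, |D.f x| ≤ S ∧ |D.g x| ≤ S) →
  ∀ L R v : ℝ, D.a ≤ L → L ≤ R → R ≤ D.b → |v| ≤ R - L →
  |D.Psi L R v| ≤ (2 * S + (1 / D.r + D.r) * (D.b - D.a)) * (R - L)

/-- USIZE: the rectangles found by `CORE` have a lower bound for the size. -/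
def S_USIZE : Prop := ∀ (a1 a2 : ℝ → ℂ) (r x0 y0 δ h e0 k : ℝ), 0 < r → Arc2 a1 a2 →
  UBox a1 a2 r x0 y0 δ h e0 → 0 < k → ∃ e1 > 0, ∃ l > 0, ∀ e ∈ Ioo 0 e1, ∀ φ ψ : ℝ → ℝ,
  Gr a1 e φ → Gr a2 e ψ → ∀ D : Dat, D.a = (a1 0).re → D.b = (a1 1).re + e → D.r = r →
  (∀ x, D.f x = min (φ x) (ψ x)) → (∀ x, D.g x = max (φ x) (ψ x)) →
  (∀ m ∈ Icc D.a D.b, D.g m = D.f m → D.al m < k ∨ D.be m < k) ∧
  ∀ y ∈ D.Y, D.Rect y → (y.2.2.2.1 = 0 ∨ y.2.2.2.1 = D.al y.1) →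
    (y.2.2.2.2 = 0 ∨ y.2.2.2.2 = D.be y.2.1) → k ≤ D.H y → D.H y ≤ D.ar - 2 * h * δ →
    l ≤ y.2.1 - y.1

/-- UE: the rectangle for the sheared curve. -/
def S_UE : Prop := ∀ (a1 a2 : ℝ → ℂ) (r : ℝ), Arc2 a1 a2 → 0 < r → ∃ l > 0, ∃ e1 > 0,
  ∀ e ∈ Ioo (0:ℝ) e1,
  ∃ z u : ℂ, l ≤ ‖u‖ ∧ ∀ p ∈ ({z, z + u, z + u + r * Complex.I * u, z + r * Complex.I * u} : Set ℂ),
    ∃ s ∈ Icc (0:ℝ) 1, p = a1 s + (e * s : ℝ) ∨ p = a2 s + (e * s : ℝ)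

/-- UARC2: the theorem for two arcs. -/
def S_UTWO : Prop := ∀ (a1 a2 : ℝ → ℂ) (r : ℝ), Arc2 a1 a2 → 0 < r → ∃ z u : ℂ, u ≠ 0 ∧
  ∀ p ∈ ({z, z + u, z + u + r * Complex.I * u, z + r * Complex.I * u} : Set ℂ),
    ∃ s ∈ Icc (0:ℝ) 1, p = a1 s ∨ p = a2 s

end Pool.Agent.T2h56.TG
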