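import Pool.Agent.T2h56.TG.Stm

/-! PUSH (helper1). -/

set_option autoImplicit false

namespace Pool.Agent.T2h56.TG

open Set

theorem t_PUSH : S_PUSH := by
  intro E _ Y h c y hh hy hcy hex
  obtain ⟨ε, hε, Γ, hΓ, hΓ0, hdesc⟩ := hex
  have h1 : ∀ᶠ z in nhds y, c < h z := hh.continuousAt.eventually (lt_mem_nhds hcy)
  obtain ⟨r1, hr1, hball⟩ := Metric.eventually_nhds_iff.1 h1
  obtain ⟨r, hr, hrr1, hrε⟩ : ∃ r > 0, r ≤ r1 ∧ r ≤ ε :=
    ⟨min r1 ε, lt_min hr1 hε, min_le_left _ _, min_le_right _ _⟩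
  let t : E → ℝ := fun z => ε / 2 * max 0 (1 - dist z y / r)
  have ht : Continuous t :=
    continuous_const.mul (continuous_const.max
      (continuous_const.sub ((continuous_id.dist continuous_const).div_const r)))
  have hfar : ∀ z, r ≤ dist z y → t z = 0 := by
    intro z hz
    have h2 : 1 ≤ dist z y / r := (one_le_div hr).2 hz
    have h3 : max 0 (1 - dist z y / r) = 0 := max_eq_left (by linarith)
    show ε / 2 * max 0 (1 - dist z y / r) = 0
    rw [h3, mul_zero]
  have hnear : ∀ z, dist z y < r → t z ∈ Ioo 0 ε := by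
    intro z hz
    have h2 : dist z y / r < 1 := (div_lt_one hr).2 hz
    have h2' : 0 ≤ dist z y / r := div_nonneg dist_nonneg hr.le
    have h3 : max 0 (1 - dist z y / r) = 1 - dist z y / r := max_eq_right (by linarith)
    have h4 : t z = ε / 2 * (1 - dist z y / r) := by
      show ε / 2 * max 0 (1 - dist z y / r) = _
      rw [h3]
    rw [h4]
    constructor
    · exact mul_pos (by linarith) (by linarith)
    · nlinarith
  have hcase : ∀ z ∈ Y, (Γ (t z) z = z ∧ r ≤ dist z y) ∨
      (dist z y < r ∧ Γ (t z) z ∈ Y ∧ h (Γ (t z) z) < h z) := by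
    intro z hz
    by_cases hd : r ≤ dist z y
    · left
      rw [hfar z hd, hΓ0]
      exact ⟨rfl, hd⟩
    · right
      push Not at hd
      have h2 := hdesc z hz (lt_of_lt_of_le hd hrε) (t z) (hnear z hd)
      exact ⟨hd, h2⟩
  refine ⟨fun z => Γ (t z) z, hΓ.comp (ht.prodMk continuous_id), ?_, ?_, ?_, ?_⟩
  · intro z hz
    rcases hcase z hz with h2 | h2
    · show Γ (t z) z ∈ Y
      rw [h2.1]
      exact hz
    · exact h2.2.1
  · intro z hz
    rcases hcase z hz with h2 | h2
    · exact Or.inl h2.1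
    · exact Or.inr h2.2.2
  · intro z hz hzc
    rcases hcase z hz with h2 | h2
    · exact h2.1
    · exact absurd (hball (lt_of_lt_of_le h2.1 hrr1)) (not_lt.2 hzc)
  · rcases hcase y hy with h2 | h2
    · rw [dist_self] at h2
      exact absurd h2.2 (not_le.2 hr)
    · exact h2.2.2

end Pool.Agent.T2h56.TG
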