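import Pool.Agent.T2h56.TG.Stm

/-! QM: the minimum of `q` (helper11). -/

set_option autoImplicit false
set_option linter.all false

namespace Pool.Agent.T2h56.TG

open Set Filter Topology

namespace QMaux

theorem hal (D : Dat) (x : ℝ) : HasDerivAt D.al (D.w x) x :=
  ((D.cg.integral_hasStrictDerivAt D.a x).sub (D.cf.integral_hasStrictDerivAt D.a x)).hasDerivAt

theorem hbe (D : Dat) (x : ℝ) : HasDerivAt D.be (-D.w x) x :=
  (hal D x).const_sub D.ar

theorem cal (D : Dat) : Continuous D.al :=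
  continuous_iff_continuousAt.2 fun x => (hal D x).continuousAt

/-- derivative of `q` in the first variable -/
theorem hq1 (D : Dat) (L R : ℝ) :
    HasDerivAt (fun L => D.q L R) (D.w L - D.r * (R - L)) L := by
  unfold Dat.q
  have h1 : HasDerivAt (fun L : ℝ => D.r * (R - L) ^ 2 / 2) (-(D.r * (R - L))) L := by
    have h2 : HasDerivAt (fun L : ℝ => (R - L)) (-1) L := (hasDerivAt_id L).const_sub R
    have h3 := ((h2.pow 2).const_mul D.r).div_const 2
    refine h3.congr_deriv ?_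
    push_cast
    ring
  have h4 := ((hal D L).add_const (D.be R)).add h1
  refine h4.congr_deriv ?_
  ring

/-- derivative of `q` in the second variable -/
theorem hq2 (D : Dat) (L R : ℝ) :
    HasDerivAt (fun R => D.q L R) (-D.w R + D.r * (R - L)) R := by
  unfold Dat.q
  have h1 : HasDerivAt (fun R : ℝ => D.r * (R - L) ^ 2 / 2) (D.r * (R - L)) R := by
    have h2 : HasDerivAt (fun R : ℝ => (R - L)) 1 R := (hasDerivAt_id R).sub_const L
    have h3 := ((h2.pow 2).const_mul D.r).div_const 2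
    refine h3.congr_deriv ?_
    push_cast
    ring
  exact ((hbe D R).const_add (D.al L)).add h1

theorem cq (D : Dat) : Continuous (fun z : ℝ × ℝ => D.q z.1 z.2) := by
  unfold Dat.q Dat.be
  have h := cal D
  fun_prop

end QMaux

open QMaux in
theorem t_QM (hAL : S_AL) : S_QM := by
  intro D x0 y0 δ h hδ hh ha hb hbox hr
  obtain ⟨-, -, -, -, -, -, -, hala, hbeb, -, -, -, -, -, -, hlow⟩ := hAL D
  have hr0 := D.r0
  -- the minimum
  have hK : IsCompact {z : ℝ × ℝ | z ∈ Icc D.a D.b ×ˢ Icc D.a D.b ∧ z.1 ≤ z.2} :=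
    (isCompact_Icc.prod isCompact_Icc).inter_right (isClosed_le continuous_fst continuous_snd)
  have hne : {z : ℝ × ℝ | z ∈ Icc D.a D.b ×ˢ Icc D.a D.b ∧ z.1 ≤ z.2}.Nonempty :=
    ⟨(D.a, D.a), ⟨⟨le_rfl, D.ab.le⟩, ⟨le_rfl, D.ab.le⟩⟩, le_rfl⟩
  obtain ⟨⟨Ls, Rs⟩, ⟨⟨⟨hLa, hLb⟩, ⟨hRa, hRb⟩⟩, hLR⟩, hmin⟩ :=
    hK.exists_isMinOn hne (cq D).continuousOn
  simp only at hLa hLb hRa hRb hLR
  have hmin' : ∀ L R, D.a ≤ L → L ≤ R → R ≤ D.b → D.q Ls Rs ≤ D.q L R := by
    intro L R h1 h2 h3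
    exact hmin (show ((L, R) : ℝ × ℝ) ∈ _ from
      ⟨⟨⟨h1, by linarith⟩, ⟨by linarith, h3⟩⟩, h2⟩)
  have hbox' : D.q Ls Rs + 2 * h * δ ≤ D.ar := by
    have h1 := hmin' (x0 - δ) (x0 + δ) ha (by linarith) hb
    have h2 := hlow (x0 - δ) ⟨ha, by linarith⟩ (x0 + δ) ⟨by linarith, hb⟩ (by linarith) (2 * h)
      (fun t ht => by
        have := hbox t ht
        unfold Dat.w
        linarith)
    have h3 : D.q (x0 - δ) (x0 + δ) =
        D.ar - (D.al (x0 + δ) - D.al (x0 - δ)) + 2 * (D.r * δ) * δ := by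
      unfold Dat.q Dat.be
      ring
    have h4 : D.r * δ * δ ≤ h * δ := mul_le_mul_of_nonneg_right hr hδ.le
    linarith
  have hlt : Ls < Rs := by
    rcases lt_or_eq_of_le hLR with h1 | h1
    · exact h1
    · exfalso
      have h2 : D.q Ls Rs = D.ar := by
        rw [← h1]
        unfold Dat.q Dat.be
        ring
      have h3 : 0 < 2 * h * δ := by positivity
      linarith
  have hwa : D.w D.a = 0 := by
    unfold Dat.w
    rw [D.ea, sub_self]
  have hwb : D.w D.b = 0 := by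
    unfold Dat.w
    rw [D.eb, sub_self]
  -- a derivative cannot be negative at a minimum from the right
  have hright : ∀ (u : ℝ → ℝ) (x c e : ℝ), HasDerivAt u c x → x < e →
      (∀ x' ∈ Ioo x e, u x ≤ u x') → 0 ≤ c := by
    intro u x c e hu hxe hm
    have h1 := hu.hasDerivWithinAt (s := Ioi x)
    have h2 := (hasDerivWithinAt_iff_tendsto_slope' (by simp)).1 h1
    refine ge_of_tendsto h2 ?_
    filter_upwards [Ioo_mem_nhdsGT hxe] with x' hx'
    rw [slope_def_field]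
    exact div_nonneg (by linarith [hm x' hx']) (by linarith [hx'.1])
  have hleft : ∀ (u : ℝ → ℝ) (x c e : ℝ), HasDerivAt u c x → e < x →
      (∀ x' ∈ Ioo e x, u x ≤ u x') → c ≤ 0 := by
    intro u x c e hu hxe hm
    have h1 := hu.hasDerivWithinAt (s := Iio x)
    have h2 := (hasDerivWithinAt_iff_tendsto_slope' (by simp)).1 h1
    refine le_of_tendsto h2 ?_
    filter_upwards [Ioo_mem_nhdsLT hxe] with x' hx'
    rw [slope_def_field]
    exact div_nonpos_of_nonneg_of_nonpos (by linarith [hm x' hx']) (by linarith [hx'.2])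
  have d1 : 0 ≤ D.w Ls - D.r * (Rs - Ls) :=
    hright (fun L => D.q L Rs) Ls _ Rs (hq1 D Ls Rs) hlt fun x' hx' =>
      hmin' x' Rs (by linarith [hx'.1]) hx'.2.le hRb
  have d2 : -D.w Rs + D.r * (Rs - Ls) ≤ 0 :=
    hleft (fun R => D.q Ls R) Rs _ Ls (hq2 D Ls Rs) hlt fun x' hx' =>
      hmin' Ls x' hLa hx'.1.le (by linarith [hx'.2])
  have hpos : 0 < D.r * (Rs - Ls) := mul_pos hr0 (by linarith)
  have hLa' : D.a < Ls := by
    rcases lt_or_eq_of_le hLa with h1 | h1
    · exact h1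
    · exfalso
      rw [← h1, hwa] at d1
      rw [← h1] at hpos
      linarith
  have hRb' : Rs < D.b := by
    rcases lt_or_eq_of_le hRb with h1 | h1
    · exact h1
    · exfalso
      rw [h1, hwb] at d2
      rw [h1] at hpos
      linarith
  have d3 : D.w Ls - D.r * (Rs - Ls) ≤ 0 :=
    hleft (fun L => D.q L Rs) Ls _ D.a (hq1 D Ls Rs) hLa' fun x' hx' =>
      hmin' x' Rs hx'.1.le (by linarith [hx'.2]) hRb
  have d4 : 0 ≤ -D.w Rs + D.r * (Rs - Ls) :=
    hright (fun R => D.q Ls R) Rs _ D.b (hq2 D Ls Rs) hRb' fun x' hx' =>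
      hmin' Ls x' hLa (by linarith [hx'.1]) hx'.2.le
  exact ⟨Ls, Rs, hLa', hlt, hRb', hmin', by linarith, by linarith, hbox'⟩

end Pool.Agent.T2h56.TG
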